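import Pool.Agent.Lib.MP_0fc3df_an.Defs

/-! # BIL-Basic: linear algebra and convexity -/

set_option autoImplicit false

namespace Pool.Bil

open MeasureTheory Set Filter Topology Complex
open scoped ENNReal

theorem dt_add_right (a b c : ℂ) : dt a (b + c) = dt a b + dt a c := by simp [dt]; ring
theorem dt_add_left (a b c : ℂ) : dt (a + b) c = dt a c + dt b c := by simp [dt]; ring
theorem dt_sub_right (a b c : ℂ) : dt a (b - c) = dt a b - dt a c := by simp [dt]; ring
theorem dt_sub_left (a b c : ℂ) : dt (a - b) c = dt a c - dt b c := by simp [dt]; ring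
theorem dt_neg_right (a b : ℂ) : dt a (-b) = - dt a b := by simp [dt]; ring
theorem dt_neg_left (a b : ℂ) : dt (-a) b = - dt a b := by simp [dt]; ring
theorem dt_smul_right (a b : ℂ) (r : ℝ) : dt a ((r : ℂ) * b) = r * dt a b := by simp [dt]; ring
theorem dt_smul_left (a b : ℂ) (r : ℝ) : dt ((r : ℂ) * a) b = r * dt a b := by simp [dt]; ring
theorem dt_comm (a b : ℂ) : dt a b = dt b a := by simp [dt]; ring
theorem dt_self (a : ℂ) : dt a a = ‖a‖ ^ 2 := by
  rw [← Complex.normSq_eq_norm_sq, Complex.normSq_apply]; simp [dt]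
theorem continuous_dt (a : ℂ) : Continuous (dt a) := by unfold dt; fun_prop
theorem continuous_dt2 : Continuous fun p : ℂ × ℂ => dt p.1 p.2 := by unfold dt; fun_prop
theorem dt_le (a b : ℂ) : dt a b ≤ ‖a‖ * ‖b‖ := by
  have h : dt a b ^ 2 ≤ (‖a‖ * ‖b‖) ^ 2 := by
    rw [mul_pow, ← dt_self, ← dt_self]; simp only [dt]; nlinarith [sq_nonneg (a.re * b.im - a.im * b.re)]
  exact (abs_le_of_sq_le_sq' h (by positivity)).2
theorem neg_dt_le (a b : ℂ) : - (‖a‖ * ‖b‖) ≤ dt a b := by
  have := dt_le (-a) b
  rw [dt_neg_left, norm_neg] at this; linarith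

namespace Poly

variable {ι : Type} (P : Poly ι)

theorem norm_n (i : ι) : ‖P.n i‖ = 1 := by
  have := P.unit i
  rw [dt_self] at this
  nlinarith [norm_nonneg (P.n i)]

theorem continuous_rf (i : ι) : Continuous (P.rf i) := by unfold rf dt; fun_prop
theorem continuous_rfv (i : ι) : Continuous (P.rfv i) := by unfold rfv dt; fun_prop

theorem continuous_fold (L : List ι) : Continuous (P.fold L) := by
  induction L with
  | nil => exact continuous_id
  | cons i L ih => exact (P.continuous_rf i).comp ih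

theorem continuous_foldv (L : List ι) : Continuous (P.foldv L) := by
  induction L with
  | nil => exact continuous_id
  | cons i L ih => exact (P.continuous_rfv i).comp ih

theorem isOpen_dom [Finite ι] : IsOpen P.dom := by
  have : P.dom = ⋂ i, {z | dt (P.n i) z < P.c i} := by ext z; simp [dom]
  rw [this]
  exact isOpen_iInter_of_finite fun i => isOpen_lt (continuous_dt _) continuous_const

/-! ### linearity -/

theorem rfv_add (i : ι) (v w : ℂ) : P.rfv i (v + w) = P.rfv i v + P.rfv i w := by
  simp only [rfv, dt_add_right]; push_cast; ring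
theorem rfv_sub (i : ι) (v w : ℂ) : P.rfv i (v - w) = P.rfv i v - P.rfv i w := by
  simp only [rfv, dt_sub_right]; push_cast; ring
theorem rfv_neg (i : ι) (v : ℂ) : P.rfv i (-v) = - P.rfv i v := by
  simp only [rfv, dt_neg_right]; push_cast; ring
theorem rfv_smul (i : ι) (v : ℂ) (r : ℝ) : P.rfv i ((r : ℂ) * v) = (r : ℂ) * P.rfv i v := by
  simp only [rfv, dt_smul_right]; push_cast; ring
theorem rf_add (i : ι) (z v : ℂ) : P.rf i (z + v) = P.rf i z + P.rfv i v := by
  simp only [rf, rfv, dt_add_right]; push_cast; ring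
theorem dt_rfv (i : ι) (v w : ℂ) : dt (P.rfv i v) (P.rfv i w) = dt v w := by
  have h := P.unit i
  simp only [rfv, dt_sub_left, dt_sub_right, dt_smul_left, dt_smul_right]
  rw [h, dt_comm v (P.n i)]; ring
theorem dt_n_rfv (i : ι) (v : ℂ) : dt (P.n i) (P.rfv i v) = - dt (P.n i) v := by
  have h := P.unit i
  simp only [rfv, dt_sub_right, dt_smul_right]; rw [h]; ring
theorem dt_n_rf (i : ι) (z : ℂ) : dt (P.n i) (P.rf i z) = 2 * P.c i - dt (P.n i) z := by
  have h := P.unit i
  simp only [rf, dt_sub_right, dt_smul_right]; rw [h]; ring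
theorem rfv_rfv (i : ι) (v : ℂ) : P.rfv i (P.rfv i v) = v := by
  have h := P.dt_n_rfv i v
  conv_lhs => rw [rfv, h, rfv]
  push_cast; ring
theorem rf_rf (i : ι) (z : ℂ) : P.rf i (P.rf i z) = z := by
  have h := P.dt_n_rf i z
  conv_lhs => rw [rf, h, rf]
  push_cast; ring
theorem rf_of_line {i : ι} {z : ℂ} (h : z ∈ P.line i) : P.rf i z = z := by
  have h' : dt (P.n i) z = P.c i := h
  simp [rf, h']
theorem norm_rfv (i : ι) (v : ℂ) : ‖P.rfv i v‖ = ‖v‖ := by
  have h := P.dt_rfv i v v
  rw [dt_self, dt_self] at h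
  exact (pow_left_inj₀ (norm_nonneg _) (norm_nonneg _) two_ne_zero).1 h

theorem foldv_add (L : List ι) (v w : ℂ) : P.foldv L (v + w) = P.foldv L v + P.foldv L w := by
  induction L with
  | nil => rfl
  | cons i L ih => simp only [foldv, ih, rfv_add]
theorem foldv_sub (L : List ι) (v w : ℂ) : P.foldv L (v - w) = P.foldv L v - P.foldv L w := by
  induction L with
  | nil => rfl
  | cons i L ih => simp only [foldv, ih, rfv_sub]
theorem foldv_neg (L : List ι) (v : ℂ) : P.foldv L (-v) = - P.foldv L v := by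
  induction L with
  | nil => rfl
  | cons i L ih => simp only [foldv, ih, rfv_neg]
theorem foldv_smul (L : List ι) (v : ℂ) (r : ℝ) : P.foldv L ((r : ℂ) * v) = (r : ℂ) * P.foldv L v := by
  induction L with
  | nil => rfl
  | cons i L ih => simp only [foldv, ih, rfv_smul]
theorem norm_foldv (L : List ι) (v : ℂ) : ‖P.foldv L v‖ = ‖v‖ := by
  induction L with
  | nil => rfl
  | cons i L ih => rw [foldv, norm_rfv, ih]
theorem fold_add (L : List ι) (z v : ℂ) : P.fold L (z + v) = P.fold L z + P.foldv L v := by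
  induction L with
  | nil => rfl
  | cons i L ih => simp only [fold, foldv, ih, rf_add]
/-- `fold` along a straight line -/
theorem fold_line (L : List ι) (x v : ℂ) (t s : ℝ) :
    P.fold L (x + ((t + s : ℝ) : ℂ) * v) = P.fold L (x + (t : ℂ) * v) + (s : ℂ) * P.foldv L v := by
  rw [← foldv_smul, ← fold_add]; congr 1; push_cast; ring
theorem fold_append (L M : List ι) (z : ℂ) : P.fold (M ++ L) z = P.fold M (P.fold L z) := by
  induction M with
  | nil => rfl
  | cons i M ih => simp only [List.cons_append, fold, ih]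
theorem foldv_append (L M : List ι) (z : ℂ) : P.foldv (M ++ L) z = P.foldv M (P.foldv L z) := by
  induction M with
  | nil => rfl
  | cons i M ih => simp only [List.cons_append, foldv, ih]
theorem fold_reverse_fold (L : List ι) (z : ℂ) : P.fold L.reverse (P.fold L z) = z := by
  induction L with
  | nil => rfl
  | cons i L ih =>
    rw [List.reverse_cons, fold_append]
    simp only [fold, rf_rf, ih]
theorem foldv_reverse_foldv (L : List ι) (z : ℂ) : P.foldv L.reverse (P.foldv L z) = z := by
  induction L with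
  | nil => rfl
  | cons i L ih =>
    rw [List.reverse_cons, foldv_append]
    simp only [foldv, rfv_rfv, ih]
theorem fold_fold_reverse (L : List ι) (z : ℂ) : P.fold L (P.fold L.reverse z) = z := by
  have := P.fold_reverse_fold L.reverse z
  rwa [List.reverse_reverse] at this
theorem foldv_foldv_reverse (L : List ι) (z : ℂ) : P.foldv L (P.foldv L.reverse z) = z := by
  have := P.foldv_reverse_foldv L.reverse z
  rwa [List.reverse_reverse] at this
theorem fold_injective (L : List ι) : Function.Injective (P.fold L) :=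
  Function.LeftInverse.injective (P.fold_reverse_fold L)
theorem foldv_injective (L : List ι) : Function.Injective (P.foldv L) :=
  Function.LeftInverse.injective (P.foldv_reverse_foldv L)
theorem dist_fold (L : List ι) (z w : ℂ) : ‖P.fold L z - P.fold L w‖ = ‖z - w‖ := by
  have : P.fold L z = P.fold L w + P.foldv L (z - w) := by rw [← fold_add]; congr 1; ring
  rw [this, add_sub_cancel_left, norm_foldv]

/-! ### convexity -/

/-- if `y` is interior and `y + a w` is in the closed polygon, then `y + s w` is interior for `0 ≤ s < a` -/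
theorem mem_dom_of_lt {y w : ℂ} {a s : ℝ} (hy : y ∈ P.dom) (hz : ∀ i, dt (P.n i) (y + (a : ℂ) * w) ≤ P.c i)
    (hs : 0 ≤ s) (hsa : s < a) : y + (s : ℂ) * w ∈ P.dom := by
  intro i
  have h1 := hy i
  have h2 := hz i
  rw [dt_add_right, dt_smul_right] at h2 ⊢
  rcases le_or_gt (dt (P.n i) w) 0 with h | h
  · nlinarith
  · nlinarith

theorem mem_dom_of_le {y w : ℂ} {a s : ℝ} (hy : y ∈ P.dom) (hz : y + (a : ℂ) * w ∈ P.dom)
    (hs : 0 ≤ s) (hsa : s ≤ a) : y + (s : ℂ) * w ∈ P.dom := by
  rcases eq_or_lt_of_le hsa with rfl | h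
  · exact hz
  · exact P.mem_dom_of_lt hy (fun i => (hz i).le) hs h

theorem side_le {i : ι} {z : ℂ} (h : z ∈ P.side i) (j : ι) : dt (P.n j) z ≤ P.c j := by
  by_cases hj : j = i
  · subst hj; exact h.1.le
  · exact (h.2 j hj).le

theorem not_dom_of_line {i : ι} {z : ℂ} (h : z ∈ P.line i) : z ∉ P.dom := by
  intro h2
  have h' : dt (P.n i) z = P.c i := h
  exact absurd (h2 i) (by rw [h']; exact lt_irrefl _)

theorem side_subset_line {i : ι} {z : ℂ} (h : z ∈ P.side i) : z ∈ P.line i := h.1

theorem side_eq {i j : ι} {z : ℂ} (h : z ∈ P.side i) (h' : z ∈ P.line j) : j = i := by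
  by_contra hj
  have h1 := h.2 j hj
  have h2 : dt (P.n j) z = P.c j := h'
  rw [h2] at h1; exact lt_irrefl _ h1

/-- exit times are unique -/
theorem exit_unique {y w : ℂ} {a b : ℝ} {i j : ι} (hy : y ∈ P.dom) (ha : 0 < a) (hb : 0 < b)
    (h1 : y + (a : ℂ) * w ∈ P.side i) (h2 : y + (b : ℂ) * w ∈ P.side j) : a = b ∧ i = j := by
  have hab : a = b := by
    rcases lt_trichotomy a b with h | h | h
    · exact absurd (P.mem_dom_of_lt hy (P.side_le h2) ha.le h) (P.not_dom_of_line h1.1)
    · exact h
    · exact absurd (P.mem_dom_of_lt hy (P.side_le h1) hb.le h) (P.not_dom_of_line h2.1)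
  subst hab
  exact ⟨rfl, (P.side_eq h2 h1.1)⟩

/-! ### first properties of billiard paths -/

theorem Fl.nonneg {x v : ℂ} {t : ℝ} {L : List ι} (h : P.Fl x v t L) : 0 ≤ t := by
  induction h with
  | stay h _ => exact h
  | bounce _ hs hr ht _ _ ih => linarith

theorem Fl.mem {x v : ℂ} {t : ℝ} {L : List ι} (h : P.Fl x v t L) : P.fold L (x + (t : ℂ) * v) ∈ P.dom := by
  cases h with
  | stay _ h => exact h
  | bounce _ _ _ _ _ h => exact h

/-- a path may be prolonged as long as it stays in the interior -/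
theorem Fl.extend {x v : ℂ} {t t' : ℝ} {L : List ι} (h : P.Fl x v t L) (ht : t ≤ t')
    (h' : P.fold L (x + (t' : ℂ) * v) ∈ P.dom) : P.Fl x v t' L := by
  cases h with
  | stay h1 _ => exact Fl.stay (h1.trans ht) h'
  | @bounce t0 _ s r i L hF hs hr he hz _ =>
    exact Fl.bounce (s := s) (r := r + (t' - t)) hF hs (by linarith) (by linarith) hz h'

theorem Fl.zero {x v : ℂ} (hx : x ∈ P.dom) : P.Fl x v 0 [] := Fl.stay le_rfl (by simpa using hx)

/-- concatenation -/
theorem Fl.trans {x v : ℂ} {t s : ℝ} {L M : List ι} (h : P.Fl x v t L)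
    (h' : P.Fl (P.fold L (x + (t : ℂ) * v)) (P.foldv L v) s M) : P.Fl x v (t + s) (M ++ L) := by
  induction h' with
  | @stay s hs hd =>
    rw [← fold_line] at hd
    exact h.extend P (by linarith) hd
  | @bounce s1 s2 a b i M hF ha hb he hz hd ih =>
    have e1 : ∀ r : ℝ, P.fold (M ++ L) (x + ((t + r : ℝ) : ℂ) * v)
        = P.fold M (P.fold L (x + (t : ℂ) * v) + (r : ℂ) * P.foldv L v) := by
      intro r; rw [fold_append, fold_line]
    rw [List.cons_append]
    refine Fl.bounce (s := a) (r := b) ih ha hb (by linarith) ?_ ?_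
    · rw [show t + s1 + a = t + (s1 + a) by ring, e1 (s1 + a)]; exact hz
    · rw [fold, e1 s2]; exact hd

/-- the reversed path -/
theorem Fl.reverse {x v : ℂ} {t : ℝ} {L : List ι} (hx : x ∈ P.dom) (h : P.Fl x v t L) :
    P.Fl (P.fold L (x + (t : ℂ) * v)) (- P.foldv L v) t L.reverse := by
  induction h with
  | @stay t h1 h2 =>
    refine Fl.stay h1 ?_
    have : P.fold [] (x + (t : ℂ) * v) + (t : ℂ) * -P.foldv [] v = x := by simp [fold, foldv]
    rw [this]; exact hx
  | @bounce t t' s r i L hF hs hr ht hz hd ih =>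
    set w := P.foldv L v with hw
    set z := P.fold L (x + ((t + s : ℝ) : ℂ) * v) with hzd
    have hzy : z = P.fold L (x + (t : ℂ) * v) + (s : ℂ) * w := P.fold_line L x v t s
    have hrz : P.rf i z = z := P.rf_of_line hz.1
    have e1 : P.fold (i :: L) (x + (t' : ℂ) * v) = z + (r : ℂ) * P.rfv i w := by
      rw [fold, show t' = (t + s) + r by linarith, fold_line, rf_add, rfv_smul, ← hzd, hrz]
    have e2 : P.foldv (i :: L) v = P.rfv i w := rfl
    have h1 : P.Fl (P.fold (i :: L) (x + (t' : ℂ) * v)) (-P.foldv (i :: L) v) (0 + r + s) [i] := by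
      refine Fl.bounce (s := r) (r := s) (Fl.zero P ?_) hr hs rfl ?_ ?_
      · rw [e1]; rw [e1] at hd; exact hd
      · rw [e1, e2]
        have : P.fold [] (z + (r : ℂ) * P.rfv i w + ((0 + r : ℝ) : ℂ) * -P.rfv i w) = z := by
          simp [fold]
        rw [this]; exact hz
      · rw [e1, e2]
        have : P.fold [i] (z + (r : ℂ) * P.rfv i w + ((0 + r + s : ℝ) : ℂ) * -P.rfv i w)
            = P.fold L (x + (t : ℂ) * v) := by
          have : z + (r : ℂ) * P.rfv i w + ((0 + r + s : ℝ) : ℂ) * -P.rfv i w = z + P.rfv i (((-s : ℝ) : ℂ) * w) := by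
            rw [rfv_smul]; push_cast; ring
          rw [fold, fold, this, rf_add, hrz, rfv_rfv, hzy]; push_cast; ring
        rw [this]; exact hF.mem P
    have e3 : P.fold [i] (P.fold (i :: L) (x + (t' : ℂ) * v) + ((0 + r + s : ℝ) : ℂ) * -P.foldv (i :: L) v)
        = P.fold L (x + (t : ℂ) * v) := by
      rw [e1, e2]
      have : z + (r : ℂ) * P.rfv i w + ((0 + r + s : ℝ) : ℂ) * -P.rfv i w = z + P.rfv i (((-s : ℝ) : ℂ) * w) := by
        rw [rfv_smul]; push_cast; ring
      rw [fold, fold, this, rf_add, hrz, rfv_rfv, hzy]; push_cast; ring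
    have e4 : P.foldv [i] (-P.foldv (i :: L) v) = - w := by
      rw [e2]; simp only [foldv, rfv_neg, rfv_rfv]
    have h2 := Fl.trans P h1 (s := t) (M := L.reverse) (by rw [e3, e4]; exact ih)
    rw [List.reverse_cons]
    rwa [show 0 + r + s + t = t' by linarith] at h2

end Poly

end Pool.Bil
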