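import Pool.Agent.Lib.MP_0fc3df_an.Basic

/-!
# BIL-Circ: the circle of directions

`dir θ = e^{iθ}`.  For a unit vector `n`: `v - 2 (n·v) n = - n² conj v`, hence the reflection in the line `i` acts on directions
by `θ ↦ ang i - θ`, where `dir (ang i) = - (n i)²`.
-/

set_option autoImplicit false

namespace Pool.Bil

open MeasureTheory Set Filter Topology Complex
open scoped ENNReal

theorem continuous_dir : Continuous dir :=
  continuous_subtype_val.comp AddCircle.continuous_toCircle
theorem norm_dir (θ : Dir) : ‖dir θ‖ = 1 := Circle.norm_coe _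
theorem dir_add (θ η : Dir) : dir (θ + η) = dir θ * dir η := by
  unfold dir; rw [AddCircle.toCircle_add]; rfl
theorem dir_neg (θ : Dir) : dir (-θ) = (starRingEnd ℂ) (dir θ) := by
  unfold dir; rw [AddCircle.toCircle_neg, Circle.coe_inv_eq_conj]
theorem dir_injective : Function.Injective dir := by
  intro a b h
  exact AddCircle.injective_toCircle (Real.two_pi_pos.ne') (Circle.coe_injective h)
theorem dir_coe (a : ℝ) : dir (a : Dir) = Complex.exp (a * Complex.I) := by
  unfold dir
  rw [AddCircle.toCircle_apply_mk, Circle.coe_exp, div_self Real.two_pi_pos.ne', one_mul]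
theorem dir_add_pi (θ : Dir) : dir (θ + (Real.pi : ℝ)) = - dir θ := by
  rw [dir_add, dir_coe, Complex.exp_pi_mul_I]; ring
theorem exists_dir {v : ℂ} (hv : ‖v‖ = 1) : ∃ θ : Dir, dir θ = v := by
  refine ⟨((Complex.arg v : ℝ) : Dir), ?_⟩
  rw [dir_coe]
  have := Complex.norm_mul_exp_arg_mul_I v
  rw [hv] at this
  simpa using this

namespace Poly

variable {ι : Type} (P : Poly ι)

theorem rfv_eq (i : ι) (v : ℂ) : P.rfv i v = - (P.n i) ^ 2 * (starRingEnd ℂ) v := by
  have h := P.unit i
  simp only [dt] at h
  unfold rfv dt
  apply Complex.ext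
  · simp [pow_two]
    linear_combination (-v.re) * h
  · simp [pow_two]
    linear_combination (-v.im) * h

theorem exists_ang (i : ι) : ∃ ψ : Dir, dir ψ = - (P.n i) ^ 2 := by
  apply exists_dir
  rw [norm_neg, norm_pow, P.norm_n, one_pow]

/-- the reflection in the line `i` acts on directions by `θ ↦ ang i - θ` -/
noncomputable def ang (i : ι) : Dir := (P.exists_ang i).choose

theorem dir_ang (i : ι) (θ : Dir) : dir (P.ang i - θ) = P.rfv i (dir θ) := by
  rw [sub_eq_add_neg, dir_add, dir_neg, P.rfv_eq, ang, (P.exists_ang i).choose_spec]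

/-- the action of an itinerary on directions -/
noncomputable def foldth : List ι → Dir → Dir
  | [], θ => θ
  | i :: L, θ => P.ang i - foldth L θ

theorem dir_foldth (L : List ι) (θ : Dir) : dir (P.foldth L θ) = P.foldv L (dir θ) := by
  induction L with
  | nil => rfl
  | cons i L ih => rw [foldth, dir_ang, foldv, ih]

/-- `foldth L (θ + η) = foldth L θ ± η` -/
theorem foldth_add (L : List ι) (θ η : Dir) :
    P.foldth L (θ + η) = P.foldth L θ + η ∨ P.foldth L (θ + η) = P.foldth L θ + (-η) := by
  induction L with
  | nil => exact Or.inl rfl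
  | cons i L ih =>
    rcases ih with h | h
    · right; rw [foldth, foldth, h]; abel
    · left; rw [foldth, foldth, h]; abel

theorem continuous_foldth (L : List ι) : Continuous (P.foldth L) := by
  induction L with
  | nil => exact continuous_id
  | cons i L ih => exact continuous_const.sub ih

theorem foldth_injective (L : List ι) : Function.Injective (P.foldth L) := by
  induction L with
  | nil => exact fun _ _ h => h
  | cons i L ih =>
    intro a b h
    exact ih (sub_right_injective h)

end Poly

end Pool.Bil
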