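import Mathlib

/-!
# BIL-Defs: billiards in a convex polygon of the plane (MP_0fc3df_an)

`P.dom` is the open polygon, `P.side i` its open sides.  `P.Fl x v t L`: the billiard path that starts at `x` with
velocity `v` meets, in the time interval `(0,t)`, exactly the open sides of the list `L` (last one first), meets no vertex, and
is in the open polygon at time `t`, namely at `P.fold L (x + t v)` with velocity `P.foldv L v` (unfolding).
-/

set_option autoImplicit false

namespace Pool.Bil

open MeasureTheory Set Filter Topology Complex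
open scoped ENNReal

/-- scalar product of the plane -/
def dt (a b : ℂ) : ℝ := a.re * b.re + a.im * b.im

/-- a convex polygon: unit normals `n i` and constants `c i` -/
structure Poly (ι : Type) where
  n : ι → ℂ
  c : ι → ℝ
  unit : ∀ i, dt (n i) (n i) = 1

namespace Poly

variable {ι : Type} (P : Poly ι)

/-- the open polygon -/
def dom : Set ℂ := {z | ∀ i, dt (P.n i) z < P.c i}

/-- the line of side `i` -/
def line (i : ι) : Set ℂ := {z | dt (P.n i) z = P.c i}

/-- the open side `i` -/
def side (i : ι) : Set ℂ := {z | dt (P.n i) z = P.c i ∧ ∀ j, j ≠ i → dt (P.n j) z < P.c j}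

/-- the intersection points of two different lines -/
def corner : Set ℂ := {z | ∃ i j, i ≠ j ∧ z ∈ P.line i ∧ z ∈ P.line j}

/-- the linear part of the reflection in the line `i` -/
def rfv (i : ι) (v : ℂ) : ℂ := v - ((2 * dt (P.n i) v : ℝ) : ℂ) * P.n i

/-- the reflection in the line `i` -/
def rf (i : ι) (z : ℂ) : ℂ := z - ((2 * (dt (P.n i) z - P.c i) : ℝ) : ℂ) * P.n i

/-- folding along an itinerary (last side first) -/
def fold : List ι → ℂ → ℂ
  | [], z => z
  | i :: L, z => P.rf i (fold L z)

/-- the linear part of `fold` -/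
def foldv : List ι → ℂ → ℂ
  | [], v => v
  | i :: L, v => P.rfv i (foldv L v)

/-- billiard paths, see the head of the file -/
inductive Fl (x v : ℂ) : ℝ → List ι → Prop
  | stay {t : ℝ} : 0 ≤ t → x + (t : ℂ) * v ∈ P.dom → Fl x v t []
  | bounce {t t' s r : ℝ} {i : ι} {L : List ι} : Fl x v t L → 0 < s → 0 < r → t' = t + s + r →
      P.fold L (x + ((t + s : ℝ) : ℂ) * v) ∈ P.side i → P.fold (i :: L) (x + (t' : ℂ) * v) ∈ P.dom →
      Fl x v t' (i :: L)

end Poly

/-- directions: the circle `ℝ / 2πℤ` -/
abbrev Dir : Type := AddCircle (2 * Real.pi)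

instance : Fact ((0 : ℝ) < 2 * Real.pi) := ⟨Real.two_pi_pos⟩

/-- the unit vector with direction `θ` -/
noncomputable def dir (θ : Dir) : ℂ := (AddCircle.toCircle θ : ℂ)

end Pool.Bil
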