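import Pool.Agent.Lib.MP_0fc3df_an.Basic

/-! # BIL-Det: the itinerary is determined by the starting point, the velocity and the time -/

set_option autoImplicit false

namespace Pool.Bil

open MeasureTheory Set Filter Topology Complex
open scoped ENNReal

namespace Poly

variable {ι : Type} (P : Poly ι)

/-- two exits of the same leg coincide -/
theorem exit_line {L : List ι} {x v : ℂ} {t s t2 s2 : ℝ} {i j : ι}
    (hy : P.fold L (x + (t : ℂ) * v) ∈ P.dom) (hs : 0 < s) (hs2 : t < t2 + s2)
    (h1 : P.fold L (x + ((t + s : ℝ) : ℂ) * v) ∈ P.side i)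
    (h2 : P.fold L (x + ((t2 + s2 : ℝ) : ℂ) * v) ∈ P.side j) : t + s = t2 + s2 ∧ i = j := by
  rw [fold_line] at h1
  rw [show t2 + s2 = t + (t2 + s2 - t) by ring, fold_line] at h2
  have := P.exit_unique hy hs (by linarith : 0 < t2 + s2 - t) h1 h2
  exact ⟨by linarith [this.1], this.2⟩

/-- a leg which is interior at two times is interior in between -/
theorem leg_dom {L : List ι} {x v : ℂ} {t s t' : ℝ} (hy : P.fold L (x + (t : ℂ) * v) ∈ P.dom)
    (hy' : P.fold L (x + (t' : ℂ) * v) ∈ P.dom) (h1 : t ≤ s) (h2 : s ≤ t') :
    P.fold L (x + (s : ℂ) * v) ∈ P.dom := by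
  have e : ∀ r : ℝ, P.fold L (x + (r : ℂ) * v) = P.fold L (x + (t : ℂ) * v) + ((r - t : ℝ) : ℂ) * P.foldv L v := by
    intro r; rw [← fold_line]; congr 3; push_cast; ring
  rw [e] at hy' ⊢
  exact P.mem_dom_of_le hy hy' (by linarith) (by linarith)

theorem suffix_aux (n : ℕ) : ∀ (x v : ℂ) (t t' : ℝ) (L L' : List ι), x ∈ P.dom → L.length + L'.length = n → P.Fl x v t L →
    P.Fl x v t' L' → t ≤ t' → L <:+ L' := by
  induction n using Nat.strong_induction_on with
  | _ n ih =>
    intro x v t1 t' L L' hx hn h h' htt
    cases h with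
    | stay _ _ => exact List.nil_suffix
    | @bounce t _ s r i L hF hs hr ht hz hd =>
      cases h' with
      | stay h0 hd' =>
        exfalso
        have hl : L <:+ ([] : List ι) := ih _ (by rw [← hn]; simp) x v t t' L [] hx rfl hF (Fl.stay h0 hd') (by linarith)
        have hL : L = [] := List.suffix_nil.1 hl
        subst hL
        refine P.not_dom_of_line hz.1 ?_
        exact P.leg_dom (L := []) (t := t) (t' := t') (hF.mem P) hd' (by linarith) (by linarith)
      | @bounce t2 _ s2 r2 j L2 hF2 hs2 hr2 ht2 hz2 hd2 =>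
        have hF1' : P.Fl x v t1 (i :: L) := Fl.bounce hF hs hr ht hz hd
        have hF2' : P.Fl x v t' (j :: L2) := Fl.bounce hF2 hs2 hr2 ht2 hz2 hd2
        simp only [List.length_cons] at hn
        rcases le_or_gt t1 t2 with h1 | h1
        · exact (ih _ (by rw [← hn]; simp only [List.length_cons]; omega) x v t1 t2 (i :: L) L2 hx rfl hF1' hF2 h1).trans
            (List.suffix_cons _ _)
        · rcases le_or_gt t t2 with h2 | h2
          · have a1 : L <:+ L2 := ih _ (by rw [← hn]; omega) x v t t2 L L2 hx rfl hF hF2 h2
            have a2 : L2 <:+ i :: L := ih _ (by rw [← hn]; simp only [List.length_cons]; omega) x v t2 t1 L2 (i :: L) hx rfl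
              hF2 hF1' h1.le
            rcases List.suffix_cons_iff.1 a2 with rfl | a2
            · exact List.suffix_cons _ _
            · obtain rfl : L = L2 := by
                exact List.IsSuffix.eq_of_length a1 (le_antisymm a1.length_le a2.length_le)
              have := P.exit_line (L := L) (hF.mem P) hs (by linarith) hz hz2
              rw [this.2]
          · have a1 : L2 <:+ L := ih _ (by rw [← hn]; omega) x v t2 t L2 L hx rfl hF2 hF h2.le
            have a2 : L <:+ j :: L2 := ih _ (by rw [← hn]; simp only [List.length_cons]; omega) x v t t' L (j :: L2) hx rfl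
              hF hF2' (by linarith)
            rcases List.suffix_cons_iff.1 a2 with rfl | a2
            · exfalso
              refine P.not_dom_of_line hz.1 ?_
              exact P.leg_dom (L := j :: L2) (t := t) (t' := t') (hF.mem P) hd2 (by linarith) (by linarith)
            · obtain rfl : L = L2 := by
                exact List.IsSuffix.eq_of_length a2 (le_antisymm a2.length_le a1.length_le)
              have := P.exit_line (L := L) (hF2.mem P) hs2 (by linarith) hz2 hz
              rw [this.2]

/-- later itineraries prolong earlier ones -/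
theorem Fl.suffix {x v : ℂ} {t t' : ℝ} {L L' : List ι} (hx : x ∈ P.dom) (h : P.Fl x v t L) (h' : P.Fl x v t' L')
    (htt : t ≤ t') : L <:+ L' := P.suffix_aux _ x v t t' L L' hx rfl h h' htt

/-- the itinerary is unique -/
theorem Fl.unique {x v : ℂ} {t : ℝ} {L L' : List ι} (hx : x ∈ P.dom) (h : P.Fl x v t L) (h' : P.Fl x v t L') : L = L' := by
  have a := Fl.suffix P hx h h' le_rfl
  have b := Fl.suffix P hx h' h le_rfl
  exact List.IsSuffix.eq_of_length a (le_antisymm a.length_le b.length_le)

/-- the flow is injective -/
theorem Fl.injective {x v x' v' : ℂ} {t : ℝ} {L L' : List ι} (hx : x ∈ P.dom) (hx' : x' ∈ P.dom) (h : P.Fl x v t L)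
    (h' : P.Fl x' v' t L') (e1 : P.fold L (x + (t : ℂ) * v) = P.fold L' (x' + (t : ℂ) * v'))
    (e2 : P.foldv L v = P.foldv L' v') : L = L' ∧ x = x' ∧ v = v' := by
  have a := h.reverse P hx
  have b := h'.reverse P hx'
  rw [← e1, ← e2] at b
  have c := Fl.unique P (h.mem P) a b
  have hL : L = L' := List.reverse_injective c
  subst hL
  have hv : v = v' := P.foldv_injective L e2
  subst hv
  have := P.fold_injective L e1
  exact ⟨rfl, by simpa using this, rfl⟩

end Poly

end Pool.Bil
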