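import Pool.Agent.Lib.MP_0fc3df_an.Ext
import Pool.Agent.Lib.MP_0fc3df_an.Circ

/-!
# BIL-Dirs: in all but countably many directions every point has an infinite forward or an infinite backward path

If neither the path of `(x, v)` nor that of `(x, -v)` can be continued beyond `t` then (`extend_or_corner`) `x + s v = A` and
`x - s' v = B` with `s, s' > 0` and `A, B ∈ vert` (`fold L z ∈ corner` gives `z ∈ fold L.reverse '' corner`), so
`A - B = (s + s') v`, `‖A - B‖ = s + s'`.
Countability: for fixed `A ≠ B` the vector `dir θ` is determined, `dir` is injective.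
-/

set_option autoImplicit false

namespace Pool.Bil

open MeasureTheory Set Filter Topology Complex
open scoped ENNReal

namespace Poly

variable {ι : Type} [Finite ι] (P : Poly ι)

/-- all unfolded corners -/
def vert : Set ℂ := ⋃ L : List ι, P.fold L '' P.corner

/-- the directions of the generalised diagonals -/
def badDir : Set Dir := {θ | ∃ A ∈ P.vert, ∃ B ∈ P.vert, A ≠ B ∧ (‖A - B‖ : ℂ) * dir θ = A - B}

private theorem vert_countable (h : P.corner.Countable) : P.vert.Countable := by
  have : Countable ι := Finite.to_countable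
  exact countable_iUnion fun L => h.image _

theorem badDir_countable (h : P.corner.Countable) : P.badDir.Countable := by
  have hv := vert_countable P h
  have hsub : P.badDir ⊆ ⋃ A ∈ P.vert, ⋃ B ∈ P.vert,
      {θ | A ≠ B ∧ (‖A - B‖ : ℂ) * dir θ = A - B} := by
    rintro θ ⟨A, hA, B, hB, h1, h2⟩
    simp only [mem_iUnion]
    exact ⟨A, hA, B, hB, h1, h2⟩
  refine Countable.mono hsub (hv.biUnion fun A _ => hv.biUnion fun B _ => ?_)
  apply Set.Subsingleton.countable
  rintro θ ⟨h1, h2⟩ η ⟨-, h3⟩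
  have h4 : (‖A - B‖ : ℂ) ≠ 0 := by
    rw [Ne, Complex.ofReal_eq_zero, norm_eq_zero, sub_eq_zero]
    exact h1
  exact dir_injective (mul_left_cancel₀ h4 (h2.trans h3.symm))

omit [Finite ι] in
private theorem mem_vert {z : ℂ} {L : List ι} (h : P.fold L z ∈ P.corner) : z ∈ P.vert :=
  mem_iUnion.2 ⟨L.reverse, P.fold L z, h, P.fold_reverse_fold L z⟩

theorem alive_or {x : ℂ} {θ : Dir} (hx : x ∈ P.dom) (hθ : θ ∉ P.badDir) {t : ℝ} (ht : 0 ≤ t) :
    (∃ T, t < T ∧ ∃ L, P.Fl x (dir θ) T L) ∨ (∃ T, t < T ∧ ∃ L, P.Fl x (-dir θ) T L) := by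
  rcases P.extend_or_corner (v := dir θ) hx ht with h1 | ⟨s, hs, -, L, hL⟩
  · exact Or.inl h1
  rcases P.extend_or_corner (v := -dir θ) hx ht with h2 | ⟨s', hs', -, L', hL'⟩
  · exact Or.inr h2
  exfalso
  apply hθ
  have hd : x + (s : ℂ) * dir θ - (x + (s' : ℂ) * -dir θ) = ((s + s' : ℝ) : ℂ) * dir θ := by
    push_cast
    ring
  have hn : ‖x + (s : ℂ) * dir θ - (x + (s' : ℂ) * -dir θ)‖ = s + s' := by
    rw [hd, norm_mul, norm_dir, mul_one, Complex.norm_real, Real.norm_eq_abs, abs_of_pos (by linarith)]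
  refine ⟨_, mem_vert P hL, _, mem_vert P hL', ?_, ?_⟩
  · intro he
    rw [he, sub_self, norm_zero] at hn
    linarith
  · rw [hn, hd]

end Poly

end Pool.Bil
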