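import Pool.Agent.Lib.MP_0fc3df_an.Det

/-!
# BIL-Ext: a path can be continued until it meets a corner

Proof of `extend_or_corner`.  Let `A = {T | 0 ≤ T, ∃ L, Fl x v T L} ∋ 0` and suppose that no element of `A` is `> t`; `τ = sup A ≤ t`.
(a) `Fl.lip`: for `T ≤ T'` in `A` with itineraries `L`, `L'` the positions differ by at most `(T' - T) ‖v‖` (Lean: induction over the
path `Fl x v T' L'`, using `Fl.suffix`; a bounce point on `line i` is fixed by `rf i`). Also: if `i` occurs in `M`, `L' = M ++ L`, then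
there are `T < b < T'` and a point `z ∈ side i` with `‖z - position(T)‖ ≤ (b - T) ‖v‖` (`Fl.bounce_point`).
(b) `τ ∉ A`: otherwise `Fl.extend` and openness of `dom` give an element of `A` larger than `τ`.
(c) choose `u n ∈ A`, `u n → τ` (`exists_seq_tendsto_sSup`), positions `X n`: Cauchy by (a), limit `p`; `n i · p ≤ c i` for all `i`.
    There is `ε > 0` with `ε < |n i · p - c i|` for all `i` with `p ∉ line i` (finitely many sides).  Take `n₀` large such that
    `(τ - u n₀) ‖v‖ + ‖X n₀ - p‖ < ε`; `T₀ = u n₀`, `L₀` its itinerary.  For `n` with `u n ≥ T₀` the itinerary is `M ++ L₀`; every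
    `i ∈ M` satisfies `p ∈ line i` by `Fl.bounce_point`; so `fold M p = p` and
    `‖X n - p‖ = ‖fold M (fold L₀ (x + u n v)) - fold M p‖ = ‖fold L₀ (x + u n v) - p‖`; `n → ∞`: `fold L₀ (x + τ v) = p`.
(d) `p ∈ dom` is impossible (`Fl.extend` gives `τ ∈ A`).  So `p ∈ line i` for some `i`.  If `p ∈ side i` then
    (`exists_bounce`) `Fl x v (τ + r) (i :: L₀)` for some `r > 0`, contradiction.  So `p ∈ line i ∩ line j`, `i ≠ j`.
-/

set_option autoImplicit false

namespace Pool.Bil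

open MeasureTheory Set Filter Topology Complex
open scoped ENNReal

namespace Poly

variable {ι : Type} [Finite ι] (P : Poly ι)

private theorem dt_pos {x v : ℂ} {t s : ℝ} {L : List ι} {i : ι} (h : P.Fl x v t L) (hs : 0 < s)
    (hz : P.fold L (x + ((t + s : ℝ) : ℂ) * v) ∈ P.side i) : 0 < dt (P.n i) (P.foldv L v) := by
  have h1 := hz.1
  rw [fold_line, dt_add_right, dt_smul_right] at h1
  have h2 := (h.mem P) i
  by_contra hcon
  have : s * dt (P.n i) (P.foldv L v) ≤ 0 := mul_nonpos_of_nonneg_of_nonpos hs.le (not_lt.1 hcon)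
  linarith

/-- after a point of an open side the path goes on -/
theorem exists_bounce {x v : ℂ} {t s : ℝ} {L : List ι} {i : ι} (h : P.Fl x v t L) (hs : 0 < s)
    (hz : P.fold L (x + ((t + s : ℝ) : ℂ) * v) ∈ P.side i) : ∃ r, 0 < r ∧ P.Fl x v (t + s + r) (i :: L) := by
  have hw := P.dt_pos h hs hz
  set z := P.fold L (x + ((t + s : ℝ) : ℂ) * v) with hzd
  have e : ∀ r : ℝ, P.fold (i :: L) (x + ((t + s + r : ℝ) : ℂ) * v) = z + (r : ℂ) * P.rfv i (P.foldv L v) := by
    intro r
    rw [fold, fold_line, rf_add, rfv_smul, ← hzd, P.rf_of_line hz.1]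
  have hev : ∀ᶠ r : ℝ in 𝓝[>] 0, z + (r : ℂ) * P.rfv i (P.foldv L v) ∈ P.dom := by
    have : ∀ j, ∀ᶠ r : ℝ in 𝓝[>] 0, dt (P.n j) (z + (r : ℂ) * P.rfv i (P.foldv L v)) < P.c j := by
      intro j
      by_cases hj : j = i
      · subst hj
        filter_upwards [self_mem_nhdsWithin] with r hr
        have hr' : (0 : ℝ) < r := hr
        rw [dt_add_right, dt_smul_right, dt_n_rfv]
        have : dt (P.n j) z = P.c j := hz.1
        nlinarith
      · refine Filter.Eventually.filter_mono nhdsWithin_le_nhds ?_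
        have hc : Continuous fun r : ℝ => dt (P.n j) (z + (r : ℂ) * P.rfv i (P.foldv L v)) :=
          (continuous_dt _).comp (by fun_prop)
        have h0 : dt (P.n j) (z + ((0 : ℝ) : ℂ) * P.rfv i (P.foldv L v)) < P.c j := by
          simpa using hz.2 j hj
        exact hc.continuousAt.eventually (Iio_mem_nhds h0)
    exact (eventually_all.2 this)
  obtain ⟨r, hr, hr0⟩ := (hev.and self_mem_nhdsWithin).exists
  refine ⟨r, hr0, Fl.bounce (s := s) (r := r) h hs hr0 rfl hz ?_⟩
  rw [e r]; exact hr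

private theorem leg_dist (L : List ι) (x v : ℂ) {a b : ℝ} (hab : a ≤ b) :
    ‖P.fold L (x + (b : ℂ) * v) - P.fold L (x + (a : ℂ) * v)‖ = (b - a) * ‖v‖ := by
  rw [dist_fold]
  have : x + (b : ℂ) * v - (x + (a : ℂ) * v) = ((b - a : ℝ) : ℂ) * v := by push_cast; ring
  rw [this, norm_mul, Complex.norm_real, Real.norm_of_nonneg (by linarith)]

/-- the position is Lipschitz -/
theorem Fl.lip {x v : ℂ} {T T' : ℝ} {L L' : List ι} (hx : x ∈ P.dom) (h : P.Fl x v T L) (h' : P.Fl x v T' L')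
    (hT : T ≤ T') : ‖P.fold L' (x + (T' : ℂ) * v) - P.fold L (x + (T : ℂ) * v)‖ ≤ (T' - T) * ‖v‖ := by
  induction h' generalizing T L with
  | @stay T' h1 h2 =>
    have hs := Fl.suffix P hx h (Fl.stay h1 h2) hT
    have : L = [] := List.suffix_nil.1 hs
    subst this
    exact (P.leg_dist [] x v hT).le
  | @bounce t1 T' s r i L1 hF hs hr ht hz hd ih =>
    set z := P.fold L1 (x + ((t1 + s : ℝ) : ℂ) * v) with hzd
    have hrz : P.rf i z = z := P.rf_of_line hz.1
    have e1 : P.fold (i :: L1) (x + ((t1 + s : ℝ) : ℂ) * v) = z := by rw [fold, ← hzd, hrz]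
    have d1 : ‖P.fold (i :: L1) (x + (T' : ℂ) * v) - z‖ = r * ‖v‖ := by
      have := P.leg_dist (i :: L1) x v (a := t1 + s) (b := T') (by linarith)
      rw [e1] at this
      rw [this, ht]; ring
    rcases le_or_gt T t1 with h1 | h1
    · have a1 := ih h h1
      have a2 : ‖z - P.fold L1 (x + (t1 : ℂ) * v)‖ = s * ‖v‖ := by
        rw [hzd, P.leg_dist L1 x v (by linarith)]; ring
      calc ‖P.fold (i :: L1) (x + (T' : ℂ) * v) - P.fold L (x + (T : ℂ) * v)‖
          = ‖(P.fold (i :: L1) (x + (T' : ℂ) * v) - z) + ((z - P.fold L1 (x + (t1 : ℂ) * v))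
              + (P.fold L1 (x + (t1 : ℂ) * v) - P.fold L (x + (T : ℂ) * v)))‖ := by congr 1; ring
        _ ≤ r * ‖v‖ + (s * ‖v‖ + (t1 - T) * ‖v‖) := by
            refine (norm_add_le _ _).trans (add_le_add d1.le ((norm_add_le _ _).trans (add_le_add a2.le a1)))
        _ = (T' - T) * ‖v‖ := by rw [ht]; ring
    · have b1 : L1 <:+ L := Fl.suffix P hx hF h h1.le
      have b2 : L <:+ i :: L1 := Fl.suffix P hx h (Fl.bounce hF hs hr ht hz hd) hT
      rcases List.suffix_cons_iff.1 b2 with rfl | b2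
      · exact (P.leg_dist (i :: L1) x v hT).le
      · obtain rfl : L1 = L := List.IsSuffix.eq_of_length b1 (le_antisymm b1.length_le b2.length_le)
        have hlt : T < t1 + s := by
          by_contra hcon
          exact P.not_dom_of_line hz.1 (P.leg_dom (L := L1) (t := t1) (t' := T) (hF.mem P) (h.mem P) (by linarith)
            (not_lt.1 hcon))
        have a2 : ‖z - P.fold L1 (x + (T : ℂ) * v)‖ = (t1 + s - T) * ‖v‖ := by
          rw [hzd, P.leg_dist L1 x v hlt.le]
        calc ‖P.fold (i :: L1) (x + (T' : ℂ) * v) - P.fold L1 (x + (T : ℂ) * v)‖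
            = ‖(P.fold (i :: L1) (x + (T' : ℂ) * v) - z) + (z - P.fold L1 (x + (T : ℂ) * v))‖ := by congr 1; ring
          _ ≤ r * ‖v‖ + (t1 + s - T) * ‖v‖ := (norm_add_le _ _).trans (add_le_add d1.le a2.le)
          _ = (T' - T) * ‖v‖ := by rw [ht]; ring

/-- the sides of the itinerary between `T` and `T'` are met -/
theorem Fl.bounce_point {x v : ℂ} {T T' : ℝ} {L M : List ι} (hx : x ∈ P.dom) (h : P.Fl x v T L)
    (h' : P.Fl x v T' (M ++ L)) {i : ι} (hi : i ∈ M) :
    ∃ b, T < b ∧ b < T' ∧ ∃ z ∈ P.side i, ‖z - P.fold L (x + (T : ℂ) * v)‖ ≤ (b - T) * ‖v‖ := by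
  induction M generalizing T' with
  | nil => exact absurd hi (List.not_mem_nil)
  | cons j M ih =>
    rw [List.cons_append] at h'
    cases h' with
    | @bounce t1 _ s r _ _ hF hs hr ht hz hd =>
      have key : t1 < T → M = [] := by
        intro hlt
        have b1 : M ++ L <:+ L := Fl.suffix P hx hF h hlt.le
        have := b1.length_le
        rw [List.length_append] at this
        exact List.eq_nil_of_length_eq_zero (by omega)
      rcases List.mem_cons.1 hi with hij | hi'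
      · subst hij
        rcases le_or_gt T t1 with h1 | h1
        · refine ⟨t1 + s, by linarith, by linarith, _, hz, ?_⟩
          have a1 := Fl.lip P hx h hF h1
          have a2 := P.leg_dist (M ++ L) x v (a := t1) (b := t1 + s) (by linarith)
          calc ‖P.fold (M ++ L) (x + ((t1 + s : ℝ) : ℂ) * v) - P.fold L (x + (T : ℂ) * v)‖
              = ‖(P.fold (M ++ L) (x + ((t1 + s : ℝ) : ℂ) * v) - P.fold (M ++ L) (x + (t1 : ℂ) * v))
                + (P.fold (M ++ L) (x + (t1 : ℂ) * v) - P.fold L (x + (T : ℂ) * v))‖ := by congr 1; ring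
            _ ≤ (t1 + s - t1) * ‖v‖ + (t1 - T) * ‖v‖ := (norm_add_le _ _).trans (add_le_add a2.le a1)
            _ = (t1 + s - T) * ‖v‖ := by ring
        · have hM := key h1
          subst hM
          rw [List.nil_append] at hF hz
          have hlt : T < t1 + s := by
            by_contra hcon
            exact P.not_dom_of_line hz.1 (P.leg_dom (L := L) (t := t1) (t' := T) (hF.mem P) (h.mem P) (by linarith)
              (not_lt.1 hcon))
          exact ⟨t1 + s, hlt, by linarith, _, hz, (P.leg_dist L x v hlt.le).le⟩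
      · have h1 : T ≤ t1 := by
          by_contra hcon
          rw [key (not_le.1 hcon)] at hi'
          exact absurd hi' (List.not_mem_nil)
        obtain ⟨b, hb1, hb2, hb3⟩ := ih hF hi'
        exact ⟨b, hb1, by linarith, hb3⟩

private theorem fold_fix {p : ℂ} {M : List ι} (h : ∀ i ∈ M, p ∈ P.line i) : P.fold M p = p := by
  induction M with
  | nil => rfl
  | cons i M ih =>
    rw [fold, ih (fun j hj => h j (List.mem_cons_of_mem _ hj)), P.rf_of_line (h i (List.mem_cons_self ..))]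

theorem extend_or_corner' {x v : ℂ} (hx : x ∈ P.dom) {t : ℝ} (_ht : 0 ≤ t) :
    (∃ T, t < T ∧ ∃ L, P.Fl x v T L) ∨
      (∃ T s, 0 ≤ T ∧ T < s ∧ s ≤ t ∧ ∃ L, P.Fl x v T L ∧ P.fold L (x + (s : ℂ) * v) ∈ P.corner) := by
  by_cases hA : ∃ T, t < T ∧ ∃ L, P.Fl x v T L
  · exact Or.inl hA
  right
  push Not at hA
  set A : Set ℝ := {T | ∃ L, P.Fl x v T L} with hAd
  have h0A : (0 : ℝ) ∈ A := ⟨[], Fl.zero P hx⟩
  have hle : ∀ T ∈ A, T ≤ t := by
    rintro T ⟨L, hL⟩
    by_contra hcon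
    exact hA T (not_le.1 hcon) L hL
  have hbdd : BddAbove A := ⟨t, hle⟩
  set τ := sSup A with hτ
  have hτt : τ ≤ t := csSup_le ⟨0, h0A⟩ hle
  have hup : ∀ T ∈ A, T ≤ τ := fun T hT => le_csSup hbdd hT
  have hτA : τ ∉ A := by
    rintro ⟨L, hL⟩
    have hc : Continuous fun r : ℝ => P.fold L (x + ((τ + r : ℝ) : ℂ) * v) := (P.continuous_fold L).comp (by fun_prop)
    have h1 : P.fold L (x + ((τ + 0 : ℝ) : ℂ) * v) ∈ P.dom := by rw [add_zero]; exact hL.mem P
    have hev : ∀ᶠ r : ℝ in 𝓝[>] 0, P.fold L (x + ((τ + r : ℝ) : ℂ) * v) ∈ P.dom :=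
      Filter.Eventually.filter_mono nhdsWithin_le_nhds (hc.continuousAt.eventually (P.isOpen_dom.mem_nhds h1))
    obtain ⟨r, hr, hr0⟩ := (hev.and self_mem_nhdsWithin).exists
    have hr0' : (0 : ℝ) < r := hr0
    have := hup (τ + r) ⟨L, hL.extend P (by linarith) hr⟩
    linarith
  obtain ⟨u, hum, hut, huA⟩ := exists_seq_tendsto_sSup ⟨0, h0A⟩ hbdd
  choose Lu hLu using huA
  set X : ℕ → ℂ := fun n => P.fold (Lu n) (x + (u n : ℂ) * v) with hX
  have huτ : ∀ n, u n ≤ τ := fun n => hup _ ⟨_, hLu n⟩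
  have hlip : ∀ m n, m ≤ n → ‖X n - X m‖ ≤ (u n - u m) * ‖v‖ := fun m n hmn =>
    Fl.lip P hx (hLu m) (hLu n) (hum hmn)
  have hb0 : Tendsto (fun n => (τ - u n) * ‖v‖) atTop (𝓝 0) := by
    have : Tendsto (fun n => (τ - u n) * ‖v‖) atTop (𝓝 ((τ - τ) * ‖v‖)) := (tendsto_const_nhds.sub hut).mul_const _
    simpa using this
  have hcau : CauchySeq X := by
    refine cauchySeq_of_le_tendsto_0 (fun n => (τ - u n) * ‖v‖) ?_ hb0
    have key : ∀ N m n, N ≤ m → m ≤ n → ‖X n - X m‖ ≤ (τ - u N) * ‖v‖ := by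
      intro N m n h1 h2
      refine (hlip m n h2).trans (mul_le_mul_of_nonneg_right ?_ (norm_nonneg _))
      have := huτ n; have := hum h1; linarith
    intro n m N hn hm
    rcases le_total m n with h | h
    · rw [dist_eq_norm]; exact key N m n hm h
    · rw [dist_comm, dist_eq_norm]; exact key N n m hn h
  obtain ⟨p, hp⟩ := cauchySeq_tendsto_of_complete hcau
  have hple : ∀ i, dt (P.n i) p ≤ P.c i := by
    intro i
    have : Tendsto (fun n => dt (P.n i) (X n)) atTop (𝓝 (dt (P.n i) p)) := ((continuous_dt _).tendsto p).comp hp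
    exact le_of_tendsto this (Eventually.of_forall fun n => ((hLu n).mem P i).le)
  obtain ⟨ε, hε, hε0⟩ : ∃ ε : ℝ, (∀ i, p ∉ P.line i → ε < P.c i - dt (P.n i) p) ∧ 0 < ε := by
    have : ∀ᶠ ε : ℝ in 𝓝[>] 0, ∀ i, p ∉ P.line i → ε < P.c i - dt (P.n i) p := by
      rw [eventually_all]
      intro i
      by_cases hi : p ∈ P.line i
      · exact Eventually.of_forall fun _ h => absurd hi h
      · have h1 : 0 < P.c i - dt (P.n i) p := by
          rcases lt_or_eq_of_le (hple i) with h | h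
          · linarith
          · exact absurd h hi
        filter_upwards [mem_nhdsWithin_of_mem_nhds (Iio_mem_nhds h1)] with ε hε _
        exact hε
    obtain ⟨ε, h1, h2⟩ := (this.and self_mem_nhdsWithin).exists
    exact ⟨ε, h1, h2⟩
  obtain ⟨n0, hn0⟩ : ∃ n0, (τ - u n0) * ‖v‖ + ‖X n0 - p‖ < ε := by
    have h1 : Tendsto (fun n => (τ - u n) * ‖v‖ + ‖X n - p‖) atTop (𝓝 (0 + ‖p - p‖)) :=
      hb0.add ((hp.sub_const p).norm)
    rw [sub_self, norm_zero, add_zero] at h1
    exact (h1.eventually (Iio_mem_nhds hε0)).exists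
  have hkey : ∀ n, n0 ≤ n → ‖X n - p‖ = ‖P.fold (Lu n0) (x + (u n : ℂ) * v) - p‖ := by
    intro n hn
    obtain ⟨M, hM⟩ := Fl.suffix P hx (hLu n0) (hLu n) (hum hn)
    have hfix : ∀ i ∈ M, p ∈ P.line i := by
      intro i hi
      obtain ⟨b, hb1, hb2, z, hz, hzd⟩ := Fl.bounce_point P hx (hLu n0) (by rw [hM]; exact hLu n) hi
      by_contra hpi
      have h1 := hε i hpi
      have h2 : ‖z - X n0‖ ≤ (τ - u n0) * ‖v‖ := hzd.trans (mul_le_mul_of_nonneg_right
        (by have := huτ n; linarith) (norm_nonneg _))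
      have h3 : ‖z - p‖ < ε := by
        calc ‖z - p‖ = ‖(z - X n0) + (X n0 - p)‖ := by congr 1; ring
          _ ≤ (τ - u n0) * ‖v‖ + ‖X n0 - p‖ := (norm_add_le _ _).trans (add_le_add h2 le_rfl)
          _ < ε := hn0
      have h4 : dt (P.n i) (z - p) ≤ ‖z - p‖ := by
        have := dt_le (P.n i) (z - p); rwa [P.norm_n, one_mul] at this
      rw [dt_sub_right, hz.1] at h4
      linarith
    have e1 : X n = P.fold M (P.fold (Lu n0) (x + (u n : ℂ) * v)) := by
      rw [← fold_append, hM]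
    rw [e1]
    conv_lhs => rw [← P.fold_fix hfix]
    exact P.dist_fold M _ _
  have hp2 : P.fold (Lu n0) (x + (τ : ℂ) * v) = p := by
    have h1 : Tendsto (fun n => ‖X n - p‖) atTop (𝓝 0) := by
      have := (hp.sub_const p).norm
      rwa [sub_self, norm_zero] at this
    have hc : Continuous fun r : ℝ => ‖P.fold (Lu n0) (x + (r : ℂ) * v) - p‖ :=
      (((P.continuous_fold (Lu n0)).comp (by fun_prop)).sub continuous_const).norm
    have h2 : Tendsto (fun n => ‖P.fold (Lu n0) (x + (u n : ℂ) * v) - p‖) atTop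
        (𝓝 ‖P.fold (Lu n0) (x + (τ : ℂ) * v) - p‖) := (hc.tendsto τ).comp hut
    have h3 : Tendsto (fun n => ‖X n - p‖) atTop (𝓝 ‖P.fold (Lu n0) (x + (τ : ℂ) * v) - p‖) := by
      refine h2.congr' ?_
      filter_upwards [eventually_ge_atTop n0] with n hn
      exact (hkey n hn).symm
    have := tendsto_nhds_unique h1 h3
    exact sub_eq_zero.1 (norm_eq_zero.1 this.symm)
  have hT0 : u n0 < τ := lt_of_le_of_ne (huτ n0) (fun h => hτA (h ▸ ⟨_, hLu n0⟩))
  have hpd : p ∉ P.dom := fun hpd => hτA ⟨Lu n0, (hLu n0).extend P hT0.le (by rw [hp2]; exact hpd)⟩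
  obtain ⟨i, hi⟩ : ∃ i, ¬ dt (P.n i) p < P.c i := by
    by_contra hcon; push Not at hcon; exact hpd hcon
  have hi' : dt (P.n i) p = P.c i := le_antisymm (hple i) (not_lt.1 hi)
  refine ⟨u n0, τ, (hLu n0).nonneg P, hT0, hτt, Lu n0, hLu n0, ?_⟩
  rw [hp2]
  by_contra hcon
  have hside : p ∈ P.side i := by
    refine ⟨hi', fun j hj => lt_of_le_of_ne (hple j) fun h => hcon ⟨i, j, fun e => hj e.symm, hi', h⟩⟩
  obtain ⟨r, hr, hr2⟩ := P.exists_bounce (hLu n0) (s := τ - u n0) (by linarith) (i := i)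
    (by rw [show u n0 + (τ - u n0) = τ by ring, hp2]; exact hside)
  have := hup _ ⟨_, hr2⟩
  linarith

theorem extend_or_corner {x v : ℂ} (hx : x ∈ P.dom) {t : ℝ} (ht : 0 ≤ t) :
    (∃ T, t < T ∧ ∃ L, P.Fl x v T L) ∨ (∃ s, 0 < s ∧ s ≤ t ∧ ∃ L, P.fold L (x + (s : ℂ) * v) ∈ P.corner) := by
  rcases P.extend_or_corner' hx ht (v := v) with h | ⟨T, s, h1, h2, h3, L, _, h4⟩
  · exact Or.inl h
  · exact Or.inr ⟨s, by linarith, h3, L, h4⟩

end Poly

end Pool.Bil
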