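import Pool.Agent.Lib.MP_0fc3df_an.Defs

/-!
# BIL-FibA: a locally a.e. constant function on a connected open set is a.e. constant

`U_c = {x ∈ U | ∃ ρ > 0, F = c a.e. on ball x ρ}`, `c ∈ ℝ`: open, disjoint for different `c` (a nonempty open intersection of two balls has
positive measure), they cover `U`; `U` preconnected, so `U = U_{c₀}` (use `U_{c₀}` and `⋃ c ≠ c₀, U_c`); then `F = c₀` a.e. on `U`
(locally null sets are null: `measure_null_of_locally_null`). `U = ∅` is trivial.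
-/

set_option autoImplicit false

namespace Pool.Bil

open MeasureTheory Set Filter Topology Complex
open scoped ENNReal

private theorem fiba_open (F : ℂ → ℝ) (c : ℝ) :
    IsOpen {x : ℂ | ∃ ρ > 0, ∀ᵐ y : ℂ, y ∈ Metric.ball x ρ → F y = c} := by
  rw [Metric.isOpen_iff]
  rintro x ⟨ρ, hρ, hx⟩
  refine ⟨ρ, hρ, fun z hz => ⟨ρ - dist z x, sub_pos.2 hz, ?_⟩⟩
  filter_upwards [hx] with y hy hyz
  apply hy
  rw [Metric.mem_ball] at hyz ⊢
  linarith [dist_triangle y z x]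

private theorem fiba_eq (F : ℂ → ℝ) {c c' : ℝ} {x : ℂ}
    (h : ∃ ρ > 0, ∀ᵐ y : ℂ, y ∈ Metric.ball x ρ → F y = c)
    (h' : ∃ ρ > 0, ∀ᵐ y : ℂ, y ∈ Metric.ball x ρ → F y = c') : c = c' := by
  obtain ⟨ρ, hρ, h1⟩ := h
  obtain ⟨ρ', hρ', h2⟩ := h'
  by_contra hne
  have h3 : ∀ᵐ y : ℂ, y ∉ Metric.ball x (min ρ ρ') := by
    filter_upwards [h1, h2] with y hy1 hy2 hy
    apply hne
    rw [← hy1 (Metric.ball_subset_ball (min_le_left _ _) hy),
      hy2 (Metric.ball_subset_ball (min_le_right _ _) hy)]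
  have h4 : volume (Metric.ball x (min ρ ρ')) = 0 := by
    refine measure_mono_null (fun y hy => ?_) (ae_iff.1 h3)
    exact fun h5 => h5 hy
  exact (Metric.measure_ball_pos volume x (lt_min hρ hρ')).ne' h4

theorem loc_const {U : Set ℂ} (hU : IsOpen U) (hc : IsPreconnected U) {F : ℂ → ℝ}
    (h : ∀ x ∈ U, ∃ ρ > 0, ∃ c : ℝ, ∀ᵐ y : ℂ, y ∈ Metric.ball x ρ → F y = c) :
    ∃ c : ℝ, ∀ᵐ y : ℂ, y ∈ U → F y = c := by
  rcases U.eq_empty_or_nonempty with rfl | ⟨x0, hx0⟩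
  · exact ⟨0, Filter.Eventually.of_forall fun y hy => absurd hy (Set.notMem_empty y)⟩
  obtain ⟨ρ0, hρ0, c0, h0⟩ := h x0 hx0
  refine ⟨c0, ?_⟩
  have hsub : U ⊆ {x : ℂ | ∃ ρ > 0, ∀ᵐ y : ℂ, y ∈ Metric.ball x ρ → F y = c0} := by
    refine hc.subset_left_of_subset_union
      (v := ⋃ c : {c : ℝ // c ≠ c0}, {x : ℂ | ∃ ρ > 0, ∀ᵐ y : ℂ, y ∈ Metric.ball x ρ → F y = c})
      (fiba_open F c0) (isOpen_iUnion fun c => fiba_open F c) ?_ ?_ ⟨x0, hx0, ρ0, hρ0, h0⟩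
    · rw [Set.disjoint_iUnion_right]
      rintro ⟨c, hcc⟩
      rw [Set.disjoint_left]
      intro x hx hx'
      exact hcc (fiba_eq F hx' hx)
    · intro x hx
      obtain ⟨ρ, hρ, c, hcx⟩ := h x hx
      by_cases hcc : c = c0
      · left
        subst hcc
        exact ⟨ρ, hρ, hcx⟩
      · right
        exact Set.mem_iUnion.2 ⟨⟨c, hcc⟩, ρ, hρ, hcx⟩
  rw [ae_iff]
  apply measure_null_of_locally_null
  intro x hx
  have hxU : x ∈ U := by
    by_contra h1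
    exact hx fun h2 => absurd h2 h1
  obtain ⟨ρ, hρ, h1⟩ := hsub hxU
  refine ⟨Metric.ball x ρ ∩ {a | ¬(a ∈ U → F a = c0)},
    inter_mem (mem_nhdsWithin_of_mem_nhds (Metric.ball_mem_nhds x hρ)) self_mem_nhdsWithin, ?_⟩
  refine measure_mono_null ?_ (ae_iff.1 h1)
  rintro y ⟨hy1, hy2⟩ hy3
  exact hy2 fun _ => hy3 hy1

end Pool.Bil
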