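import Pool.Agent.Lib.MP_0fc3df_an.Meas
import Pool.Agent.Lib.MP_0fc3df_an.FibA

/-!
# BIL-Fib: a function invariant along and orthogonally to the direction depends only on the direction

`fib`: replace `f` by a measurable `f' = hf.mk` (each of `h1 s`, `h2 s` carries over since shears preserve null sets).
For every `z ∈ ℂ`: for a.e. `p = (x, θ)`: `x, x + re z · v, x + z v ∈ dom → f' (x + z v, θ) = f' (x, θ)` (`v = dir θ`;
`h1 (re z)` at `p`, `h2 (-im z)` at `(x + re z · v, θ)`).  Fubini (`ae_ae_comm`, the set is measurable): for a.e. `θ`, a.e. `x`, a.e. `z`.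
Fix such a `θ`: `z ↦ z v` preserves the measure, so if `closedBall x ρ ⊆ dom` then `F = f' (·, θ)` is a.e. equal to `F x` on
`ball x ρ`; such `x` are dense in `dom`, hence `F` is a.e. constant near every point, `loc_const` (`dom` is convex, so preconnected).
`g θ = (∫ x in dom, f' (x, θ)) / vol dom`.
-/

set_option autoImplicit false

namespace Pool.Bil

open MeasureTheory Set Filter Topology Complex
open scoped ENNReal

private theorem fib_aff {v : ℂ} (hv : ‖v‖ = 1) (x : ℂ) {p : ℂ → Prop} (h : ∀ᵐ z : ℂ, p z) :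
    ∀ᵐ y : ℂ, p ((y - x) * (starRingEnd ℂ) v) := by
  have hc : ‖(starRingEnd ℂ) v‖ = 1 := by rw [Complex.norm_conj, hv]
  let c : Circle := ⟨(starRingEnd ℂ) v, mem_sphere_zero_iff_norm.2 hc⟩
  have hmp : MeasurePreserving (fun y : ℂ => (rotation c) (y - x)) volume volume :=
    ((rotation c).measurePreserving).comp (measurePreserving_sub_right volume x)
  have h1 := hmp.quasiMeasurePreserving.ae h
  filter_upwards [h1] with y hy
  have e : (rotation c) (y - x) = (y - x) * (starRingEnd ℂ) v := by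
    rw [rotation_apply, mul_comm]
  rwa [e] at hy

private theorem fib_one {U : Set ℂ} (hU : IsOpen U) (hconv : Convex ℝ U) {F : ℂ → ℝ} {v : ℂ}
    (hv : ‖v‖ = 1)
    (h : ∀ᵐ x : ℂ, ∀ᵐ z : ℂ, x ∈ U → x + (z.re : ℂ) * v ∈ U → x + z * v ∈ U →
      F (x + z * v) = F x) :
    ∃ c : ℝ, ∀ᵐ y : ℂ, y ∈ U → F y = c := by
  refine loc_const hU hconv.isPreconnected ?_
  intro x0 hx0
  obtain ⟨r, hr, hball⟩ := Metric.isOpen_iff.1 hU x0 hx0
  have hpos : volume (Metric.ball x0 (r / 3)) ≠ 0 :=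
    (Metric.measure_ball_pos volume x0 (by positivity)).ne'
  obtain ⟨x, hxb, hx⟩ : ∃ x ∈ Metric.ball x0 (r / 3), ∀ᵐ z : ℂ, x ∈ U →
      x + (z.re : ℂ) * v ∈ U → x + z * v ∈ U → F (x + z * v) = F x := by
    by_contra hcon
    apply hpos
    refine measure_mono_null (fun x hx => ?_) (ae_iff.1 h)
    intro hx2
    exact hcon ⟨x, hx, hx2⟩
  refine ⟨r / 3, by positivity, F x, ?_⟩
  filter_upwards [fib_aff hv x hx] with y hy hyb
  have hvv : (starRingEnd ℂ) v * v = 1 := by
    rw [mul_comm, Complex.mul_conj, Complex.normSq_eq_norm_sq, hv]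
    norm_num
  have e : x + (y - x) * (starRingEnd ℂ) v * v = y := by
    linear_combination (y - x) * hvv
  have hyx : ‖y - x‖ < 2 * r / 3 := by
    rw [Metric.mem_ball, dist_eq_norm] at hxb hyb
    have h1 : y - x = (y - x0) - (x - x0) := by ring
    rw [h1]
    linarith [norm_sub_le (y - x0) (x - x0)]
  have hn : ‖(y - x) * (starRingEnd ℂ) v‖ < 2 * r / 3 := by
    rw [norm_mul, Complex.norm_conj, hv, mul_one]
    exact hyx
  rw [Metric.mem_ball, dist_eq_norm] at hxb
  have h3 := hy ?_ ?_ ?_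
  · rw [e] at h3
    exact h3
  · apply hball
    rw [Metric.mem_ball, dist_eq_norm]
    linarith
  · apply hball
    rw [Metric.mem_ball, dist_eq_norm]
    have h4 : ‖((((y - x) * (starRingEnd ℂ) v).re : ℝ) : ℂ) * v‖ < 2 * r / 3 := by
      rw [norm_mul, hv, mul_one, Complex.norm_real]
      exact lt_of_le_of_lt (Complex.abs_re_le_norm _) hn
    have h5 : x + ((((y - x) * (starRingEnd ℂ) v).re : ℝ) : ℂ) * v - x0 =
        (x - x0) + ((((y - x) * (starRingEnd ℂ) v).re : ℝ) : ℂ) * v := by ring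
    rw [h5]
    linarith [norm_add_le (x - x0) (((((y - x) * (starRingEnd ℂ) v).re : ℝ) : ℂ) * v)]
  · rw [e]
    apply hball
    rw [Metric.mem_ball, dist_eq_norm]
    rw [Metric.mem_ball, dist_eq_norm] at hyb
    linarith

theorem fib {U : Set ℂ} (hU : IsOpen U) (hconv : Convex ℝ U) (hne : U.Nonempty) (hfin : volume U ≠ ∞)
    {f : ℂ × Dir → ℝ} (hf : Integrable f)
    (h1 : ∀ s : ℝ, ∀ᵐ p : ℂ × Dir, p.1 ∈ U → p.1 + (s : ℂ) * dir p.2 ∈ U → f (p.1 + (s : ℂ) * dir p.2, p.2) = f p)
    (h2 : ∀ s : ℝ, ∀ᵐ p : ℂ × Dir, p.1 ∈ U → p.1 - (s : ℂ) * (Complex.I * dir p.2) ∈ U →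
      f (p.1 - (s : ℂ) * (Complex.I * dir p.2), p.2) = f p) :
    ∃ g : Dir → ℝ, Measurable g ∧ ∀ᵐ p : ℂ × Dir, p.1 ∈ U → f p = g p.2 := by
  obtain ⟨f', hm, hff⟩ := hf.1
  have k1 : ∀ s : ℝ, ∀ᵐ p : ℂ × Dir, p.1 ∈ U → p.1 + (s : ℂ) * dir p.2 ∈ U →
      f' (p.1 + (s : ℂ) * dir p.2, p.2) = f' p := by
    intro s
    have hs : Continuous (fun θ : Dir => (s : ℂ) * dir θ) := continuous_const.mul continuous_dir
    have hmp := Poly.measurePreserving_shear hs
    filter_upwards [h1 s, hff, hmp.quasiMeasurePreserving.ae hff] with p a b c u w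
    rw [← b, ← a u w]
    exact c.symm
  have k2 : ∀ s : ℝ, ∀ᵐ p : ℂ × Dir, p.1 ∈ U → p.1 - (s : ℂ) * (Complex.I * dir p.2) ∈ U →
      f' (p.1 - (s : ℂ) * (Complex.I * dir p.2), p.2) = f' p := by
    intro s
    have hs : Continuous (fun θ : Dir => - ((s : ℂ) * (Complex.I * dir θ))) :=
      (continuous_const.mul (continuous_const.mul continuous_dir)).neg
    have hmp := Poly.measurePreserving_shear hs
    filter_upwards [h2 s, hff, hmp.quasiMeasurePreserving.ae hff] with p a b c u w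
    rw [← b, ← a u w]
    simp only [← sub_eq_add_neg] at c
    exact c.symm
  have k3 : ∀ z : ℂ, ∀ᵐ p : ℂ × Dir, p.1 ∈ U → p.1 + (z.re : ℂ) * dir p.2 ∈ U →
      p.1 + z * dir p.2 ∈ U → f' (p.1 + z * dir p.2, p.2) = f' p := by
    intro z
    have hs : Continuous (fun θ : Dir => (z.re : ℂ) * dir θ) := continuous_const.mul continuous_dir
    have hmp := Poly.measurePreserving_shear hs
    filter_upwards [k1 z.re, hmp.quasiMeasurePreserving.ae (k2 (-z.im))] with p a b u w t
    have e : p.1 + (z.re : ℂ) * dir p.2 - ((-z.im : ℝ) : ℂ) * (Complex.I * dir p.2) =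
        p.1 + z * dir p.2 := by
      push_cast
      linear_combination (dir p.2) * (Complex.re_add_im z)
    simp only [e] at b
    rw [b w t]
    exact a u w
  have hfm : Measurable f' := hm.measurable
  have hdm : Measurable dir := continuous_dir.measurable
  have hA : MeasurableSet {q : ℂ × (ℂ × Dir) | q.2.1 ∈ U → q.2.1 + (q.1.re : ℂ) * dir q.2.2 ∈ U →
      q.2.1 + q.1 * dir q.2.2 ∈ U → f' (q.2.1 + q.1 * dir q.2.2, q.2.2) = f' q.2} := by
    have m1 : Measurable (fun q : ℂ × (ℂ × Dir) => q.2.1) := measurable_snd.fst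
    have m2 : Measurable (fun q : ℂ × (ℂ × Dir) => dir q.2.2) := hdm.comp measurable_snd.snd
    have m3 : Measurable (fun q : ℂ × (ℂ × Dir) => q.2.1 + (q.1.re : ℂ) * dir q.2.2) :=
      m1.add ((Complex.measurable_ofReal.comp (Complex.measurable_re.comp measurable_fst)).mul m2)
    have m4 : Measurable (fun q : ℂ × (ℂ × Dir) => q.2.1 + q.1 * dir q.2.2) :=
      m1.add (measurable_fst.mul m2)
    have m5 : Measurable (fun q : ℂ × (ℂ × Dir) => f' (q.2.1 + q.1 * dir q.2.2, q.2.2)) :=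
      hfm.comp (m4.prodMk measurable_snd.snd)
    have m6 : Measurable (fun q : ℂ × (ℂ × Dir) => f' q.2) := hfm.comp measurable_snd
    rw [measurableSet_setOfPred]
    refine Measurable.imp ?_ (Measurable.imp ?_ (Measurable.imp ?_ ?_))
    · exact measurableSet_setOfPred.1 (m1 hU.measurableSet)
    · exact measurableSet_setOfPred.1 (m3 hU.measurableSet)
    · exact measurableSet_setOfPred.1 (m4 hU.measurableSet)
    · exact measurableSet_setOfPred.1 (measurableSet_eq_fun m5 m6)
  have k4 : ∀ᵐ p : ℂ × Dir, ∀ᵐ z : ℂ, p.1 ∈ U → p.1 + (z.re : ℂ) * dir p.2 ∈ U →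
      p.1 + z * dir p.2 ∈ U → f' (p.1 + z * dir p.2, p.2) = f' p :=
    (Measure.ae_ae_comm hA).1 (Filter.Eventually.of_forall k3)
  have hsw : MeasurePreserving (Prod.swap : Dir × ℂ → ℂ × Dir) volume volume :=
    Measure.measurePreserving_swap
  have k5 : ∀ᵐ θ : Dir, ∀ᵐ x : ℂ, ∀ᵐ z : ℂ, x ∈ U → x + (z.re : ℂ) * dir θ ∈ U →
      x + z * dir θ ∈ U → f' (x + z * dir θ, θ) = f' (x, θ) := by
    have h3 := hsw.quasiMeasurePreserving.ae k4
    exact Measure.ae_ae_of_ae_prod h3
  have k6 : ∀ᵐ θ : Dir, ∃ c : ℝ, ∀ᵐ y : ℂ, y ∈ U → f' (y, θ) = c := by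
    filter_upwards [k5] with θ hθ
    exact fib_one (F := fun y => f' (y, θ)) hU hconv (norm_dir θ) hθ
  have hvol0 : volume U ≠ 0 := (hU.measure_pos volume hne).ne'
  refine ⟨fun θ => (∫ x in U, f' (x, θ)) / (volume U).toReal, ?_, ?_⟩
  · have h3 : StronglyMeasurable (fun θ : Dir => ∫ x in U, f' (x, θ)) :=
      StronglyMeasurable.integral_prod_left' (μ := volume.restrict U) hm
    exact h3.measurable.div_const _
  · have hgm : Measurable (fun θ : Dir => (∫ x in U, f' (x, θ)) / (volume U).toReal) := by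
      have h3 : StronglyMeasurable (fun θ : Dir => ∫ x in U, f' (x, θ)) :=
        StronglyMeasurable.integral_prod_left' (μ := volume.restrict U) hm
      exact h3.measurable.div_const _
    have k7 : ∀ᵐ θ : Dir, ∀ᵐ y : ℂ, y ∈ U →
        f' (y, θ) = (∫ x in U, f' (x, θ)) / (volume U).toReal := by
      filter_upwards [k6] with θ hθ
      obtain ⟨c, hc⟩ := hθ
      have h3 : ∫ x in U, f' (x, θ) = ∫ x in U, c :=
        setIntegral_congr_ae hU.measurableSet hc
      have h4 : (∫ x in U, f' (x, θ)) / (volume U).toReal = c := by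
        rw [h3, setIntegral_const, smul_eq_mul, Measure.real]
        have h5 : (volume U).toReal ≠ 0 := ENNReal.toReal_ne_zero.2 ⟨hvol0, hfin⟩
        field_simp
      filter_upwards [hc] with y hy hyU
      rw [h4]
      exact hy hyU
    have hB : MeasurableSet {q : Dir × ℂ | q.2 ∈ U →
        f' (q.2, q.1) = (∫ x in U, f' (x, q.1)) / (volume U).toReal} := by
      rw [measurableSet_setOfPred]
      refine Measurable.imp ?_ ?_
      · exact measurableSet_setOfPred.1 (measurable_snd hU.measurableSet)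
      · exact measurableSet_setOfPred.1 (measurableSet_eq_fun
          (hfm.comp (measurable_snd.prodMk measurable_fst)) (hgm.comp measurable_fst))
    have k8 : ∀ᵐ q : Dir × ℂ, q.2 ∈ U →
        f' (q.2, q.1) = (∫ x in U, f' (x, q.1)) / (volume U).toReal :=
      (Measure.ae_prod_iff_ae_ae hB).2 k7
    have hsw' : MeasurePreserving (Prod.swap : ℂ × Dir → Dir × ℂ) volume volume :=
      Measure.measurePreserving_swap
    have k9 := hsw'.quasiMeasurePreserving.ae k8
    filter_upwards [hff, k9] with p a b u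
    rw [a]
    exact b u

end Pool.Bil
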