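import Pool.Agent.Lib.MP_0fc3df_an.Det

/-!
# BIL-Loc: nonsingular paths are stable under small perturbations

Proof (induction over `Fl`). `stay`: `dom` is open.  `bounce`: put `y' = fold L (x' + t v')`, `w' = foldv L v'`,
`s' = (c i - n i · y') / (n i · w')` (note `n i · w > 0` since `y` is interior and `y + s w` is on the line `i`); `s'` depends
continuously on `(x', v')`, `y' + s' w'` is on the line `i` and strictly inside for the other (finitely many) sides;
`r' = τ - t - s' > 0`; use the induction hypothesis at time `t`.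
-/

set_option autoImplicit false

namespace Pool.Bil

open MeasureTheory Set Filter Topology Complex
open scoped ENNReal

namespace Poly

variable {ι : Type} [Finite ι] (P : Poly ι)

theorem Fl.local {x v : ℂ} {t : ℝ} {L : List ι} (h : P.Fl x v t L) :
    ∀ᶠ q : ℂ × ℂ × ℝ in 𝓝 (x, v, t), 0 ≤ q.2.2 → P.Fl q.1 q.2.1 q.2.2 L := by
  induction h with
  | @stay t h0 h1 =>
    have hc : Continuous fun q : ℂ × ℂ × ℝ => q.1 + (q.2.2 : ℂ) * q.2.1 := by fun_prop
    have := hc.continuousAt (x := (x, v, t)) |>.eventually (P.isOpen_dom.mem_nhds h1)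
    filter_upwards [this] with q hq h0
    exact Fl.stay h0 hq
  | @bounce t t' s r i L hF hs hr ht hz hd ih =>
    have hy := hF.mem P
    have e0 : P.fold L (x + ((t + s : ℝ) : ℂ) * v) = P.fold L (x + (t : ℂ) * v) + (s : ℂ) * P.foldv L v :=
      P.fold_line L x v t s
    have hw : 0 < dt (P.n i) (P.foldv L v) := by
      have h1 := hz.1
      rw [e0, dt_add_right, dt_smul_right] at h1
      have h2 := hy i
      by_contra hcon
      have : s * dt (P.n i) (P.foldv L v) ≤ 0 := mul_nonpos_of_nonneg_of_nonpos hs.le (not_lt.1 hcon)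
      linarith
    set σ : ℂ × ℂ × ℝ → ℝ := fun q => (P.c i - dt (P.n i) (P.fold L (q.1 + (t : ℂ) * q.2.1))) / dt (P.n i) (P.foldv L q.2.1) with hσ
    have hσ0 : σ (x, v, t') = s := by
      have h1 := hz.1
      rw [e0, dt_add_right, dt_smul_right] at h1
      simp only [hσ]
      rw [div_eq_iff hw.ne']
      linarith
    have cdt : ∀ j, Continuous (dt (P.n j)) := fun j => continuous_dt _
    have cf := P.continuous_fold L
    have cfv := P.continuous_foldv L
    have hσc : ContinuousAt σ (x, v, t') := by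
      refine ContinuousAt.div ?_ ?_ hw.ne'
      · have : Continuous fun q : ℂ × ℂ × ℝ => P.c i - dt (P.n i) (P.fold L (q.1 + (t : ℂ) * q.2.1)) :=
          continuous_const.sub ((cdt i).comp (cf.comp (by fun_prop)))
        exact this.continuousAt
      · have : Continuous fun q : ℂ × ℂ × ℝ => dt (P.n i) (P.foldv L q.2.1) := (cdt i).comp (cfv.comp (by fun_prop))
        exact this.continuousAt
    have A1 : ∀ᶠ q : ℂ × ℂ × ℝ in 𝓝 (x, v, t'), P.Fl q.1 q.2.1 t L := by
      have hcont : Tendsto (fun q : ℂ × ℂ × ℝ => (q.1, q.2.1, t)) (𝓝 (x, v, t')) (𝓝 (x, v, t)) :=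
        (by fun_prop : Continuous fun q : ℂ × ℂ × ℝ => (q.1, q.2.1, t)).tendsto' _ _ rfl
      filter_upwards [hcont.eventually ih] with q hq
      exact hq (hF.nonneg P)
    have A2 : ∀ᶠ q : ℂ × ℂ × ℝ in 𝓝 (x, v, t'), 0 < σ q :=
      hσc.eventually (lt_mem_nhds (by rw [hσ0]; exact hs))
    have A3 : ∀ᶠ q : ℂ × ℂ × ℝ in 𝓝 (x, v, t'), 0 < q.2.2 - t - σ q := by
      have : ContinuousAt (fun q : ℂ × ℂ × ℝ => q.2.2 - t - σ q) (x, v, t') :=
        ((by fun_prop : Continuous fun q : ℂ × ℂ × ℝ => q.2.2 - t).continuousAt).sub hσc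
      exact this.eventually (lt_mem_nhds (by
        change 0 < t' - t - σ (x, v, t')
        rw [hσ0]; linarith))
    have A4 : ∀ᶠ q : ℂ × ℂ × ℝ in 𝓝 (x, v, t'), 0 < dt (P.n i) (P.foldv L q.2.1) := by
      have : Continuous fun q : ℂ × ℂ × ℝ => dt (P.n i) (P.foldv L q.2.1) := (cdt i).comp (cfv.comp (by fun_prop))
      exact this.continuousAt.eventually (lt_mem_nhds hw)
    have A5 : ∀ᶠ q : ℂ × ℂ × ℝ in 𝓝 (x, v, t'), ∀ j, j ≠ i →
        dt (P.n j) (P.fold L (q.1 + ((t + σ q : ℝ) : ℂ) * q.2.1)) < P.c j := by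
      rw [eventually_all]
      intro j
      by_cases hj : j = i
      · exact Eventually.of_forall fun q h => absurd hj h
      have hcts : ContinuousAt (fun q : ℂ × ℂ × ℝ => dt (P.n j) (P.fold L (q.1 + ((t + σ q : ℝ) : ℂ) * q.2.1))) (x, v, t') := by
        refine ((cdt j).comp cf).continuousAt.comp ?_
        refine ContinuousAt.add continuous_fst.continuousAt (ContinuousAt.mul ?_ (continuous_fst.comp continuous_snd).continuousAt)
        exact Complex.continuous_ofReal.continuousAt.comp (continuousAt_const.add hσc)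
      have hlt : dt (P.n j) (P.fold L (x + ((t + σ (x, v, t') : ℝ) : ℂ) * v)) < P.c j := by
        rw [hσ0]; exact hz.2 j hj
      have := hcts.eventually (Iio_mem_nhds hlt)
      filter_upwards [this] with q hq _
      exact hq
    have A6 : ∀ᶠ q : ℂ × ℂ × ℝ in 𝓝 (x, v, t'), P.fold (i :: L) (q.1 + (q.2.2 : ℂ) * q.2.1) ∈ P.dom := by
      have hcts : Continuous fun q : ℂ × ℂ × ℝ => P.fold (i :: L) (q.1 + (q.2.2 : ℂ) * q.2.1) :=
        (P.continuous_fold (i :: L)).comp (by fun_prop)
      exact hcts.continuousAt.eventually (P.isOpen_dom.mem_nhds hd)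
    filter_upwards [A1, A2, A3, A4, A5, A6] with q h1 h2 h3 h4 h5 h6 _
    refine Fl.bounce (s := σ q) (r := q.2.2 - t - σ q) h1 h2 h3 (by ring) ⟨?_, h5⟩ h6
    rw [fold_line, dt_add_right, dt_smul_right]
    simp only [hσ]
    field_simp
    ring

end Poly

end Pool.Bil
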