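import Pool.Agent.Lib.MP_0fc3df_an.Meas
import Pool.Agent.Lib.MP_0fc3df_an.Loc

/-!
# BIL-FlowMeas: the billiard flow is injective and measure preserving, in the form of an inequality

`O t L` is open (`Fl.local`, `continuous_dir`), the `O t L` are pairwise disjoint (`Fl.unique`), and so are the images
`Psi L t '' O t L` (`Fl.injective`, `dir_foldth`, `dir_injective`).
`flow_lintegral`: `∫_K G = ∑_L ∫_{K ∩ O t L} G ≤ ∑_L ∫_{O t L} H ∘ Psi L t = ∑_L ∫_{Psi L t '' O t L} H ≤ ∫ H`
(`lintegral_iUnion`, `MeasurePreserving.setLIntegral_comp_emb`; `Psi L t` is a measurable embedding: continuous and injective).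
-/

set_option autoImplicit false

namespace Pool.Bil

open MeasureTheory Set Filter Topology Complex
open scoped ENNReal

namespace Poly

variable {ι : Type} [Finite ι] (P : Poly ι)

/-- the starting points with itinerary `L` at time `t` -/
def O (t : ℝ) (L : List ι) : Set (ℂ × Dir) := {p | p.1 ∈ P.dom ∧ P.Fl p.1 (dir p.2) t L}

theorem isOpen_O {t : ℝ} (ht : 0 ≤ t) (L : List ι) : IsOpen (P.O t L) := by
  rw [isOpen_iff_mem_nhds]
  rintro p ⟨h1, h2⟩
  have e1 : ∀ᶠ q : ℂ × Dir in 𝓝 p, q.1 ∈ P.dom :=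
    continuous_fst.continuousAt.eventually (P.isOpen_dom.mem_nhds h1)
  have hc : Continuous fun q : ℂ × Dir => ((q.1, dir q.2, t) : ℂ × ℂ × ℝ) :=
    continuous_fst.prodMk ((continuous_dir.comp continuous_snd).prodMk continuous_const)
  have e2 := (hc.continuousAt (x := p)).eventually (Fl.local P h2)
  filter_upwards [e1, e2] with q hq1 hq2
  exact ⟨hq1, hq2 ht⟩

private theorem flowMeas_emb (L : List ι) (t : ℝ) : MeasurableEmbedding (P.Psi L t) :=
  (P.continuous_Psi L t).measurableEmbedding (P.Psi_injective L t)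

theorem flow_lintegral {t : ℝ} (ht : 0 ≤ t) {K : Set (ℂ × Dir)} (hK : MeasurableSet K) {G H : ℂ × Dir → ℝ≥0∞}
    (h : ∀ᵐ p : ℂ × Dir ∂(volume.restrict K), ∃ L, p ∈ P.O t L ∧ G p ≤ H (P.Psi L t p)) :
    ∫⁻ p in K, G p ≤ ∫⁻ p, H p := by
  have hOm : ∀ L, MeasurableSet (P.O t L) := fun L => (P.isOpen_O ht L).measurableSet
  have hUm : MeasurableSet (⋃ L, P.O t L) := MeasurableSet.iUnion hOm
  have hdis : Pairwise (Function.onFun Disjoint fun L => P.O t L) := by
    intro L L' hne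
    rw [Function.onFun, Set.disjoint_left]
    rintro p ⟨h1, h2⟩ ⟨_, h3⟩
    exact hne (Fl.unique P h1 h2 h3)
  have hdis2 : Pairwise (Function.onFun Disjoint fun L => P.O t L ∩ K) := by
    intro L L' hne
    exact (hdis hne).mono inter_subset_left inter_subset_left
  have hdis3 : Pairwise (Function.onFun Disjoint fun L => P.Psi L t '' P.O t L) := by
    intro L L' hne
    rw [Function.onFun, Set.disjoint_left]
    rintro q ⟨p, ⟨h1, h2⟩, rfl⟩ ⟨p', ⟨h3, h4⟩, h5⟩
    have h6 := congrArg Prod.fst h5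
    have h7 := congrArg (fun r : ℂ × Dir => dir r.2) h5
    simp only [Psi] at h6 h7
    rw [dir_foldth, dir_foldth] at h7
    exact hne (Fl.injective P h1 h3 h2 h4 h6.symm h7.symm).1
  have e1 : ∀ᵐ p : ℂ × Dir ∂(volume.restrict K), p ∈ ⋃ L, P.O t L := by
    filter_upwards [h] with p hp
    obtain ⟨L, h1, _⟩ := hp
    exact mem_iUnion.2 ⟨L, h1⟩
  have e2 : (volume.restrict K : Measure (ℂ × Dir)) = volume.restrict (⋃ L, P.O t L ∩ K) := by
    conv_lhs => rw [← Measure.restrict_eq_self_of_ae_mem e1]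
    rw [Measure.restrict_restrict hUm, iUnion_inter]
  rw [e2, lintegral_iUnion (fun L => (hOm L).inter hK) hdis2]
  calc ∑' L, ∫⁻ p in P.O t L ∩ K, G p
      ≤ ∑' L, ∫⁻ q in P.Psi L t '' P.O t L, H q := by
        refine ENNReal.tsum_le_tsum fun L => ?_
        rw [← (P.measurePreserving_Psi L t).setLIntegral_comp_emb (P.flowMeas_emb L t) H (P.O t L)]
        refine le_trans ?_ (lintegral_mono_set (inter_subset_left : P.O t L ∩ K ⊆ P.O t L))
        refine lintegral_mono_ae ?_
        have h1 : ∀ᵐ p : ℂ × Dir ∂(volume.restrict (P.O t L ∩ K)),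
            ∃ L, p ∈ P.O t L ∧ G p ≤ H (P.Psi L t p) :=
          ae_restrict_of_ae_restrict_of_subset inter_subset_right h
        filter_upwards [h1, ae_restrict_mem ((hOm L).inter hK)] with p hp hp2
        obtain ⟨L', h3, h4⟩ := hp
        obtain rfl : L = L' := Fl.unique P h3.1 hp2.1.2 h3.2
        exact h4
    _ = ∫⁻ q in ⋃ L, P.Psi L t '' P.O t L, H q :=
        (lintegral_iUnion (fun L => (P.flowMeas_emb L t).measurableSet_image.2 (hOm L)) hdis3 H).symm
    _ ≤ ∫⁻ q, H q := setLIntegral_le_lintegral _ _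

/-- the starting points of paths which exist beyond the time `t` -/
def Al (t : ℝ) : Set (ℂ × Dir) := {p | p.1 ∈ P.dom ∧ ∃ T, t < T ∧ ∃ L, P.Fl p.1 (dir p.2) T L}

theorem isOpen_Al {t : ℝ} (ht : 0 ≤ t) : IsOpen (P.Al t) := by
  have e : P.Al t = ⋃ (T : ℝ) (_ : t < T) (L : List ι), P.O T L := by
    ext p
    simp only [Al, O, mem_setOf_eq, mem_iUnion, exists_prop]
    constructor
    · rintro ⟨h1, T, h2, L, h3⟩
      exact ⟨T, h2, L, h1, h3⟩
    · rintro ⟨T, h2, L, h1, h3⟩
      exact ⟨h1, T, h2, L, h3⟩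
  rw [e]
  exact isOpen_iUnion fun T => isOpen_iUnion fun hT => isOpen_iUnion fun L =>
    P.isOpen_O (ht.trans hT.le) L

/-- invariance of a function under the billiard flow, almost everywhere for every time -/
def Inv (f : ℂ × Dir → ℝ) : Prop :=
  ∀ t : ℝ, 0 ≤ t → ∀ᵐ p : ℂ × Dir, p.1 ∈ P.dom → ∀ L, P.Fl p.1 (dir p.2) t L → f (P.Psi L t p) = f p

end Poly

/-- the modulus of continuity in the direction -/
noncomputable def Mv (f : ℂ × Dir → ℝ) (δ : ℝ) : ℝ≥0∞ := ∫⁻ p : ℂ × Dir, ‖f (p.1, p.2 + (δ : Dir)) - f p‖ₑ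

/-- the modulus of continuity orthogonally to the direction, on the set `K` -/
noncomputable def Wv (f : ℂ × Dir → ℝ) (K : Set (ℂ × Dir)) (r : ℝ) : ℝ≥0∞ :=
  ∫⁻ p in K, ‖f (p.1 - (r : ℂ) * (Complex.I * dir p.2), p.2) - f p‖ₑ

theorem Mv_neg {f : ℂ × Dir → ℝ} (η : ℝ) : Mv f (-η) = Mv f η := by
  have hc : Continuous fun p : ℂ × Dir => (p.1, p.2 + (η : Dir)) :=
    continuous_fst.prodMk (continuous_snd.add continuous_const)
  have hi : Function.Injective fun p : ℂ × Dir => (p.1, p.2 + (η : Dir)) := by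
    intro p q hpq
    have h1 := congrArg Prod.fst hpq
    have h2 := congrArg Prod.snd hpq
    simp only at h1 h2
    exact Prod.ext h1 (add_right_cancel h2)
  unfold Mv
  rw [← (Poly.measurePreserving_rot (η : Dir)).lintegral_comp_emb (hc.measurableEmbedding hi)]
  refine lintegral_congr fun p => ?_
  have e : p.2 + (η : Dir) + ((-η : ℝ) : Dir) = p.2 := by
    rw [add_assoc]
    have : (η : Dir) + ((-η : ℝ) : Dir) = 0 := by
      rw [← QuotientAddGroup.mk_add]
      simp
    rw [this, add_zero]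
  simp only [e]
  rw [enorm_sub_rev]

end Pool.Bil
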