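import Pool.Agent.Lib.MP_0fc3df_an.FlowMeas

/-!
# BIL-Refl: the function of the direction is invariant under the reflections

`along`: `s ≥ 0`: `Fl.stay` with `L = []`, `Psi [] s p = (x + s v, θ)`.  `s < 0`: apply the case `-s` at the point
`(x + s v, θ)` (shear preserves null sets).
`refl_inv`: (1) if `n i · dir θ > 0` there are `m : ℕ` and a nonempty open set of `x ∈ dom` with `Fl x (dir θ) (1/(m+1)) [i]`: take
`z ∈ side i`, `x = z - s v`, `r = s = 1/(2(m+1))`, `m` large (then `x ∈ dom`, `z + r rfv i v ∈ dom`); openness from `isOpen_O`.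
(2) for a.e. `(x, θ)` and all `m`: `x ∈ dom → Fl x (dir θ) (1/(m+1)) [i] → g θ = f (x, θ) = f (Psi [i] _ (x, θ)) = g (ang i - θ)`
(`Inv`, `hfg` at `(x, θ)` and at `Psi [i] _ (x, θ)`, whose first component is in `dom` by `Fl.mem`).  Fubini: for a.e. `θ`, a.e. `x`.
So `g (ang i - θ) = g θ` for a.e. `θ` with `n i · dir θ > 0`.
(3) If `n i · dir θ < 0` use `θ' = ang i - θ` (`dt_n_rfv`, measure preserving).  If `= 0` then `ang i - θ = θ`.
-/

set_option autoImplicit false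

namespace Pool.Bil

open MeasureTheory Set Filter Topology Complex
open scoped ENNReal

namespace Poly

variable {ι : Type} [Finite ι] (P : Poly ι)

theorem along {f : ℂ × Dir → ℝ} (hi : P.Inv f) (s : ℝ) :
    ∀ᵐ p : ℂ × Dir, p.1 ∈ P.dom → p.1 + (s : ℂ) * dir p.2 ∈ P.dom → f (p.1 + (s : ℂ) * dir p.2, p.2) = f p := by
  rcases le_or_gt 0 s with hs | hs
  · filter_upwards [hi s hs] with p hp h1 h2
    exact hp h1 [] (Fl.stay hs h2)
  · have hT : MeasurePreserving (fun p : ℂ × Dir => (p.1 + (s : ℂ) * dir p.2, p.2)) volume volume :=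
      measurePreserving_shear (a := fun θ => (s : ℂ) * dir θ) (continuous_const.mul continuous_dir)
    have h := hT.quasiMeasurePreserving.ae (hi (-s) (by linarith))
    filter_upwards [h] with p hp h1 h2
    have e : p.1 + (s : ℂ) * dir p.2 + ((-s : ℝ) : ℂ) * dir p.2 = p.1 := by push_cast; ring
    have h3 := hp h2 [] (Fl.stay (by linarith) (by
      show p.1 + (s : ℂ) * dir p.2 + ((-s : ℝ) : ℂ) * dir p.2 ∈ P.dom
      rw [e]; exact h1))
    have e2 : P.Psi [] (-s) (p.1 + (s : ℂ) * dir p.2, p.2) = p := by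
      show (p.1 + (s : ℂ) * dir p.2 + ((-s : ℝ) : ℂ) * dir p.2, p.2) = p
      rw [e]
    rw [e2] at h3
    exact h3.symm

/-- small bounces at the side `i` -/
private theorem exists_bounce {i : ι} {z v : ℂ} (hz : z ∈ P.side i) (hv : 0 < dt (P.n i) v) :
    ∃ m : ℕ, ∃ x ∈ P.dom, P.Fl x v (1 / ((m : ℝ) + 1)) [i] := by
  have hlin : ∀ w : ℂ, dt (P.n i) w < 0 → ∀ᶠ s : ℝ in 𝓝[>] 0, z + (s : ℂ) * w ∈ P.dom := by
    intro w hw
    have : ∀ j, ∀ᶠ s : ℝ in 𝓝[>] 0, dt (P.n j) (z + (s : ℂ) * w) < P.c j := by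
      intro j
      by_cases hj : j = i
      · subst hj
        filter_upwards [self_mem_nhdsWithin] with s hs
        have hs' : (0 : ℝ) < s := hs
        rw [dt_add_right, dt_smul_right, hz.1]
        nlinarith
      · have hc : Continuous fun s : ℝ => dt (P.n j) (z + (s : ℂ) * w) :=
          (continuous_dt _).comp (by fun_prop)
        have h0 : dt (P.n j) (z + ((0 : ℝ) : ℂ) * w) < P.c j := by
          simpa using hz.2 j hj
        exact nhdsWithin_le_nhds (hc.continuousAt.eventually (Iio_mem_nhds h0))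
    filter_upwards [eventually_all.2 this] with s hs
    exact hs
  have h1 := hlin (-v) (by rw [dt_neg_right]; linarith)
  have h2 := hlin (P.rfv i v) (by rw [dt_n_rfv]; linarith)
  have ht : Tendsto (fun m : ℕ => 1 / (2 * ((m : ℝ) + 1))) atTop (𝓝[>] 0) := by
    rw [tendsto_nhdsWithin_iff]
    constructor
    · have h3 : Tendsto (fun m : ℕ => (1 / 2 : ℝ) * (1 / ((m : ℝ) + 1))) atTop (𝓝 ((1 / 2 : ℝ) * 0)) :=
        tendsto_one_div_add_atTop_nhds_zero_nat.const_mul _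
      rw [mul_zero] at h3
      refine h3.congr fun m => ?_
      rw [one_div_mul_one_div]
    · exact Eventually.of_forall fun m => by
        show (0 : ℝ) < _
        positivity
  obtain ⟨m, hm1, hm2⟩ := ((ht.eventually h1).and (ht.eventually h2)).exists
  set s : ℝ := 1 / (2 * ((m : ℝ) + 1)) with hs
  have hs0 : 0 < s := by positivity
  have hx : z - (s : ℂ) * v ∈ P.dom := by
    have : z - (s : ℂ) * v = z + (s : ℂ) * -v := by ring
    rw [this]; exact hm1
  refine ⟨m, z - (s : ℂ) * v, hx, ?_⟩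
  have e1 : 1 / ((m : ℝ) + 1) = 0 + s + s := by
    rw [hs]; field_simp; ring
  refine Fl.bounce (t := 0) (s := s) (r := s) (L := []) (Fl.zero P hx) hs0 hs0 e1 ?_ ?_
  · have : P.fold [] (z - (s : ℂ) * v + ((0 + s : ℝ) : ℂ) * v) = z := by
      show z - (s : ℂ) * v + ((0 + s : ℝ) : ℂ) * v = z
      push_cast; ring
    rw [this]; exact hz
  · have : P.fold [i] (z - (s : ℂ) * v + ((1 / ((m : ℝ) + 1) : ℝ) : ℂ) * v) = z + (s : ℂ) * P.rfv i v := by
      rw [e1]
      show P.rf i (z - (s : ℂ) * v + ((0 + s + s : ℝ) : ℂ) * v) = z + (s : ℂ) * P.rfv i v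
      have e2 : z - (s : ℂ) * v + ((0 + s + s : ℝ) : ℂ) * v = z + (s : ℂ) * v := by push_cast; ring
      rw [e2, rf_add, P.rf_of_line hz.1, rfv_smul]
    rw [this]; exact hm2

theorem refl_inv {f : ℂ × Dir → ℝ} (hi : P.Inv f) {g : Dir → ℝ} (hg : Measurable g)
    (hfg : ∀ᵐ p : ℂ × Dir, p.1 ∈ P.dom → f p = g p.2) {i : ι} (hs : (P.side i).Nonempty) :
    ∀ᵐ θ : Dir, g (P.ang i - θ) = g θ := by
  obtain ⟨z, hz⟩ := hs
  have hm : ∀ m : ℕ, (0 : ℝ) ≤ 1 / ((m : ℝ) + 1) := fun m => by positivity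
  have h1 : ∀ᵐ p : ℂ × Dir, ∀ m : ℕ, p.1 ∈ P.dom → P.Fl p.1 (dir p.2) (1 / ((m : ℝ) + 1)) [i] →
      g (P.ang i - p.2) = g p.2 := by
    rw [ae_all_iff]
    intro m
    have h2 := (P.measurePreserving_Psi [i] (1 / ((m : ℝ) + 1))).quasiMeasurePreserving.ae hfg
    filter_upwards [hi _ (hm m), hfg, h2] with p h3 h4 h5 hp hF
    have h6 := h5 (hF.mem P)
    have h7 : (P.Psi [i] (1 / ((m : ℝ) + 1)) p).2 = P.ang i - p.2 := rfl
    rw [h7] at h6
    rw [← h6, h3 hp [i] hF, h4 hp]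
  have h2 : ∀ᵐ q : Dir × ℂ, ∀ m : ℕ, q.2 ∈ P.dom → P.Fl q.2 (dir q.1) (1 / ((m : ℝ) + 1)) [i] →
      g (P.ang i - q.1) = g q.1 :=
    (Measure.measurePreserving_swap (μ := (volume : Measure Dir)) (ν := (volume : Measure ℂ))).quasiMeasurePreserving.ae h1
  have h3 : ∀ᵐ θ : Dir, ∀ᵐ x : ℂ, ∀ m : ℕ, x ∈ P.dom → P.Fl x (dir θ) (1 / ((m : ℝ) + 1)) [i] →
      g (P.ang i - θ) = g θ := Measure.ae_ae_of_ae_prod h2
  have h4 : ∀ᵐ θ : Dir, 0 < dt (P.n i) (dir θ) → g (P.ang i - θ) = g θ := by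
    filter_upwards [h3] with θ hθ hpos
    obtain ⟨m, x, hx, hF⟩ := P.exists_bounce hz hpos
    have hU : IsOpen ((fun y : ℂ => (y, θ)) ⁻¹' (P.O (1 / ((m : ℝ) + 1)) [i])) :=
      (P.isOpen_O (hm m) [i]).preimage (by fun_prop)
    by_contra hcon
    have hpos2 := hU.measure_pos (volume : Measure ℂ) ⟨x, hx, hF⟩
    refine absurd (measure_mono_null ?_ (ae_iff.1 hθ)) hpos2.ne'
    intro y hy hall
    exact hcon (hall m hy.1 hy.2)
  have h5 := (P.measurePreserving_foldth [i]).quasiMeasurePreserving.ae h4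
  filter_upwards [h4, h5] with θ h6 h7
  have h7' : 0 < dt (P.n i) (dir (P.ang i - θ)) → g (P.ang i - (P.ang i - θ)) = g (P.ang i - θ) := h7
  rw [P.dir_ang, P.dt_n_rfv, sub_sub_cancel] at h7'
  rcases lt_trichotomy 0 (dt (P.n i) (dir θ)) with h | h | h
  · exact h6 h
  · have : dir (P.ang i - θ) = dir θ := by
      rw [P.dir_ang, rfv, ← h]
      simp
    rw [dir_injective this]
  · exact (h7' (by linarith)).symm

end Poly

end Pool.Bil
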