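import Pool.Agent.Lib.MP_0fc3df_an.Circ

/-!
# BIL-Rot: two reflections of infinite order generate only constants

`g (a - (b - θ)) = g (b - θ) = g θ` a.e. (`θ ↦ b - θ` preserves the measure), `a - (b - θ) = θ + (a - b)`; irrational rotations are
ergodic (`AddCircle.ergodic_add_right`), `QuasiErgodic.ae_eq_const_of_ae_eq_comp₀` (or similar).
-/

set_option autoImplicit false

namespace Pool.Bil

open MeasureTheory Set Filter Topology Complex
open scoped ENNReal

theorem rot_const {g : Dir → ℝ} (hg : Measurable g) {a b : Dir} (ha : ∀ᵐ θ : Dir, g (a - θ) = g θ)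
    (hb : ∀ᵐ θ : Dir, g (b - θ) = g θ) (hab : addOrderOf (a - b) = 0) : ∃ c : ℝ, ∀ᵐ θ : Dir, g θ = c := by
  have h1 : ∀ᵐ θ : Dir, g (a - (b - θ)) = g (b - θ) := by
    have hq : Measure.QuasiMeasurePreserving (fun θ : Dir => b - θ) volume volume :=
      (MeasureTheory.Measure.measurePreserving_sub_left (volume : Measure Dir) b).quasiMeasurePreserving
    exact Measure.QuasiMeasurePreserving.ae (p := fun θ : Dir => g (a - θ) = g θ) hq ha
  have h2 : g ∘ (fun θ : Dir => θ + (a - b)) =ᵐ[volume] g := by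
    filter_upwards [h1, hb] with θ h1 h2
    have e : θ + (a - b) = a - (b - θ) := by abel
    simp only [Function.comp_apply]
    rw [e, h1, h2]
  have he : Ergodic (fun θ : Dir => θ + (a - b)) volume := AddCircle.ergodic_add_right.2 hab
  obtain ⟨c, hc⟩ := he.ae_eq_const_of_ae_eq_comp_ae hg.aestronglyMeasurable h2
  exact ⟨c, hc⟩

end Pool.Bil
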