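import Pool.Agent.Lib.MP_0fc3df_an.Circ

/-!
# BIL-T345: the 3-4-5 triangle

vertices `0, 4, 3i`; `n 0 = -1`, `n 1 = -i`, `n 2 = (3 + 4i)/5`, `c = 0, 0, 12/5`.
`ord`: `dir (ang 1 - ang 2) = (7 + 24 i)/25`... up to conjugation `(−n₁²) conj(−n₂²)`; if `addOrderOf ≠ 0` then
`((7 ± 24 i)/25)^n = 1` for some `n > 0`, i.e. `(7 ± 24 i)^n = 25^n`; but `7 ± 24 i = -(3 ∓ 4 i)²`.. and in `ℤ[i]/5`:
`(3+4i)² = -7+24i ≡ 3+4i (mod 5)`, so no power of `±7 ± 24 i` is `≡ 0 (mod 5)` (Lean: integer pairs `(a_n, b_n)` with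
`(7+24i)^n = a_n + b_n i`; mod 5 the pair `(a, b) = (2, 4)` up to signs is reproduced up to a unit, induction).
-/

set_option autoImplicit false

namespace Pool.Bil

open MeasureTheory Set Filter Topology Complex
open scoped ENNReal

/-- the 3-4-5 triangle -/
noncomputable def T345 : Poly (Fin 3) where
  n := ![-1, -Complex.I, ⟨3 / 5, 4 / 5⟩]
  c := ![0, 0, 12 / 5]
  unit := by
    intro i
    fin_cases i
    · simp [dt]
    · simp [dt]
    · simp [dt]; norm_num

private theorem T345_dt0 (z : ℂ) : dt (T345.n 0) z = - z.re := by simp [T345, dt]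
private theorem T345_dt1 (z : ℂ) : dt (T345.n 1) z = - z.im := by simp [T345, dt]
private theorem T345_dt2 (z : ℂ) : dt (T345.n 2) z = 3 / 5 * z.re + 4 / 5 * z.im := by
  simp [T345, dt]
private theorem T345_c0 : T345.c 0 = 0 := by simp [T345]
private theorem T345_c1 : T345.c 1 = 0 := by simp [T345]
private theorem T345_c2 : T345.c 2 = 12 / 5 := by simp [T345]

theorem T345_dom : T345.dom = {z : ℂ | 0 < z.re ∧ 0 < z.im ∧ 3 * z.re + 4 * z.im < 12} := by
  ext z
  show (∀ i, dt (T345.n i) z < T345.c i) ↔ (0 < z.re ∧ 0 < z.im ∧ 3 * z.re + 4 * z.im < 12)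
  simp only [Fin.forall_fin_succ, Fin.succ_zero_eq_one,
    Fin.succ_one_eq_two, IsEmpty.forall_iff, and_true]
  rw [T345_dt0, T345_dt1, T345_dt2, T345_c0, T345_c1, T345_c2]
  constructor
  · rintro ⟨h, h1, h2⟩
    exact ⟨by linarith, by linarith, by linarith⟩
  · rintro ⟨h, h1, h2⟩
    exact ⟨by linarith, by linarith, by linarith⟩

private theorem T345_line0 {z : ℂ} (h : z ∈ T345.line 0) : z.re = 0 := by
  have h1 : dt (T345.n 0) z = T345.c 0 := h
  rw [T345_dt0, T345_c0] at h1
  linarith
private theorem T345_line1 {z : ℂ} (h : z ∈ T345.line 1) : z.im = 0 := by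
  have h1 : dt (T345.n 1) z = T345.c 1 := h
  rw [T345_dt1, T345_c1] at h1
  linarith
private theorem T345_line2 {z : ℂ} (h : z ∈ T345.line 2) : 3 * z.re + 4 * z.im = 12 := by
  have h1 : dt (T345.n 2) z = T345.c 2 := h
  rw [T345_dt2, T345_c2] at h1
  linarith

theorem T345_corner : T345.corner.Countable := by
  have hfin : ({0, 4, 3 * Complex.I} : Set ℂ).Finite := by simp
  refine hfin.countable.mono ?_
  rintro z ⟨i, j, hij, hi, hj⟩
  have key : ∀ i j : Fin 3, i < j → z ∈ T345.line i → z ∈ T345.line j →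
      z ∈ ({0, 4, 3 * Complex.I} : Set ℂ) := by
    intro i j hij hi hj
    simp only [mem_insert_iff, mem_singleton_iff]
    fin_cases i <;> fin_cases j
    · exact absurd hij (by decide)
    · left
      exact Complex.ext (by simpa using T345_line0 hi) (by simpa using T345_line1 hj)
    · right; right
      have h1 := T345_line0 hi
      have h2 := T345_line2 hj
      refine Complex.ext (by simpa using h1) ?_
      have : z.im = 3 := by rw [h1] at h2; linarith
      simpa using this
    · exact absurd hij (by decide)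
    · exact absurd hij (by decide)
    · right; left
      have h1 := T345_line1 hi
      have h2 := T345_line2 hj
      refine Complex.ext ?_ (by simpa using h1)
      have : z.re = 4 := by rw [h1] at h2; linarith
      simpa using this
    · exact absurd hij (by decide)
    · exact absurd hij (by decide)
    · exact absurd hij (by decide)
  rcases lt_or_gt_of_ne hij with h | h
  · exact key i j h hi hj
  · exact key j i h hj hi

theorem T345_side (i : Fin 3) : (T345.side i).Nonempty := by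
  fin_cases i
  · refine ⟨⟨0, 1⟩, ?_, ?_⟩
    · show dt (T345.n 0) _ = T345.c 0
      rw [T345_dt0, T345_c0]; simp
    · intro j hj
      fin_cases j
      · exact absurd rfl hj
      · show dt (T345.n 1) _ < T345.c 1
        rw [T345_dt1, T345_c1]; norm_num
      · show dt (T345.n 2) _ < T345.c 2
        rw [T345_dt2, T345_c2]; norm_num
  · refine ⟨⟨1, 0⟩, ?_, ?_⟩
    · show dt (T345.n 1) _ = T345.c 1
      rw [T345_dt1, T345_c1]; simp
    · intro j hj
      fin_cases j
      · show dt (T345.n 0) _ < T345.c 0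
        rw [T345_dt0, T345_c0]; norm_num
      · exact absurd rfl hj
      · show dt (T345.n 2) _ < T345.c 2
        rw [T345_dt2, T345_c2]; norm_num
  · refine ⟨⟨2, 3 / 2⟩, ?_, ?_⟩
    · show dt (T345.n 2) _ = T345.c 2
      rw [T345_dt2, T345_c2]; norm_num
    · intro j hj
      fin_cases j
      · show dt (T345.n 0) _ < T345.c 0
        rw [T345_dt0, T345_c0]; norm_num
      · show dt (T345.n 1) _ < T345.c 1
        rw [T345_dt1, T345_c1]; norm_num
      · exact absurd rfl hj

theorem T345_fin : volume T345.dom ≠ ∞ := by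
  have hsub : T345.dom ⊆ Metric.ball (0 : ℂ) 8 := by
    intro z hz
    rw [T345_dom] at hz
    obtain ⟨h0, h1, h2⟩ := hz
    rw [mem_ball_zero_iff]
    have h3 := Complex.norm_le_abs_re_add_abs_im z
    rw [abs_of_pos h0, abs_of_pos h1] at h3
    linarith
  exact (Metric.isBounded_ball.subset hsub).measure_lt_top.ne

private theorem T345_pow (n : ℕ) : ∃ a b : ℤ, (7 + 24 * Complex.I) ^ (n + 1) = (a : ℂ) + (b : ℂ) * Complex.I ∧
    ((a % 5 = 2 ∧ b % 5 = 4) ∨ (a % 5 = 3 ∧ b % 5 = 1)) := by
  induction n with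
  | zero => exact ⟨7, 24, by simp, Or.inl ⟨by norm_num, by norm_num⟩⟩
  | succ n ih =>
    obtain ⟨a, b, h, hab⟩ := ih
    refine ⟨7 * a - 24 * b, 24 * a + 7 * b, ?_, ?_⟩
    · rw [pow_succ, h]
      push_cast
      have hI : Complex.I * Complex.I = -1 := Complex.I_mul_I
      linear_combination (24 * (b : ℂ)) * hI
    · omega

private theorem T345_dir_nsmul (θ : Dir) (n : ℕ) : dir (n • θ) = dir θ ^ n := by
  induction n with
  | zero => simp [dir]
  | succ n ih => rw [succ_nsmul, dir_add, ih, pow_succ]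

theorem T345_ord : addOrderOf (T345.ang 1 - T345.ang 2) = 0 := by
  by_contra hne
  set θ : Dir := T345.ang 1 - T345.ang 2 with hθ
  set N := addOrderOf θ with hN
  have h0 : N • θ = 0 := addOrderOf_nsmul_eq_zero θ
  have hd1 : dir (T345.ang 1) = 1 := by
    have h := (T345.exists_ang 1).choose_spec
    have h' : dir (T345.ang 1) = - (T345.n 1) ^ 2 := h
    rw [h']
    simp [T345]
  have hd2 : dir (T345.ang 2) = (7 - 24 * Complex.I) / 25 := by
    have h := (T345.exists_ang 2).choose_spec
    have h' : dir (T345.ang 2) = - (T345.n 2) ^ 2 := h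
    rw [h']
    have h2 : T345.n 2 = (⟨3 / 5, 4 / 5⟩ : ℂ) := by simp [T345]
    rw [h2]
    apply Complex.ext
    · simp [pow_two]; norm_num
    · simp [pow_two]; norm_num
  have hd : dir θ = (7 + 24 * Complex.I) / 25 := by
    rw [hθ, sub_eq_add_neg, dir_add, dir_neg, hd1, hd2, one_mul]
    have h7 : (starRingEnd ℂ) 7 = 7 := map_ofNat _ 7
    have h24 : (starRingEnd ℂ) 24 = 24 := map_ofNat _ 24
    have h25 : (starRingEnd ℂ) 25 = 25 := map_ofNat _ 25
    simp [h7, h24, h25]
  have h1 : ((7 + 24 * Complex.I) / 25) ^ N = 1 := by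
    rw [← hd, ← T345_dir_nsmul, h0]
    simp [dir]
  have h2 : (7 + 24 * Complex.I) ^ N = (25 : ℂ) ^ N := by
    rw [div_pow, div_eq_one_iff_eq (pow_ne_zero _ (by norm_num))] at h1
    exact h1
  obtain ⟨m, hm⟩ := Nat.exists_eq_succ_of_ne_zero hne
  rw [hm, Nat.succ_eq_add_one] at h2
  obtain ⟨a, b, hab, hc⟩ := T345_pow m
  rw [hab] at h2
  have h3 : (a : ℝ) = (25 : ℝ) ^ (m + 1) := by
    have h4 := congrArg Complex.re h2
    have h5 : ((25 : ℂ) ^ (m + 1)) = (((25 : ℝ) ^ (m + 1) : ℝ) : ℂ) := by push_cast; rfl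
    rw [h5, Complex.ofReal_re] at h4
    simpa using h4
  have h4 : a = 25 ^ (m + 1) := by exact_mod_cast h3
  have h5 : (5 : ℤ) ∣ a := by
    rw [h4, pow_succ]
    exact Dvd.dvd.mul_left (by norm_num) _
  omega

end Pool.Bil
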