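import Pool.Agent.Lib.MP_0fc3df_an.Meas

/-!
# BIL-TransA: L¹ continuity of shears; almost everywhere on compact subsets

`tendsto_shear`: approximate `f` in `L¹` by continuous functions with compact support
(`Integrable.exists_hasCompactSupport_lintegral_sub_le`), shears preserve the measure (`measurePreserving_shear`); dominated
convergence for continuous `g` with compact support (all the functions `g ∘ shear_r`, `|r - s| ≤ 1`, are supported in one compact set).
`ae_of_compact`: inner regularity (`MeasurableSet.exists_isCompact_lt_add` or `MeasurableSet.exists_isCompact_diff_lt`).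
-/

set_option autoImplicit false

namespace Pool.Bil

open MeasureTheory Set Filter Topology Complex
open scoped ENNReal

private theorem mp_shear (r : ℝ) :
    MeasurePreserving (fun p : ℂ × Dir => (p.1 - (r : ℂ) * (Complex.I * dir p.2), p.2)) volume volume := by
  have h := Poly.measurePreserving_shear (a := fun θ : Dir => - ((r : ℂ) * (Complex.I * dir θ)))
    ((continuous_const.mul (continuous_const.mul continuous_dir)).neg)
  have he : (fun p : ℂ × Dir => (p.1 + - ((r : ℂ) * (Complex.I * dir p.2)), p.2)) =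
      fun p : ℂ × Dir => (p.1 - (r : ℂ) * (Complex.I * dir p.2), p.2) := by
    funext p
    rw [sub_eq_add_neg]
  rw [← he]
  exact h

private theorem cont_shear :
    Continuous (fun q : ℝ × (ℂ × Dir) => (q.2.1 - (q.1 : ℂ) * (Complex.I * dir q.2.2), q.2.2)) := by
  refine Continuous.prodMk ?_ (continuous_snd.comp continuous_snd)
  refine (continuous_fst.comp continuous_snd).sub ?_
  refine (Complex.continuous_ofReal.comp continuous_fst).mul (continuous_const.mul ?_)
  exact continuous_dir.comp (continuous_snd.comp continuous_snd)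

private theorem tendsto_shear_cont {g : ℂ × Dir → ℝ} (hg : Continuous g) (hc : HasCompactSupport g) (s : ℝ) :
    Tendsto (fun r : ℝ => ∫⁻ p : ℂ × Dir, ‖g (p.1 - (r : ℂ) * (Complex.I * dir p.2), p.2)
      - g (p.1 - (s : ℂ) * (Complex.I * dir p.2), p.2)‖ₑ) (𝓝 s) (𝓝 0) := by
  obtain ⟨C, hC⟩ := hc.exists_bound_of_continuous hg
  obtain ⟨R, hR⟩ := hc.isCompact.isBounded.subset_closedBall (0 : ℂ × Dir)
  set S : Set (ℂ × Dir) := Metric.closedBall (0 : ℂ) (R + |s| + 1) ×ˢ (Set.univ : Set Dir) with hS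
  have hSm : MeasurableSet S := Metric.isClosed_closedBall.measurableSet.prod MeasurableSet.univ
  have hSfin : volume S ≠ ∞ := by
    have : IsCompact S := (isCompact_closedBall _ _).prod isCompact_univ
    exact this.measure_lt_top.ne
  have hzero : ∀ r : ℝ, |r - s| ≤ 1 → ∀ p : ℂ × Dir, p ∉ S → g (p.1 - (r : ℂ) * (Complex.I * dir p.2), p.2) = 0 := by
    intro r hr p hp
    by_contra hne
    apply hp
    have h1 := hR (subset_closure (Function.mem_support.mpr hne))
    rw [Metric.mem_closedBall, Prod.dist_eq] at h1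
    have h2 : dist (p.1 - (r : ℂ) * (Complex.I * dir p.2)) 0 ≤ R := (le_max_left _ _).trans h1
    rw [dist_zero_right] at h2
    refine ⟨?_, Set.mem_univ _⟩
    rw [Metric.mem_closedBall, dist_zero_right]
    have h3 : p.1 = (p.1 - (r : ℂ) * (Complex.I * dir p.2)) + (r : ℂ) * (Complex.I * dir p.2) := by ring
    have h4 : ‖(r : ℂ) * (Complex.I * dir p.2)‖ = |r| := by
      rw [norm_mul, norm_mul, norm_dir, Complex.norm_I, Complex.norm_real, mul_one, mul_one, Real.norm_eq_abs]
    have h5 : |r| ≤ |s| + 1 := by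
      have := abs_sub_abs_le_abs_sub r s
      linarith
    calc ‖p.1‖ = ‖(p.1 - (r : ℂ) * (Complex.I * dir p.2)) + (r : ℂ) * (Complex.I * dir p.2)‖ := by rw [← h3]
      _ ≤ ‖p.1 - (r : ℂ) * (Complex.I * dir p.2)‖ + ‖(r : ℂ) * (Complex.I * dir p.2)‖ := norm_add_le _ _
      _ ≤ R + |s| + 1 := by rw [h4]; linarith
  have hlim : Tendsto (fun r : ℝ => ∫⁻ p : ℂ × Dir, ‖g (p.1 - (r : ℂ) * (Complex.I * dir p.2), p.2)
      - g (p.1 - (s : ℂ) * (Complex.I * dir p.2), p.2)‖ₑ) (𝓝 s) (𝓝 (∫⁻ _ : ℂ × Dir, (0 : ℝ≥0∞))) := by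
    refine tendsto_lintegral_filter_of_dominated_convergence (S.indicator fun _ => ENNReal.ofReal (C + C)) ?_ ?_ ?_ ?_
    · refine Eventually.of_forall fun r => ?_
      refine Measurable.enorm ?_
      have h1 : Continuous (fun p : ℂ × Dir => g (p.1 - (r : ℂ) * (Complex.I * dir p.2), p.2)) :=
        hg.comp (cont_shear.comp (Continuous.prodMk continuous_const continuous_id))
      have h2 : Continuous (fun p : ℂ × Dir => g (p.1 - (s : ℂ) * (Complex.I * dir p.2), p.2)) :=
        hg.comp (cont_shear.comp (Continuous.prodMk continuous_const continuous_id))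
      exact (h1.sub h2).measurable
    · have hev : ∀ᶠ r : ℝ in 𝓝 s, |r - s| ≤ 1 := by
        have := Metric.closedBall_mem_nhds s (zero_lt_one' ℝ)
        filter_upwards [this] with r hr
        rwa [Metric.mem_closedBall, Real.dist_eq] at hr
      filter_upwards [hev] with r hr
      refine Eventually.of_forall fun p => ?_
      by_cases hp : p ∈ S
      · rw [Set.indicator_of_mem hp, ← ofReal_norm]
        exact ENNReal.ofReal_le_ofReal ((norm_sub_le _ _).trans (add_le_add (hC _) (hC _)))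
      · rw [Set.indicator_of_notMem hp, hzero r hr p hp, hzero s (by simp) p hp]
        simp
    · rw [lintegral_indicator_const hSm]
      exact ENNReal.mul_ne_top ENNReal.ofReal_ne_top hSfin
    · refine Eventually.of_forall fun p => ?_
      have h1 : Continuous (fun r : ℝ => ‖g (p.1 - (r : ℂ) * (Complex.I * dir p.2), p.2)
          - g (p.1 - (s : ℂ) * (Complex.I * dir p.2), p.2)‖ₑ) := by
        refine Continuous.enorm ?_
        refine Continuous.sub ?_ continuous_const
        exact hg.comp (cont_shear.comp (Continuous.prodMk continuous_id continuous_const))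
      have h2 := h1.tendsto s
      simpa using h2
  simpa using hlim

theorem tendsto_shear {f : ℂ × Dir → ℝ} (hf : Integrable f) (s : ℝ) :
    Tendsto (fun r : ℝ => ∫⁻ p : ℂ × Dir, ‖f (p.1 - (r : ℂ) * (Complex.I * dir p.2), p.2)
      - f (p.1 - (s : ℂ) * (Complex.I * dir p.2), p.2)‖ₑ) (𝓝 s) (𝓝 0) := by
  rw [ENNReal.tendsto_nhds_zero]
  intro ε hε
  have h3 : ε / 3 ≠ 0 := (ENNReal.div_pos hε.ne' (by simp)).ne'
  obtain ⟨g, hgc, hg1, hgcont, hgi⟩ := hf.exists_hasCompactSupport_lintegral_sub_le h3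
  have hlim := tendsto_shear_cont hgcont hgc s
  rw [ENNReal.tendsto_nhds_zero] at hlim
  have hpos : 0 < ε / 3 := pos_iff_ne_zero.mpr h3
  have hfg : AEMeasurable (fun p : ℂ × Dir => ‖f p - g p‖ₑ) volume :=
    (hf.aestronglyMeasurable.sub hgi.aestronglyMeasurable).enorm
  have key : ∀ r : ℝ, ∫⁻ p : ℂ × Dir, ‖f (p.1 - (r : ℂ) * (Complex.I * dir p.2), p.2)
      - g (p.1 - (r : ℂ) * (Complex.I * dir p.2), p.2)‖ₑ ≤ ε / 3 := by
    intro r
    have h4 : ∫⁻ p : ℂ × Dir, ‖f p - g p‖ₑ = ∫⁻ p : ℂ × Dir, ‖f (p.1 - (r : ℂ) * (Complex.I * dir p.2), p.2)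
      - g (p.1 - (r : ℂ) * (Complex.I * dir p.2), p.2)‖ₑ := by
      have hmp := mp_shear r
      conv_lhs => rw [← hmp.map_eq]
      rw [lintegral_map' (by rw [hmp.map_eq]; exact hfg) hmp.measurable.aemeasurable]
    rw [← h4]
    exact hg1
  have hmeas : ∀ r : ℝ, AEMeasurable (fun p : ℂ × Dir => ‖f (p.1 - (r : ℂ) * (Complex.I * dir p.2), p.2)
      - g (p.1 - (r : ℂ) * (Complex.I * dir p.2), p.2)‖ₑ) volume := by
    intro r
    exact hfg.comp_quasiMeasurePreserving (mp_shear r).quasiMeasurePreserving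
  filter_upwards [hlim (ε / 3) hpos] with r hr
  calc ∫⁻ p : ℂ × Dir, ‖f (p.1 - (r : ℂ) * (Complex.I * dir p.2), p.2)
      - f (p.1 - (s : ℂ) * (Complex.I * dir p.2), p.2)‖ₑ
      ≤ ∫⁻ p : ℂ × Dir, ((‖f (p.1 - (r : ℂ) * (Complex.I * dir p.2), p.2)
      - g (p.1 - (r : ℂ) * (Complex.I * dir p.2), p.2)‖ₑ + ‖f (p.1 - (s : ℂ) * (Complex.I * dir p.2), p.2)
      - g (p.1 - (s : ℂ) * (Complex.I * dir p.2), p.2)‖ₑ) + ‖g (p.1 - (r : ℂ) * (Complex.I * dir p.2), p.2)
      - g (p.1 - (s : ℂ) * (Complex.I * dir p.2), p.2)‖ₑ) := by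
        refine lintegral_mono fun p => ?_
        set a := f (p.1 - (r : ℂ) * (Complex.I * dir p.2), p.2)
        set b := f (p.1 - (s : ℂ) * (Complex.I * dir p.2), p.2)
        set c := g (p.1 - (r : ℂ) * (Complex.I * dir p.2), p.2)
        set d := g (p.1 - (s : ℂ) * (Complex.I * dir p.2), p.2)
        have h5 : a - b = ((a - c) + -(b - d)) + (c - d) := by ring
        rw [h5]
        refine (enorm_add_le _ _).trans (add_le_add ?_ le_rfl)
        refine (enorm_add_le _ _).trans ?_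
        rw [enorm_neg]
    _ = ((∫⁻ p : ℂ × Dir, ‖f (p.1 - (r : ℂ) * (Complex.I * dir p.2), p.2)
      - g (p.1 - (r : ℂ) * (Complex.I * dir p.2), p.2)‖ₑ) + (∫⁻ p : ℂ × Dir, ‖f (p.1 - (s : ℂ) * (Complex.I * dir p.2), p.2)
      - g (p.1 - (s : ℂ) * (Complex.I * dir p.2), p.2)‖ₑ)) + ∫⁻ p : ℂ × Dir, ‖g (p.1 - (r : ℂ) * (Complex.I * dir p.2), p.2)
      - g (p.1 - (s : ℂ) * (Complex.I * dir p.2), p.2)‖ₑ := by
        have e1 := lintegral_add_left' ((hmeas r).add (hmeas s)) (fun p : ℂ × Dir => ‖g (p.1 - (r : ℂ) * (Complex.I * dir p.2), p.2)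
          - g (p.1 - (s : ℂ) * (Complex.I * dir p.2), p.2)‖ₑ)
        have e2 := lintegral_add_left' (hmeas r) (fun p : ℂ × Dir => ‖f (p.1 - (s : ℂ) * (Complex.I * dir p.2), p.2)
          - g (p.1 - (s : ℂ) * (Complex.I * dir p.2), p.2)‖ₑ)
        simp only [Pi.add_apply] at e1
        rw [e2] at e1
        exact e1
    _ ≤ (ε / 3 + ε / 3) + ε / 3 := add_le_add (add_le_add (key r) (key s)) hr
    _ = ε := ENNReal.add_thirds ε

theorem ae_of_compact {E : Set (ℂ × Dir)} (hE : MeasurableSet E) (hfin : volume E ≠ ∞) {Q : ℂ × Dir → Prop}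
    (h : ∀ K ⊆ E, IsCompact K → ∀ᵐ p : ℂ × Dir ∂(volume.restrict K), Q p) : ∀ᵐ p : ℂ × Dir ∂(volume.restrict E), Q p := by
  rw [ae_restrict_iff' hE, ae_iff]
  refine le_antisymm (ENNReal.le_of_forall_pos_le_add fun ε hε _ => ?_) zero_le
  have hε' : (ε : ℝ≥0∞) ≠ 0 := by exact_mod_cast hε.ne'
  obtain ⟨K, hKE, hK, hlt⟩ := hE.exists_isCompact_sdiff_lt hfin hε'
  have hKm : MeasurableSet K := hK.measurableSet
  have h1 := h K hKE hK
  rw [ae_restrict_iff' hKm, ae_iff] at h1
  have hsub : {a : ℂ × Dir | ¬ (a ∈ E → Q a)} ⊆ {a | ¬ (a ∈ K → Q a)} ∪ (E \ K) := by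
    intro p hp
    simp only [Set.mem_ofPred_eq, Classical.not_imp] at hp
    by_cases hpK : p ∈ K
    · left
      simp only [Set.mem_ofPred_eq, Classical.not_imp]
      exact ⟨hpK, hp.2⟩
    · right
      exact ⟨hp.1, hpK⟩
  calc volume {a : ℂ × Dir | ¬ (a ∈ E → Q a)} ≤ volume ({a : ℂ × Dir | ¬ (a ∈ K → Q a)} ∪ (E \ K)) := measure_mono hsub
    _ ≤ volume {a : ℂ × Dir | ¬ (a ∈ K → Q a)} + volume (E \ K) := measure_union_le _ _
    _ ≤ 0 + ε := by rw [h1]; exact add_le_add le_rfl hlt.le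

end Pool.Bil
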