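import Pool.Agent.Lib.MP_0fc3df_an.Dirs
import Pool.Agent.Lib.MP_0fc3df_an.FlowMeas
import Pool.Agent.Lib.MP_0fc3df_an.TransA

/-!
# BIL-Trans: `liminf W(r)/r = 0` implies invariance under translations orthogonal to the direction

`trans_inv`, `s ≥ 0` first: `E = {p | p.1 ∈ dom, p.1 - s i dir p.2 ∈ dom, p.2 ∉ badDir}` is measurable and of finite measure, so it is enough to
prove the claim a.e. on every compact `C ⊆ E` (`ae_of_compact`).  `C' = {(x - σ i dir θ, θ) | (x, θ) ∈ C, 0 ≤ σ ≤ s}` is compact and in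
`dom × badDirᶜ` (convexity).  For `ε > 0` there are arbitrarily small `r > 0` with `Wv f C' r ≤ ε r` (`hW`);
`n = ⌊s / r⌋`: `Wv f C (n r) ≤ ∑_{k < n} ∫_C |f (x - (k+1) r i v, θ) - f (x - k r i v, θ)| ≤ n Wv f C' r ≤ ε s`; let `r → 0`
(`tendsto_shear`): `Wv f C s ≤ ε s` for all `ε`.  `s < 0`: substitute.
-/

set_option autoImplicit false

namespace Pool.Bil

open MeasureTheory Set Filter Topology Complex
open scoped ENNReal

/-- the shear -/
private noncomputable def sh (r : ℝ) (p : ℂ × Dir) : ℂ × Dir := (p.1 - (r : ℂ) * (Complex.I * dir p.2), p.2)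

private theorem continuous_sh2 : Continuous fun q : ℝ × (ℂ × Dir) => sh q.1 q.2 := by
  unfold sh
  have h1 : Continuous fun q : ℝ × (ℂ × Dir) => dir q.2.2 := continuous_dir.comp (by fun_prop)
  have h2 : Continuous fun q : ℝ × (ℂ × Dir) => (q.1 : ℂ) := Complex.continuous_ofReal.comp (by fun_prop)
  fun_prop

private theorem continuous_sh (r : ℝ) : Continuous (sh r) :=
  continuous_sh2.comp (by fun_prop : Continuous fun p : ℂ × Dir => (r, p))

private theorem sh_sh (r s : ℝ) (p : ℂ × Dir) : sh r (sh s p) = sh (r + s) p := by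
  unfold sh
  ext
  · simp only
    push_cast
    ring
  · rfl

private theorem sh_zero (p : ℂ × Dir) : sh 0 p = p := by
  unfold sh
  simp

private noncomputable def shH (r : ℝ) : (ℂ × Dir) ≃ₜ (ℂ × Dir) where
  toFun := sh r
  invFun := sh (-r)
  left_inv p := by rw [sh_sh, neg_add_cancel, sh_zero]
  right_inv p := by rw [sh_sh, add_neg_cancel, sh_zero]
  continuous_toFun := continuous_sh r
  continuous_invFun := continuous_sh (-r)

private theorem sh_emb (r : ℝ) : MeasurableEmbedding (sh r) := (shH r).toMeasurableEquiv.measurableEmbedding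

private theorem sh_mp (r : ℝ) : MeasurePreserving (sh r) volume volume := by
  have h := Poly.measurePreserving_shear (a := fun θ : Dir => -((r : ℂ) * (Complex.I * dir θ)))
    (by
      have := continuous_dir
      fun_prop)
  have he : sh r = fun p : ℂ × Dir => (p.1 + -((r : ℂ) * (Complex.I * dir p.2)), p.2) := by
    funext p
    unfold sh
    rw [sub_eq_add_neg]
  rw [he]
  exact h

private theorem aem {f : ℂ × Dir → ℝ} (hf : Integrable f) (r s : ℝ) (K : Set (ℂ × Dir)) :
    AEMeasurable (fun p => ‖f (sh r p) - f (sh s p)‖ₑ) (volume.restrict K) := by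
  have h1 : AEStronglyMeasurable (fun p => f (sh r p)) volume :=
    hf.aestronglyMeasurable.comp_quasiMeasurePreserving (sh_mp r).quasiMeasurePreserving
  have h2 : AEStronglyMeasurable (fun p => f (sh s p)) volume :=
    hf.aestronglyMeasurable.comp_quasiMeasurePreserving (sh_mp s).quasiMeasurePreserving
  exact (h1.sub h2).enorm.restrict

private theorem aem0 {f : ℂ × Dir → ℝ} (hf : Integrable f) (r : ℝ) (K : Set (ℂ × Dir)) :
    AEMeasurable (fun p => ‖f (sh r p) - f p‖ₑ) (volume.restrict K) := by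
  have := aem hf r 0 K
  simpa only [sh_zero] using this

private theorem Wv_eq (f : ℂ × Dir → ℝ) (K : Set (ℂ × Dir)) (r : ℝ) :
    Wv f K r = ∫⁻ p in K, ‖f (sh r p) - f p‖ₑ := rfl

private theorem tri {f : ℂ × Dir → ℝ} (hf : Integrable f) (r s : ℝ) (K : Set (ℂ × Dir)) :
    Wv f K r ≤ (∫⁻ p in K, ‖f (sh r p) - f (sh s p)‖ₑ) + Wv f K s := by
  rw [Wv_eq, Wv_eq, ← lintegral_add_left' (aem hf r s K)]
  refine lintegral_mono fun p => ?_
  have : f (sh r p) - f p = (f (sh r p) - f (sh s p)) + (f (sh s p) - f p) := by ring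
  rw [this]
  exact enorm_add_le _ _

private theorem Wv_mul {f : ℂ × Dir → ℝ} (hf : Integrable f) {C C' : Set (ℂ × Dir)} {r : ℝ} (n : ℕ)
    (h : ∀ m : ℕ, m < n → ∀ p ∈ C, sh ((m : ℝ) * r) p ∈ C') :
    Wv f C ((n : ℝ) * r) ≤ n * Wv f C' r := by
  induction n with
  | zero =>
    rw [Wv_eq]
    simp [sh_zero]
  | succ n ih =>
    have h1 := ih fun m hm => h m (by omega)
    refine (tri hf _ ((n : ℝ) * r) C).trans ?_
    have h2 : (∫⁻ p in C, ‖f (sh (((n + 1 : ℕ) : ℝ) * r) p) - f (sh ((n : ℝ) * r) p)‖ₑ) ≤ Wv f C' r := by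
      have e : ∀ p, sh (((n + 1 : ℕ) : ℝ) * r) p = sh r (sh ((n : ℝ) * r) p) := by
        intro p
        rw [sh_sh]
        congr 1
        push_cast
        ring
      simp only [e]
      have h3 := (sh_mp ((n : ℝ) * r)).setLIntegral_comp_preimage_emb (sh_emb _)
        (fun q => ‖f (sh r q) - f q‖ₑ) C'
      rw [Wv_eq, ← h3]
      exact lintegral_mono_set fun p hp => h n (by omega) p hp
    calc _ ≤ Wv f C' r + n * Wv f C' r := add_le_add h2 h1
      _ = _ := by push_cast; ring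

private theorem tendsto_floor {s : ℝ} (hs : 0 ≤ s) :
    Tendsto (fun r : ℝ => (⌊s / r⌋₊ : ℝ) * r) (𝓝[>] 0) (𝓝 s) := by
  have h1 : Tendsto (fun r : ℝ => s - r) (𝓝[>] 0) (𝓝 s) := by
    have : Tendsto (fun r : ℝ => s - r) (𝓝 0) (𝓝 (s - 0)) :=
      (continuous_const.sub continuous_id).tendsto 0
    rw [sub_zero] at this
    exact this.mono_left nhdsWithin_le_nhds
  refine tendsto_of_tendsto_of_tendsto_of_le_of_le' h1 tendsto_const_nhds ?_ ?_
  · filter_upwards [self_mem_nhdsWithin] with r hr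
    have hr' : 0 < r := hr
    have h2 := Nat.lt_floor_add_one (s / r)
    rw [div_lt_iff₀ hr'] at h2
    nlinarith
  · filter_upwards [self_mem_nhdsWithin] with r hr
    have hr' : 0 < r := hr
    have h2 := Nat.floor_le (div_nonneg hs hr'.le)
    rwa [le_div_iff₀ hr'] at h2

private theorem dir_null {S : Set Dir} (hS : S.Countable) : volume S = 0 := by
  refine (measure_null_iff_singleton hS).2 fun x _ => ?_
  have hle : ∀ δ : ℝ, 0 < δ → volume ({x} : Set Dir) ≤ ENNReal.ofReal δ := by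
    intro δ hδ
    have h1 : volume ({x} : Set Dir) ≤ volume (Metric.closedBall x (δ / 2)) :=
      measure_mono (singleton_subset_iff.2 (Metric.mem_closedBall_self (by positivity)))
    rw [AddCircle.volume_closedBall] at h1
    refine h1.trans (ENNReal.ofReal_le_ofReal ?_)
    refine (min_le_right _ _).trans (le_of_eq ?_)
    ring
  by_contra hne
  have h0 : 0 < volume ({x} : Set Dir) := pos_iff_ne_zero.2 hne
  obtain ⟨q, hq0, hq1⟩ := ENNReal.lt_iff_exists_nnreal_btwn.1 h0
  have hq0' : (0 : ℝ) < q := by exact_mod_cast hq0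
  have := hle q hq0'
  rw [ENNReal.ofReal_coe_nnreal] at this
  exact absurd (lt_of_lt_of_le hq1 this) (lt_irrefl _)

namespace Poly

variable {ι : Type} [Finite ι] (P : Poly ι)

private theorem trans_inv_nonneg (hc : P.corner.Countable) (hfin : volume P.dom ≠ ∞) {f : ℂ × Dir → ℝ} (hf : Integrable f)
    (hW : ∀ K : Set (ℂ × Dir), IsCompact K → (∀ p ∈ K, p.1 ∈ P.dom ∧ p.2 ∉ P.badDir) → ∀ ε : ℝ, 0 < ε →
      ∃ᶠ r : ℝ in 𝓝[>] 0, Wv f K r ≤ ENNReal.ofReal (ε * r)) {s : ℝ} (hs : 0 ≤ s) :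
    ∀ᵐ p : ℂ × Dir, p.1 ∈ P.dom → (sh s p).1 ∈ P.dom → f (sh s p) = f p := by
  have hbm : MeasurableSet P.badDir := (P.badDir_countable hc).measurableSet
  set E : Set (ℂ × Dir) := {p | p.1 ∈ P.dom ∧ (sh s p).1 ∈ P.dom ∧ p.2 ∉ P.badDir} with hEdef
  have hE : MeasurableSet E := by
    have h1 : MeasurableSet {p : ℂ × Dir | p.1 ∈ P.dom} := (P.isOpen_dom.preimage continuous_fst).measurableSet
    have h2 : MeasurableSet {p : ℂ × Dir | (sh s p).1 ∈ P.dom} :=
      (P.isOpen_dom.preimage (continuous_fst.comp (continuous_sh s))).measurableSet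
    have h3 : MeasurableSet {p : ℂ × Dir | p.2 ∉ P.badDir} := (measurable_snd hbm).compl
    exact h1.inter (h2.inter h3)
  have hEf : volume E ≠ ∞ := by
    have hsub : E ⊆ P.dom ×ˢ (univ : Set Dir) := fun p hp => ⟨hp.1, mem_univ _⟩
    refine ne_top_of_le_ne_top ?_ (measure_mono hsub)
    rw [Measure.volume_eq_prod, Measure.prod_prod]
    exact ENNReal.mul_ne_top hfin (measure_ne_top _ _)
  have hmain : ∀ᵐ p : ℂ × Dir ∂(volume.restrict E), f (sh s p) = f p := by
    refine ae_of_compact hE hEf fun C hCE hC => ?_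
    set C' : Set (ℂ × Dir) := (fun q : ℝ × (ℂ × Dir) => sh q.1 q.2) '' (Icc 0 s ×ˢ C) with hC'def
    have hC' : IsCompact C' := (isCompact_Icc.prod hC).image continuous_sh2
    have hC'd : ∀ p ∈ C', p.1 ∈ P.dom ∧ p.2 ∉ P.badDir := by
      rintro _ ⟨⟨σ, p⟩, ⟨hσ, hp⟩, rfl⟩
      have hpE := hCE hp
      refine ⟨?_, hpE.2.2⟩
      have h1 := P.mem_dom_of_le (y := p.1) (w := -(Complex.I * dir p.2)) (a := s) (s := σ) hpE.1
        (by
          have := hpE.2.1
          unfold sh at this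
          simpa [sub_eq_add_neg] using this) hσ.1 hσ.2
      simpa [sh, sub_eq_add_neg] using h1
    have hzero : Wv f C s = 0 := by
      have hle : ∀ δ : ℝ, 0 < δ → Wv f C s ≤ ENNReal.ofReal δ := by
        intro δ hδ
        have hε : 0 < δ / (2 * (s + 1)) := by positivity
        have hfr := hW C' hC' hC'd _ hε
        have hev : ∀ᶠ r : ℝ in 𝓝[>] 0, (∫⁻ p : ℂ × Dir, ‖f (sh ((⌊s / r⌋₊ : ℝ) * r) p) - f (sh s p)‖ₑ)
            < ENNReal.ofReal (δ / 2) := by
          have h1 := (tendsto_shear hf s).comp (tendsto_floor hs)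
          have h2 : (0 : ℝ≥0∞) < ENNReal.ofReal (δ / 2) := by
            rw [ENNReal.ofReal_pos]
            positivity
          exact h1.eventually_lt_const h2
        have hpos : ∀ᶠ r : ℝ in 𝓝[>] 0, 0 < r := self_mem_nhdsWithin
        obtain ⟨r, hr1, hr2, hr3⟩ := (hfr.and_eventually (hev.and hpos)).exists
        have hfl := Nat.floor_le (div_nonneg hs hr3.le)
        rw [le_div_iff₀ hr3] at hfl
        have h4 : Wv f C ((⌊s / r⌋₊ : ℝ) * r) ≤ (⌊s / r⌋₊ : ℝ≥0∞) * Wv f C' r := by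
          refine Wv_mul hf _ fun m hm p hp => ?_
          refine ⟨((m : ℝ) * r, p), ⟨⟨by positivity, ?_⟩, hp⟩, rfl⟩
          refine le_trans ?_ hfl
          have : (m : ℝ) ≤ (⌊s / r⌋₊ : ℝ) := by exact_mod_cast hm.le
          nlinarith
        have h5 : (⌊s / r⌋₊ : ℝ≥0∞) * Wv f C' r ≤ ENNReal.ofReal (δ / 2) := by
          calc (⌊s / r⌋₊ : ℝ≥0∞) * Wv f C' r ≤ (⌊s / r⌋₊ : ℝ≥0∞) * ENNReal.ofReal (δ / (2 * (s + 1)) * r) :=
                mul_le_mul_right hr1 _
            _ = ENNReal.ofReal ((⌊s / r⌋₊ : ℝ) * (δ / (2 * (s + 1)) * r)) := by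
                rw [ENNReal.ofReal_mul (p := (⌊s / r⌋₊ : ℝ)) (by positivity), ENNReal.ofReal_natCast]
            _ ≤ ENNReal.ofReal (δ / 2) := by
                apply ENNReal.ofReal_le_ofReal
                have e1 : (⌊s / r⌋₊ : ℝ) * (δ / (2 * (s + 1)) * r) = δ / (2 * (s + 1)) * ((⌊s / r⌋₊ : ℝ) * r) := by ring
                rw [e1]
                have e2 : δ / (2 * (s + 1)) * ((⌊s / r⌋₊ : ℝ) * r) ≤ δ / (2 * (s + 1)) * (s + 1) :=
                  mul_le_mul_of_nonneg_left (by linarith) hε.le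
                refine e2.trans (le_of_eq ?_)
                field_simp
        have h6 : (∫⁻ p in C, ‖f (sh s p) - f (sh ((⌊s / r⌋₊ : ℝ) * r) p)‖ₑ) ≤ ENNReal.ofReal (δ / 2) := by
          refine le_trans ?_ hr2.le
          refine (lintegral_mono' Measure.restrict_le_self fun p => ?_)
          rw [← enorm_neg, neg_sub]
        calc Wv f C s ≤ _ := tri hf s ((⌊s / r⌋₊ : ℝ) * r) C
          _ ≤ ENNReal.ofReal (δ / 2) + ENNReal.ofReal (δ / 2) := add_le_add h6 (h4.trans h5)
          _ = ENNReal.ofReal δ := by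
            rw [← ENNReal.ofReal_add (by positivity) (by positivity)]
            congr 1
            ring
      by_contra hne
      have h0 : 0 < Wv f C s := pos_iff_ne_zero.2 hne
      obtain ⟨q, hq0, hq1⟩ := ENNReal.lt_iff_exists_nnreal_btwn.1 h0
      have hq0' : (0 : ℝ) < q := by exact_mod_cast hq0
      have := hle q hq0'
      rw [ENNReal.ofReal_coe_nnreal] at this
      exact absurd (lt_of_lt_of_le hq1 this) (lt_irrefl _)
    rw [Wv_eq, lintegral_eq_zero_iff' (aem0 hf s C)] at hzero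
    filter_upwards [hzero] with p hp
    have hp' : ‖f (sh s p) - f p‖ₑ = 0 := hp
    rw [enorm_eq_zero] at hp'
    exact sub_eq_zero.1 hp'
  have hbad : ∀ᵐ p : ℂ × Dir, p.2 ∉ P.badDir := by
    have h0 : ∀ᵐ θ : Dir, θ ∉ P.badDir := by
      exact measure_eq_zero_iff_ae_notMem.1 (dir_null (P.badDir_countable hc))
    have h1 : Measure.QuasiMeasurePreserving (Prod.snd : ℂ × Dir → Dir) volume volume :=
      Measure.quasiMeasurePreserving_snd
    exact h1.ae h0
  rw [ae_restrict_iff' hE] at hmain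
  filter_upwards [hmain, hbad] with p hp hb h1 h2
  exact hp ⟨h1, h2, hb⟩

theorem trans_inv (hc : P.corner.Countable) (hfin : volume P.dom ≠ ∞) {f : ℂ × Dir → ℝ} (hf : Integrable f)
    (hW : ∀ K : Set (ℂ × Dir), IsCompact K → (∀ p ∈ K, p.1 ∈ P.dom ∧ p.2 ∉ P.badDir) → ∀ ε : ℝ, 0 < ε →
      ∃ᶠ r : ℝ in 𝓝[>] 0, Wv f K r ≤ ENNReal.ofReal (ε * r)) (s : ℝ) :
    ∀ᵐ p : ℂ × Dir, p.1 ∈ P.dom → p.1 - (s : ℂ) * (Complex.I * dir p.2) ∈ P.dom →
      f (p.1 - (s : ℂ) * (Complex.I * dir p.2), p.2) = f p := by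
  rcases le_total 0 s with h | h
  · exact P.trans_inv_nonneg hc hfin hf hW h
  · have h1 := P.trans_inv_nonneg hc hfin hf hW (s := -s) (by linarith)
    have h2 := (sh_mp s).quasiMeasurePreserving.ae h1
    filter_upwards [h2] with p hp h3 h4
    have h5 := hp h4 (by rw [sh_sh, neg_add_cancel, sh_zero]; exact h3)
    rw [sh_sh, neg_add_cancel, sh_zero] at h5
    exact h5.symm

end Poly

end Pool.Bil
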