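import Pool.Agent.Lib.MP_0fc3df_an.Wc
import Pool.Agent.Lib.MP_0fc3df_an.Trans
import Pool.Agent.Lib.MP_0fc3df_an.Fib
import Pool.Agent.Lib.MP_0fc3df_an.Refl
import Pool.Agent.Lib.MP_0fc3df_an.Rot
import Pool.Agent.Lib.MP_0fc3df_an.T345

/-! # BIL-Main: invariant functions of finite variation in the direction are constant -/

set_option autoImplicit false

namespace Pool.Bil

open MeasureTheory Set Filter Topology Complex
open scoped ENNReal

namespace Poly

variable {ι : Type} [Finite ι] (P : Poly ι)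

omit [Finite ι] in
theorem convex_dom : Convex ℝ P.dom := by
  intro x hx y hy a b ha hb hab i
  have h1 := hx i
  have h2 := hy i
  have e : dt (P.n i) (a • x + b • y) = a * dt (P.n i) x + b * dt (P.n i) y := by
    rw [Complex.real_smul, Complex.real_smul, dt_add_right, dt_smul_right, dt_smul_right]
  rw [e]
  rcases eq_or_lt_of_le ha with h | h
  · subst h
    have : b = 1 := by linarith
    subst this; linarith
  · calc a * dt (P.n i) x + b * dt (P.n i) y < a * P.c i + b * P.c i := by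
          refine add_lt_add_of_lt_of_le (mul_lt_mul_of_pos_left h1 h) (mul_le_mul_of_nonneg_left h2.le hb)
      _ = P.c i := by rw [← add_mul, hab, one_mul]

theorem main (hc : P.corner.Countable) (hfin : volume P.dom ≠ ∞) (hne : P.dom.Nonempty) {f : ℂ × Dir → ℝ}
    (hf : Integrable f) (hi : P.Inv f) {C : ℝ} (hM : ∃ᶠ δ : ℝ in 𝓝[>] 0, Mv f δ ≤ ENNReal.ofReal (C * δ))
    {i j : ι} (hsi : (P.side i).Nonempty) (hsj : (P.side j).Nonempty) (hij : addOrderOf (P.ang i - P.ang j) = 0) :
    ∃ c : ℝ, ∀ᵐ p : ℂ × Dir, p.1 ∈ P.dom → f p = c := by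
  obtain ⟨g, hg, hfg⟩ := fib P.isOpen_dom P.convex_dom hne hfin hf (fun s => P.along hi s)
    (fun s => P.trans_inv hc hfin hf (fun K hK hKA ε hε => P.W_small hc hf.1 hi hM hK hKA hε) s)
  obtain ⟨c, hc'⟩ := rot_const hg (P.refl_inv hi hg hfg hsi) (P.refl_inv hi hg hfg hsj) hij
  refine ⟨c, ?_⟩
  have hq : ∀ᵐ p : ℂ × Dir, g p.2 = c :=
    (Measure.quasiMeasurePreserving_snd (μ := (volume : Measure ℂ)) (ν := (volume : Measure Dir))).ae hc'
  filter_upwards [hfg, hq] with p h1 h2 hp
  rw [h1 hp, h2]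

end Poly

end Pool.Bil
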