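import Pool.Agent.Lib.MP_0fc3df_an.Circ
import Pool.Agent.Lib.MP_0fc3df_an.Det

/-!
# BIL-Meas: the unfolded flow preserves area × arc length

`Psi L t (x, θ) = (fold L (x + t e^{iθ}), foldth L θ)`.
For fixed `θ` the map `x ↦ fold L (x + t e^{iθ})` is an isometry of the plane, and `foldth L` is `θ ↦ c ± θ`.
-/

set_option autoImplicit false

namespace Pool.Bil

open MeasureTheory Set Filter Topology Complex
open scoped ENNReal

namespace Poly

variable {ι : Type} (P : Poly ι)

/-- the unfolded flow -/
noncomputable def Psi (L : List ι) (t : ℝ) (p : ℂ × Dir) : ℂ × Dir :=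
  (P.fold L (p.1 + (t : ℂ) * dir p.2), P.foldth L p.2)

theorem continuous_Psi (L : List ι) (t : ℝ) : Continuous (P.Psi L t) := by
  unfold Psi
  exact ((P.continuous_fold L).comp (continuous_fst.add
    (continuous_const.mul (continuous_dir.comp continuous_snd)))).prodMk
    ((P.continuous_foldth L).comp continuous_snd)

theorem Psi_injective (L : List ι) (t : ℝ) : Function.Injective (P.Psi L t) := by
  rintro ⟨x, θ⟩ ⟨y, η⟩ h
  unfold Psi at h
  simp only [Prod.mk.injEq] at h
  have h1 := P.foldth_injective L h.2
  subst h1
  have h2 := P.fold_injective L h.1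
  rw [add_left_inj] at h2
  rw [h2]

/-- the linear part as a linear isometry -/
private noncomputable def lin (L : List ι) : ℂ ≃ₗᵢ[ℝ] ℂ where
  toFun := P.foldv L
  invFun := P.foldv L.reverse
  map_add' := P.foldv_add L
  map_smul' := fun r v => by
    simp only [Complex.real_smul, RingHom.id_apply]
    exact P.foldv_smul L v r
  left_inv := P.foldv_reverse_foldv L
  right_inv := P.foldv_foldv_reverse L
  norm_map' := P.norm_foldv L

theorem measurePreserving_fold (L : List ι) : MeasurePreserving (P.fold L) volume volume := by
  have h1 : MeasurePreserving (P.lin L) volume volume := (P.lin L).measurePreserving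
  have h2 : MeasurePreserving (fun z : ℂ => P.fold L 0 + z) volume volume :=
    measurePreserving_add_left volume _
  have h3 := h2.comp h1
  have e : P.fold L = (fun z : ℂ => P.fold L 0 + z) ∘ (P.lin L) := by
    funext z
    have := P.fold_add L 0 z
    rw [zero_add] at this
    exact this
  rw [e]
  exact h3

theorem measurePreserving_foldth (L : List ι) : MeasurePreserving (P.foldth L) volume volume := by
  induction L with
  | nil => exact MeasurePreserving.id _
  | cons i L ih => exact (Measure.measurePreserving_sub_left volume (P.ang i)).comp ih

/-- shears: `(x, θ) ↦ (x + a(θ), θ)` -/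
theorem measurePreserving_shear {a : Dir → ℂ} (ha : Continuous a) :
    MeasurePreserving (fun p : ℂ × Dir => (p.1 + a p.2, p.2)) volume volume := by
  have h1 : MeasurePreserving (fun q : Dir × ℂ => (q.1, q.2 + a q.1)) (volume.prod volume)
      (volume.prod volume) := by
    refine MeasurePreserving.skew_product (MeasurePreserving.id _) (g := fun θ x => x + a θ) ?_ ?_
    · exact (continuous_snd.add (ha.comp continuous_fst)).measurable
    · exact Filter.Eventually.of_forall fun θ => (measurePreserving_add_right volume (a θ)).map_eq
  have h2 : MeasurePreserving (Prod.swap : ℂ × Dir → Dir × ℂ) (volume.prod volume)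
      (volume.prod volume) := Measure.measurePreserving_swap
  have h3 : MeasurePreserving (Prod.swap : Dir × ℂ → ℂ × Dir) (volume.prod volume)
      (volume.prod volume) := Measure.measurePreserving_swap
  exact h3.comp (h1.comp h2)

theorem measurePreserving_Psi (L : List ι) (t : ℝ) : MeasurePreserving (P.Psi L t) volume volume := by
  have h1 := measurePreserving_shear (a := fun θ => (t : ℂ) * dir θ)
    (continuous_const.mul continuous_dir)
  have h2 : MeasurePreserving (Prod.map (P.fold L) (P.foldth L)) (volume.prod volume)
      (volume.prod volume) := (P.measurePreserving_fold L).prod (P.measurePreserving_foldth L)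
  exact h2.comp h1

/-- rotation of the direction -/
theorem measurePreserving_rot (η : Dir) :
    MeasurePreserving (fun p : ℂ × Dir => (p.1, p.2 + η)) volume volume := by
  have h1 : MeasurePreserving (Prod.map (id : ℂ → ℂ) (fun θ : Dir => θ + η)) (volume.prod volume)
      (volume.prod volume) := (MeasurePreserving.id _).prod (measurePreserving_add_right volume η)
  exact h1

end Poly

end Pool.Bil
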