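import Pool.Agent.Lib.MP_0fc3df_an.Meas

/-!
# BIL-MeasB: lines are null sets

`volume_line`: a line is a proper affine subspace (`Measure.addHaar_affineSubspace`), or: `line i` is the preimage of a vertical line under
an isometry (`z ↦ conj (n i) z` has real part `n i · z`), Fubini.
`ae_not_line`: for fixed `L`, `i` the set `{p | fold L (p.1 + t dir p.2) ∈ line i}` is the preimage of `line i ×ˢ univ` under the measure preserving
map `Psi L t`; countably many `(L, i)` (`ae_all_iff`).
-/

set_option autoImplicit false

namespace Pool.Bil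

open MeasureTheory Set Filter Topology Complex
open scoped ENNReal

namespace Poly

variable {ι : Type} (P : Poly ι)

/-- the scalar product with `n` as a linear map -/
private noncomputable def dtLm (n : ℂ) : ℂ →ₗ[ℝ] ℝ :=
  n.re • Complex.reLm + n.im • Complex.imLm

private theorem dtLm_apply (n z : ℂ) : dtLm n z = dt n z := by
  simp [dtLm, dt]

private theorem isClosed_line (i : ι) : IsClosed (P.line i) := by
  unfold line dt
  exact isClosed_eq (by fun_prop) continuous_const

/-- lines are null sets -/
theorem volume_line (i : ι) : volume (P.line i) = 0 := by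
  have hu := P.unit i
  let s : AffineSubspace ℝ ℂ := AffineSubspace.mk' (((P.c i : ℝ) : ℂ) * P.n i) (LinearMap.ker (dtLm (P.n i)))
  have hmem : ∀ z : ℂ, z ∈ s ↔ z ∈ P.line i := by
    intro z
    have h1 : z ∈ s ↔ z -ᵥ (((P.c i : ℝ) : ℂ) * P.n i) ∈ LinearMap.ker (dtLm (P.n i)) := AffineSubspace.mem_mk'
    rw [h1, LinearMap.mem_ker, dtLm_apply, vsub_eq_sub]
    unfold dt at hu
    unfold line dt
    simp only [sub_re, mul_re, ofReal_re, ofReal_im, zero_mul, sub_zero, sub_im, mul_im, add_zero, mem_setOf_eq]
    constructor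
    · intro h; linear_combination h + P.c i * hu
    · intro h; linear_combination h - P.c i * hu
  have hs : (s : Set ℂ) = P.line i := by
    ext z
    exact hmem z
  have hne : s ≠ ⊤ := by
    intro htop
    have h0 : (((P.c i + 1 : ℝ) : ℂ) * P.n i) ∈ s := by rw [htop]; exact AffineSubspace.mem_top ℝ ℂ _
    rw [hmem] at h0
    unfold dt at hu
    unfold line dt at h0
    simp only [mul_re, ofReal_re, ofReal_im, zero_mul, sub_zero, mul_im, add_zero, mem_setOf_eq] at h0
    have : (1 : ℝ) = 0 := by linear_combination h0 - (P.c i + 1) * hu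
    norm_num at this
  have := Measure.addHaar_affineSubspace (volume : Measure ℂ) s hne
  rwa [hs] at this

/-- at a fixed time almost no path is on a side -/
theorem ae_not_line [Countable ι] (t : ℝ) :
    ∀ᵐ p : ℂ × Dir, ∀ (L : List ι) (i : ι), P.fold L (p.1 + (t : ℂ) * dir p.2) ∉ P.line i := by
  rw [ae_all_iff]
  intro L
  rw [ae_all_iff]
  intro i
  have hmp := P.measurePreserving_Psi L t
  have hset : MeasurableSet (P.line i ×ˢ (univ : Set Dir)) :=
    (P.isClosed_line i).measurableSet.prod MeasurableSet.univ
  have h0 : (volume : Measure (ℂ × Dir)) (P.line i ×ˢ (univ : Set Dir)) = 0 := by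
    rw [Measure.volume_eq_prod, Measure.prod_prod, P.volume_line i, zero_mul]
  have h1 : (volume : Measure (ℂ × Dir)) (P.Psi L t ⁻¹' (P.line i ×ˢ (univ : Set Dir))) = 0 := by
    rw [hmp.measure_preimage hset.nullMeasurableSet, h0]
  rw [ae_iff]
  refine measure_mono_null ?_ h1
  intro p hp
  simp only [not_not, mem_setOf_eq] at hp
  exact ⟨hp, mem_univ _⟩

end Poly

end Pool.Bil
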