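import Pool.Agent.Lib.MP_0fc3df_an.Loc

/-!
# BIL-Pair: two nearby paths which meet at time `s` have the same itinerary up to time `s`

Proof by induction over `Fl x v T L`.
* `stay`: for `q` near `((x,v),(x,v))` all of `q.1.1`, `q.1.1 + T q.1.2`, `q.2.1`, `q.2.1 + T q.2.2` are in the open set `dom`,
  so `mem_dom_of_le` gives `Fl.stay` for both and every `0 ≤ s ≤ T`.
* `bounce` (at side `i`, `t < t + σ < T`): for `s ≤ t` use the induction hypothesis. Let `t < s ≤ T` and put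
  `z = fold L (q.1.1 + s q.1.2) = fold L (q.2.1 + s q.2.2)`; `z ∉ line i`. By `Fl.local` both `q.1`, `q.2` have itinerary `L` at `t`
  and `i :: L` at `T`; `cases` gives exit times `τ₁, τ₂` with `fold L (q.k.1 + τ_k q.k.2) ∈ side i`, and `t < τ_k < T` by `leg_dom`.
  If `n i · z < c i` then `s < τ_k` (the function `s ↦ n i · fold L (x + s v)` is increasing: it is `< c i` at `t`, `= c i` at
  `τ_k`), so `z ∈ dom` by `mem_dom_of_lt`, and `M = L` works (`Fl.extend`).
  If `n i · z > c i` then `τ_k < s`, and `rf i z ∈ dom` (convexity, from time `T` backwards to `τ_k`), so `M = i :: L` works.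
-/

set_option autoImplicit false

namespace Pool.Bil

open MeasureTheory Set Filter Topology Complex
open scoped ENNReal

namespace Poly

variable {ι : Type} [Finite ι] (P : Poly ι)

omit [Finite ι] in
private theorem pair_one {x v : ℂ} {t s T : ℝ} {L : List ι} {i : ι} (hF : P.Fl x v t L) (hT : P.Fl x v T (i :: L))
    (h1 : t < s) (h2 : s ≤ T) :
    (dt (P.n i) (P.fold L (x + (s : ℂ) * v)) < P.c i → P.Fl x v s L) ∧
      (P.c i < dt (P.n i) (P.fold L (x + (s : ℂ) * v)) → P.Fl x v s (i :: L)) := by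
  cases hT with
  | @bounce t2 _ s2 r2 _ _ hF2 hs2 hr2 he hz2 hd2 =>
    have hy := hF.mem P
    have hy2 := hF2.mem P
    have htau : t < t2 + s2 := by
      by_contra hcon
      exact P.not_dom_of_line hz2.1 (P.leg_dom hy2 hy (by linarith) (not_lt.1 hcon))
    have e : ∀ r : ℝ, P.fold L (x + (r : ℂ) * v) = P.fold L (x + (t : ℂ) * v) + ((r - t : ℝ) : ℂ) * P.foldv L v := by
      intro r; rw [← fold_line]; congr 3; push_cast; ring
    have hyi := hy i
    have hz1 : dt (P.n i) (P.fold L (x + ((t2 + s2 : ℝ) : ℂ) * v)) = P.c i := hz2.1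
    have hz1' := hz1
    rw [e (t2 + s2), dt_add_right, dt_smul_right] at hz1'
    have hd : 0 < dt (P.n i) (P.foldv L v) := by
      by_contra hcon
      have : (t2 + s2 - t) * dt (P.n i) (P.foldv L v) ≤ 0 :=
        mul_nonpos_of_nonneg_of_nonpos (by linarith) (not_lt.1 hcon)
      linarith
    refine ⟨fun h => ?_, fun h => ?_⟩
    · have hs : s < t2 + s2 := by
        rw [e s, dt_add_right, dt_smul_right] at h
        by_contra hcon
        have : (t2 + s2 - t) * dt (P.n i) (P.foldv L v) ≤ (s - t) * dt (P.n i) (P.foldv L v) :=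
          mul_le_mul_of_nonneg_right (by linarith [not_lt.1 hcon]) hd.le
        linarith
      refine hF.extend P h1.le ?_
      rw [e s]
      refine P.mem_dom_of_lt (a := t2 + s2 - t) hy ?_ (by linarith) (by linarith)
      intro j
      rw [← e (t2 + s2)]
      exact P.side_le hz2 j
    · have hs : t2 + s2 < s := by
        rw [e s, dt_add_right, dt_smul_right] at h
        by_contra hcon
        have : (s - t) * dt (P.n i) (P.foldv L v) ≤ (t2 + s2 - t) * dt (P.n i) (P.foldv L v) :=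
          mul_le_mul_of_nonneg_right (by linarith [not_lt.1 hcon]) hd.le
        linarith
      have e' : ∀ r : ℝ, P.fold (i :: L) (x + (r : ℂ) * v)
          = P.fold (i :: L) (x + (T : ℂ) * v) + ((T - r : ℝ) : ℂ) * (- P.foldv (i :: L) v) := by
        intro r
        have := P.fold_line (i :: L) x v T (r - T)
        rw [show T + (r - T) = r by ring] at this
        rw [this]; push_cast; ring
      refine Fl.bounce (s := s2) (r := s - (t2 + s2)) hF2 hs2 (by linarith) (by ring) hz2 ?_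
      rw [e' s]
      refine P.mem_dom_of_lt (a := T - (t2 + s2)) hd2 ?_ (by linarith) (by linarith)
      intro j
      rw [← e' (t2 + s2), fold, P.rf_of_line hz2.1]
      exact P.side_le hz2 j

theorem Fl.pair {x v : ℂ} {T : ℝ} {L : List ι} (hx : x ∈ P.dom) (h : P.Fl x v T L) :
    ∀ᶠ q : (ℂ × ℂ) × (ℂ × ℂ) in 𝓝 ((x, v), (x, v)), ∀ s : ℝ, 0 ≤ s → s ≤ T →
      q.1.1 + (s : ℂ) * q.1.2 = q.2.1 + (s : ℂ) * q.2.2 →
      (∀ (M : List ι) (i : ι), P.fold M (q.1.1 + (s : ℂ) * q.1.2) ∉ P.line i) →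
      ∃ M, P.Fl q.1.1 q.1.2 s M ∧ P.Fl q.2.1 q.2.2 s M := by
  have L1 : ∀ {t : ℝ} {L : List ι}, P.Fl x v t L →
      ∀ᶠ q : (ℂ × ℂ) × (ℂ × ℂ) in 𝓝 ((x, v), (x, v)), P.Fl q.1.1 q.1.2 t L := by
    intro t L h
    have hcont : Tendsto (fun q : (ℂ × ℂ) × (ℂ × ℂ) => (q.1.1, q.1.2, t)) (𝓝 ((x, v), (x, v))) (𝓝 (x, v, t)) :=
      (by fun_prop : Continuous fun q : (ℂ × ℂ) × (ℂ × ℂ) => (q.1.1, q.1.2, t)).tendsto' _ _ rfl
    filter_upwards [hcont.eventually (Fl.local P h)] with q hq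
    exact hq (h.nonneg P)
  have L2 : ∀ {t : ℝ} {L : List ι}, P.Fl x v t L →
      ∀ᶠ q : (ℂ × ℂ) × (ℂ × ℂ) in 𝓝 ((x, v), (x, v)), P.Fl q.2.1 q.2.2 t L := by
    intro t L h
    have hcont : Tendsto (fun q : (ℂ × ℂ) × (ℂ × ℂ) => (q.2.1, q.2.2, t)) (𝓝 ((x, v), (x, v))) (𝓝 (x, v, t)) :=
      (by fun_prop : Continuous fun q : (ℂ × ℂ) × (ℂ × ℂ) => (q.2.1, q.2.2, t)).tendsto' _ _ rfl
    filter_upwards [hcont.eventually (Fl.local P h)] with q hq
    exact hq (h.nonneg P)
  induction h with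
  | @stay T h0 h1 =>
    have a1 : ∀ᶠ q : (ℂ × ℂ) × (ℂ × ℂ) in 𝓝 ((x, v), (x, v)), q.1.1 ∈ P.dom :=
      (continuous_fst.comp continuous_fst).continuousAt.eventually (P.isOpen_dom.mem_nhds hx)
    have a2 : ∀ᶠ q : (ℂ × ℂ) × (ℂ × ℂ) in 𝓝 ((x, v), (x, v)), q.2.1 ∈ P.dom :=
      (continuous_fst.comp continuous_snd).continuousAt.eventually (P.isOpen_dom.mem_nhds hx)
    filter_upwards [a1, a2, L1 (Fl.stay h0 h1), L2 (Fl.stay h0 h1)] with q q1 q2 q3 q4 s hs hsT _ _
    exact ⟨[], Fl.stay hs (P.mem_dom_of_le q1 (q3.mem P) hs hsT), Fl.stay hs (P.mem_dom_of_le q2 (q4.mem P) hs hsT)⟩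
  | @bounce t T s0 r0 i L hF hs hr ht hz hd ih =>
    have hT : P.Fl x v T (i :: L) := Fl.bounce hF hs hr ht hz hd
    filter_upwards [ih, L1 hF, L2 hF, L1 hT, L2 hT] with q qi q1 q2 q3 q4 s hs0 hsT hq hln
    rcases le_or_gt s t with h | h
    · exact qi s hs0 h hq hln
    · have hne : dt (P.n i) (P.fold L (q.1.1 + (s : ℂ) * q.1.2)) ≠ P.c i := hln L i
      have A := P.pair_one q1 q3 h hsT
      have B := P.pair_one q2 q4 h hsT
      rw [← hq] at B
      rcases lt_or_gt_of_ne hne with h' | h'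
      · exact ⟨L, A.1 h', B.1 h'⟩
      · exact ⟨i :: L, A.2 h', B.2 h'⟩

end Poly

end Pool.Bil
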