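import Pool.Agent.Lib.MP_0fc3df_an.FlowMeas
import Pool.Agent.Lib.MP_0fc3df_an.MeasB
import Pool.Agent.Lib.MP_0fc3df_an.Pair

/-!
# BIL-Shear: the shear estimate

`shear_pt`: for `η` near `0` and all `p = (x, θ) ∈ K` with `fold M (x + t e^{iθ})` on no line: the points `p` and
`p' = (x + t (dir θ - dir (θ + η)), θ + η)` are in `dom × Dir` and have the same itinerary `M` at time `t`.
Proof: for `p ∈ K` take `T > t`, `L` with `Fl p.1 (dir p.2) T L` and use `Fl.pair` (with `s = t`) along the continuous map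
`(η, q) ↦ ((q.1, dir q.2), (q.1 + t (dir q.2 - dir (q.2 + η)), dir (q.2 + η)))`, which is `((x,v),(x,v))` at `(0, p)`; then compactness
(`IsCompact.eventually_forall_of_forall_eventually`).
`shear`: for a.e. `p ∈ K` (`ae_not_line`, `Inv` at `p`, `Inv` at `p'`: the map `p ↦ p'` is measure preserving) we have
`f p = f (Psi M t p) = f (y, φ)` and `f p' = f (Psi M t p') = f (y, foldth M (θ + η))` with `foldth M (θ + η) = φ ± η`.  Apply
`flow_lintegral` with `H (y, φ) = ‖f (y, φ + η) - f (y, φ)‖ₑ + ‖f (y, φ - η) - f (y, φ)‖ₑ`, `∫ H = Mv f η + Mv f (-η) = 2 Mv f η`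
(`lintegral_add_left'`).
-/

set_option autoImplicit false

namespace Pool.Bil

open MeasureTheory Set Filter Topology Complex
open scoped ENNReal

namespace Poly

variable {ι : Type} [Finite ι] (P : Poly ι)

theorem shear_pt {t : ℝ} (ht : 0 ≤ t) {K : Set (ℂ × Dir)} (hK : IsCompact K) (hKA : K ⊆ P.Al t) :
    ∀ᶠ η : ℝ in 𝓝 0, ∀ p ∈ K, (∀ (M : List ι) (i : ι), P.fold M (p.1 + (t : ℂ) * dir p.2) ∉ P.line i) →
      ∃ M, p ∈ P.O t M ∧ (p.1 + (t : ℂ) * (dir p.2 - dir (p.2 + (η : Dir))), p.2 + (η : Dir)) ∈ P.O t M := by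
  refine hK.eventually_forall_of_forall_eventually
    (P := fun (η : ℝ) (p : ℂ × Dir) =>
      (∀ (M : List ι) (i : ι), P.fold M (p.1 + (t : ℂ) * dir p.2) ∉ P.line i) →
      ∃ M, p ∈ P.O t M ∧ (p.1 + (t : ℂ) * (dir p.2 - dir (p.2 + (η : Dir))), p.2 + (η : Dir)) ∈ P.O t M) ?_
  intro p hp
  obtain ⟨hpd, T, hT, L, hL⟩ := hKA hp
  have hd := continuous_dir
  have hco : Continuous fun z : ℝ × (ℂ × Dir) => dir (z.2.2 + (z.1 : Dir)) :=
    hd.comp ((continuous_snd.comp continuous_snd).add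
      ((AddCircle.continuous_mk' (2 * Real.pi)).comp continuous_fst))
  have hc2 : Continuous fun z : ℝ × (ℂ × Dir) => dir z.2.2 :=
    hd.comp (continuous_snd.comp continuous_snd)
  have hc3 : Continuous fun z : ℝ × (ℂ × Dir) =>
      z.2.1 + (t : ℂ) * (dir z.2.2 - dir (z.2.2 + (z.1 : Dir))) :=
    (continuous_fst.comp continuous_snd).add (continuous_const.mul (hc2.sub hco))
  have hc1 : Continuous fun z : ℝ × (ℂ × Dir) => z.2.1 := continuous_fst.comp continuous_snd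
  have e0 : p.1 + (t : ℂ) * (dir p.2 - dir (p.2 + ((0 : ℝ) : Dir))) = p.1 := by
    rw [AddCircle.coe_zero, add_zero, sub_self, mul_zero, add_zero]
  have hΦ : Tendsto (fun z : ℝ × (ℂ × Dir) =>
      (((z.2.1, dir z.2.2), (z.2.1 + (t : ℂ) * (dir z.2.2 - dir (z.2.2 + (z.1 : Dir))),
        dir (z.2.2 + (z.1 : Dir)))) : (ℂ × ℂ) × (ℂ × ℂ))) (𝓝 ((0 : ℝ), p))
      (𝓝 ((p.1, dir p.2), (p.1, dir p.2))) := by
    have hcc : Continuous (fun z : ℝ × (ℂ × Dir) =>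
      (((z.2.1, dir z.2.2), (z.2.1 + (t : ℂ) * (dir z.2.2 - dir (z.2.2 + (z.1 : Dir))),
        dir (z.2.2 + (z.1 : Dir)))) : (ℂ × ℂ) × (ℂ × ℂ))) :=
      (hc1.prodMk hc2).prodMk (hc3.prodMk hco)
    refine hcc.tendsto' _ _ ?_
    dsimp only
    rw [e0, AddCircle.coe_zero, add_zero]
  have h1 := hΦ.eventually (Fl.pair P hpd hL)
  have h2 : ∀ᶠ z : ℝ × (ℂ × Dir) in 𝓝 ((0 : ℝ), p), z.2.1 ∈ P.dom :=
    hc1.continuousAt.eventually (P.isOpen_dom.mem_nhds hpd)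
  have h3 : ∀ᶠ z : ℝ × (ℂ × Dir) in 𝓝 ((0 : ℝ), p),
      z.2.1 + (t : ℂ) * (dir z.2.2 - dir (z.2.2 + (z.1 : Dir))) ∈ P.dom := by
    refine hc3.continuousAt.eventually (P.isOpen_dom.mem_nhds ?_)
    dsimp only
    rw [e0]
    exact hpd
  filter_upwards [h1, h2, h3] with z hz1 hz2 hz3 hz4
  obtain ⟨M, hM1, hM2⟩ := hz1 t ht hT.le (by ring) hz4
  exact ⟨M, ⟨hz2, hM1⟩, ⟨hz3, hM2⟩⟩

theorem shear {f : ℂ × Dir → ℝ} (hf : AEStronglyMeasurable f) (hi : P.Inv f) {t : ℝ} (ht : 0 ≤ t)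
    {K : Set (ℂ × Dir)} (hK : IsCompact K) (hKA : K ⊆ P.Al t) :
    ∀ᶠ η : ℝ in 𝓝 0, ∫⁻ p in K, ‖f (p.1 + (t : ℂ) * (dir p.2 - dir (p.2 + (η : Dir))), p.2 + (η : Dir)) - f p‖ₑ
      ≤ 2 * Mv f η := by
  filter_upwards [P.shear_pt ht hK hKA] with η hη
  have hint : ∫⁻ p : ℂ × Dir, (‖f (p.1, p.2 + (η : Dir)) - f p‖ₑ + ‖f (p.1, p.2 + ((-η : ℝ) : Dir)) - f p‖ₑ)
      = 2 * Mv f η := by
    rw [lintegral_add_left', two_mul (Mv f η)]
    · exact congrArg₂ (· + ·) rfl (Mv_neg (f := f) η)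
    · have h1 : AEStronglyMeasurable (fun p : ℂ × Dir => f (p.1, p.2 + (η : Dir))) :=
        hf.comp_measurePreserving (measurePreserving_rot (η : Dir))
      exact (h1.sub hf).enorm
  rw [← hint]
  refine P.flow_lintegral ht hK.measurableSet ?_
  refine (ae_restrict_iff' hK.measurableSet).2 ?_
  have : Countable ι := Finite.to_countable
  have hd := continuous_dir
  have hmp : MeasurePreserving (fun p : ℂ × Dir =>
      (p.1 + (t : ℂ) * (dir p.2 - dir (p.2 + (η : Dir))), p.2 + (η : Dir))) volume volume := by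
    have ha : Continuous fun θ : Dir => (t : ℂ) * (dir θ - dir (θ + (η : Dir))) :=
      continuous_const.mul (hd.sub (hd.comp (continuous_id.add continuous_const)))
    exact (measurePreserving_rot (η : Dir)).comp (measurePreserving_shear ha)
  filter_upwards [P.ae_not_line t, hi t ht, hmp.quasiMeasurePreserving.ae (hi t ht)] with p h1 h2 h3 hp
  obtain ⟨M, hM1, hM2⟩ := hη p hp h1
  refine ⟨M, hM1, ?_⟩
  have h4 := h2 hM1.1 M hM1.2
  have h5 := h3 hM2.1 M hM2.2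
  rw [← h5]
  conv_lhs => rw [← h4]
  have e1 : p.1 + (t : ℂ) * (dir p.2 - dir (p.2 + (η : Dir))) + (t : ℂ) * dir (p.2 + (η : Dir))
      = p.1 + (t : ℂ) * dir p.2 := by ring
  have e2 : P.Psi M t (p.1 + (t : ℂ) * (dir p.2 - dir (p.2 + (η : Dir))), p.2 + (η : Dir))
      = ((P.Psi M t p).1, P.foldth M (p.2 + (η : Dir))) := by
    simp only [Psi, e1]
  have e3 : (P.Psi M t p).2 = P.foldth M p.2 := rfl
  rw [e2]
  rcases P.foldth_add M p.2 (η : Dir) with h | h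
  · rw [h, e3]
    exact le_self_add
  · rw [h, e3, AddCircle.coe_neg]
    exact le_add_self

end Poly

end Pool.Bil
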