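import Pool.Agent.Lib.MP_0fc3df_an.Shear

/-!
# BIL-Wb: the translation estimate, forward part; reversal

`W_forward`: with `v = dir θ`, `x' = x + t (dir θ - dir (θ + η)) = x - t sin η · i v + t (1 - cos η) v` (`dir (θ+η) = dir θ e^{iη}`):
`∫_K |f (x', θ) - f (x, θ)| ≤ ∫_K |f (x', θ + η) - f (x, θ)| + ∫ |f (x', θ + η) - f (x', θ)| ≤ 2 Mv + Mv` (`shear`, and
`measurePreserving_shear`), and `f (x', θ) = f (x - t sin η · i v, θ)` for a.e. `(x, θ) ∈ K` by `Inv` at the time `t (1 - cos η) ≥ 0`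
applied at the point `(x - t sin η · i v, θ)` (shear again) with `Fl.stay`; both points are in `dom` for `η` near `0`, uniformly on `K`
(compactness).
`inv_rev`: for a.e. `p` and `L` with `Fl p.1 (dir p.2) t L`: apply `Inv` at `q = (Psi L t p).rot π`, with `Fl.reverse`.
-/

set_option autoImplicit false

namespace Pool.Bil

open MeasureTheory Set Filter Topology Complex
open scoped ENNReal

namespace Poly

variable {ι : Type} [Finite ι] (P : Poly ι)

private theorem Wb_dir (θ : Dir) (η : ℝ) :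
    dir (θ + (η : Dir)) = dir θ * ((Real.cos η : ℝ) + (Real.sin η : ℝ) * Complex.I) := by
  rw [dir_add, dir_coe, Complex.exp_mul_I, Complex.ofReal_cos, Complex.ofReal_sin]

private theorem Wb_point (x : ℂ) (θ : Dir) (t η : ℝ) :
    x - ((t * Real.sin η : ℝ) : ℂ) * (Complex.I * dir θ) + ((t * (1 - Real.cos η) : ℝ) : ℂ) * dir θ =
      x + (t : ℂ) * (dir θ - dir (θ + (η : Dir))) := by
  rw [Wb_dir]
  push_cast
  ring

theorem W_forward {f : ℂ × Dir → ℝ} (hf : AEStronglyMeasurable f) (hi : P.Inv f) {t : ℝ} (ht : 0 ≤ t)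
    {K : Set (ℂ × Dir)} (hK : IsCompact K) (hKA : K ⊆ P.Al t) :
    ∀ᶠ η : ℝ in 𝓝 0, Wv f K (t * Real.sin η) ≤ 3 * Mv f η := by
  have hcoe : Continuous fun η : ℝ => (η : Dir) := AddCircle.continuous_mk' _
  have hA : ∀ᶠ η : ℝ in 𝓝 0, ∀ p ∈ K,
      p.1 - ((t * Real.sin η : ℝ) : ℂ) * (Complex.I * dir p.2) ∈ P.dom := by
    refine hK.eventually_forall_of_forall_eventually fun p hp => ?_
    have hc : Continuous fun z : ℝ × (ℂ × Dir) =>
        z.2.1 - ((t * Real.sin z.1 : ℝ) : ℂ) * (Complex.I * dir z.2.2) := by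
      have h1 : Continuous fun z : ℝ × (ℂ × Dir) => dir z.2.2 :=
        continuous_dir.comp (continuous_snd.comp continuous_snd)
      have h2 : Continuous fun z : ℝ × (ℂ × Dir) => ((t * Real.sin z.1 : ℝ) : ℂ) :=
        Complex.continuous_ofReal.comp (continuous_const.mul (Real.continuous_sin.comp continuous_fst))
      exact (continuous_fst.comp continuous_snd).sub (h2.mul (continuous_const.mul h1))
    refine hc.continuousAt.eventually_mem (P.isOpen_dom.mem_nhds ?_)
    simpa using (hKA hp).1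
  have hB : ∀ᶠ η : ℝ in 𝓝 0, ∀ p ∈ K,
      p.1 + (t : ℂ) * (dir p.2 - dir (p.2 + (η : Dir))) ∈ P.dom := by
    refine hK.eventually_forall_of_forall_eventually fun p hp => ?_
    have hc : Continuous fun z : ℝ × (ℂ × Dir) =>
        z.2.1 + (t : ℂ) * (dir z.2.2 - dir (z.2.2 + (z.1 : Dir))) := by
      have h1 : Continuous fun z : ℝ × (ℂ × Dir) => dir z.2.2 :=
        continuous_dir.comp (continuous_snd.comp continuous_snd)
      have h2 : Continuous fun z : ℝ × (ℂ × Dir) => dir (z.2.2 + (z.1 : Dir)) :=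
        continuous_dir.comp ((continuous_snd.comp continuous_snd).add (hcoe.comp continuous_fst))
      exact (continuous_fst.comp continuous_snd).add (continuous_const.mul (h1.sub h2))
    refine hc.continuousAt.eventually_mem (P.isOpen_dom.mem_nhds ?_)
    simpa using (hKA hp).1
  filter_upwards [hA, hB, P.shear hf hi ht hK hKA] with η h1 h2 h3
  have hcd : Continuous fun θ : Dir => dir (θ + (η : Dir)) :=
    continuous_dir.comp (continuous_id.add continuous_const)
  have hS : MeasurePreserving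
      (fun p : ℂ × Dir => (p.1 + (t : ℂ) * (dir p.2 - dir (p.2 + (η : Dir))), p.2)) volume volume :=
    measurePreserving_shear (a := fun θ => (t : ℂ) * (dir θ - dir (θ + (η : Dir))))
      (continuous_const.mul (continuous_dir.sub hcd))
  have hAm : MeasurePreserving
      (fun p : ℂ × Dir => (p.1 - ((t * Real.sin η : ℝ) : ℂ) * (Complex.I * dir p.2), p.2))
      volume volume := by
    have := measurePreserving_shear
      (a := fun θ => -(((t * Real.sin η : ℝ) : ℂ) * (Complex.I * dir θ)))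
      (continuous_const.mul (continuous_const.mul continuous_dir)).neg
    simpa only [← sub_eq_add_neg] using this
  have hR := measurePreserving_rot (η : Dir)
  have hτ : 0 ≤ t * (1 - Real.cos η) := mul_nonneg ht (by linarith [Real.cos_le_one η])
  have hae : ∀ᵐ p : ℂ × Dir, p ∈ K →
      f (p.1 - ((t * Real.sin η : ℝ) : ℂ) * (Complex.I * dir p.2), p.2) =
        f (p.1 + (t : ℂ) * (dir p.2 - dir (p.2 + (η : Dir))), p.2) := by
    have h4 := hAm.quasiMeasurePreserving.ae (hi _ hτ)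
    filter_upwards [h4] with p hp hpK
    have e1 := Wb_point p.1 p.2 t η
    have h5 := hp (h1 p hpK) [] (Fl.stay hτ (by
      show p.1 - ((t * Real.sin η : ℝ) : ℂ) * (Complex.I * dir p.2) +
        ((t * (1 - Real.cos η) : ℝ) : ℂ) * dir p.2 ∈ P.dom
      rw [e1]
      exact h2 p hpK))
    rw [← h5]
    congr 1
    show (p.1 - ((t * Real.sin η : ℝ) : ℂ) * (Complex.I * dir p.2) +
      ((t * (1 - Real.cos η) : ℝ) : ℂ) * dir p.2, p.2) = _
    rw [e1]
  have hG : AEMeasurable (fun p : ℂ × Dir => ‖f (p.1, p.2 + (η : Dir)) - f p‖ₑ) volume :=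
    ((hf.comp_measurePreserving hR).sub hf).enorm
  have hT := hf.comp_measurePreserving (hR.comp hS)
  have hF : AEMeasurable (fun p : ℂ × Dir =>
      ‖f (p.1 + (t : ℂ) * (dir p.2 - dir (p.2 + (η : Dir))), p.2 + (η : Dir)) - f p‖ₑ) volume :=
    (hT.sub hf).enorm
  unfold Wv
  calc ∫⁻ p in K, ‖f (p.1 - ((t * Real.sin η : ℝ) : ℂ) * (Complex.I * dir p.2), p.2) - f p‖ₑ
      = ∫⁻ p in K, ‖f (p.1 + (t : ℂ) * (dir p.2 - dir (p.2 + (η : Dir))), p.2) - f p‖ₑ := by
        refine setLIntegral_congr_fun_ae hK.measurableSet ?_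
        filter_upwards [hae] with p hp hpK
        rw [hp hpK]
    _ ≤ ∫⁻ p in K, (‖f (p.1 + (t : ℂ) * (dir p.2 - dir (p.2 + (η : Dir))), p.2 + (η : Dir)) - f p‖ₑ +
        ‖f (p.1 + (t : ℂ) * (dir p.2 - dir (p.2 + (η : Dir))), p.2 + (η : Dir)) -
          f (p.1 + (t : ℂ) * (dir p.2 - dir (p.2 + (η : Dir))), p.2)‖ₑ) := by
        refine lintegral_mono fun p => ?_
        have e2 : f (p.1 + (t : ℂ) * (dir p.2 - dir (p.2 + (η : Dir))), p.2) - f p =
            (f (p.1 + (t : ℂ) * (dir p.2 - dir (p.2 + (η : Dir))), p.2 + (η : Dir)) - f p) -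
            (f (p.1 + (t : ℂ) * (dir p.2 - dir (p.2 + (η : Dir))), p.2 + (η : Dir)) -
              f (p.1 + (t : ℂ) * (dir p.2 - dir (p.2 + (η : Dir))), p.2)) := by ring
        rw [e2]
        exact enorm_sub_le
    _ = (∫⁻ p in K, ‖f (p.1 + (t : ℂ) * (dir p.2 - dir (p.2 + (η : Dir))), p.2 + (η : Dir)) - f p‖ₑ) +
        ∫⁻ p in K, ‖f (p.1 + (t : ℂ) * (dir p.2 - dir (p.2 + (η : Dir))), p.2 + (η : Dir)) -
          f (p.1 + (t : ℂ) * (dir p.2 - dir (p.2 + (η : Dir))), p.2)‖ₑ :=
        lintegral_add_left' hF.restrict _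
    _ ≤ 2 * Mv f η + Mv f η := by
        refine add_le_add h3 ?_
        refine (setLIntegral_le_lintegral _ _).trans ?_
        have h6 := lintegral_map' (f := fun p : ℂ × Dir => ‖f (p.1, p.2 + (η : Dir)) - f p‖ₑ)
          (by rw [hS.map_eq]; exact hG) hS.measurable.aemeasurable
        rw [hS.map_eq] at h6
        unfold Mv
        rw [h6]
    _ = 3 * Mv f η := by ring

theorem inv_rev {f : ℂ × Dir → ℝ} (hi : P.Inv f) : P.Inv (fun p => f (p.1, p.2 + ((Real.pi : ℝ) : Dir))) := by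
  have : Countable ι := Finite.to_countable
  intro t ht
  have h : ∀ L : List ι, ∀ᵐ p : ℂ × Dir, p.1 ∈ P.dom → P.Fl p.1 (dir p.2) t L →
      f ((P.Psi L t p).1, (P.Psi L t p).2 + ((Real.pi : ℝ) : Dir)) =
        f (p.1, p.2 + ((Real.pi : ℝ) : Dir)) := by
    intro L
    have hm := (measurePreserving_rot ((Real.pi : ℝ) : Dir)).comp (P.measurePreserving_Psi L t)
    have h1 := hm.quasiMeasurePreserving.ae (hi t ht)
    filter_upwards [h1] with p hp hd hF
    have e1 : dir (P.foldth L p.2 + ((Real.pi : ℝ) : Dir)) = -P.foldv L (dir p.2) := by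
      rw [dir_add_pi, P.dir_foldth]
    have h2 := hp (Fl.mem P hF) L.reverse (by
      show P.Fl (P.fold L (p.1 + (t : ℂ) * dir p.2))
        (dir (P.foldth L p.2 + ((Real.pi : ℝ) : Dir))) t L.reverse
      rw [e1]
      exact Fl.reverse P hd hF)
    have e2 : P.Psi L.reverse t (P.fold L (p.1 + (t : ℂ) * dir p.2),
        P.foldth L p.2 + ((Real.pi : ℝ) : Dir)) = (p.1, p.2 + ((Real.pi : ℝ) : Dir)) := by
      unfold Psi
      refine Prod.ext ?_ ?_
      · show P.fold L.reverse (P.fold L (p.1 + (t : ℂ) * dir p.2) +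
          (t : ℂ) * dir (P.foldth L p.2 + ((Real.pi : ℝ) : Dir))) = p.1
        rw [e1, mul_neg, ← P.foldv_smul, ← P.foldv_neg, ← P.fold_add, add_neg_cancel_right,
          P.fold_reverse_fold]
      · show P.foldth L.reverse (P.foldth L p.2 + ((Real.pi : ℝ) : Dir)) =
          p.2 + ((Real.pi : ℝ) : Dir)
        apply dir_injective
        rw [P.dir_foldth, e1, P.foldv_neg, P.foldv_reverse_foldv, dir_add_pi]
    have h3 : f (P.Psi L.reverse t (P.fold L (p.1 + (t : ℂ) * dir p.2),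
        P.foldth L p.2 + ((Real.pi : ℝ) : Dir))) = f (P.fold L (p.1 + (t : ℂ) * dir p.2),
        P.foldth L p.2 + ((Real.pi : ℝ) : Dir)) := h2
    rw [e2] at h3
    exact h3.symm
  have h' := ae_all_iff.2 h
  filter_upwards [h'] with p hp hd L hF
  exact hp L hd hF

end Poly

end Pool.Bil
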