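import Pool.Agent.Lib.MP_0fc3df_an.Wb
import Pool.Agent.Lib.MP_0fc3df_an.Dirs

/-!
# BIL-Wc: the translation estimate for all directions outside `badDir`, and its limit

`W_both`: `K = K₁ ∪ K₂` with `K₁ ⊆ Al t`, `K₂ ⊆ {(x, θ) | (x, θ + π) ∈ Al t}` (`IsCompact.binary_compact_cover`, `alive_or`,
`dir (θ + π) = - dir θ`); `W_forward` for `f` on `K₁` and for `f' (x, θ) = f (x, θ + π)` (`inv_rev`) on `K₂' = {(x, θ + π) | (x, θ) ∈ K₂}`:
`Wv f' K₂' r = Wv f K₂ (-r)` (rotation by `π` preserves the measure, `2π = 0`), `Mv f' = Mv f`; replace `η` by `-η`, `Mv_neg`.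
`W_small`: apply `W_both` with `t` so large that `6 C δ ≤ ε t sin δ` for small `δ > 0` (`sin δ ≥ δ / 2`), `r = t sin δ`.
(`C` may be negative or zero: then `ENNReal.ofReal (C δ) = 0`, fine; take `t = 12 |C| / ε + 1`.)
-/

set_option autoImplicit false

namespace Pool.Bil

open MeasureTheory Set Filter Topology Complex
open scoped ENNReal

namespace Poly

variable {ι : Type} [Finite ι] (P : Poly ι)

/-- rotation of the direction by `π` -/
private noncomputable def rotPi : (ℂ × Dir) ≃ₜ (ℂ × Dir) :=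
  (Homeomorph.refl ℂ).prodCongr (Homeomorph.addRight ((Real.pi : ℝ) : Dir))

private theorem rotPi_apply (p : ℂ × Dir) : rotPi p = (p.1, p.2 + ((Real.pi : ℝ) : Dir)) := rfl

private theorem pi_add_pi : ((Real.pi : ℝ) : Dir) + ((Real.pi : ℝ) : Dir) = 0 := by
  rw [← AddCircle.coe_add, ← two_mul]
  exact AddCircle.coe_period (2 * Real.pi)

private theorem measurePreserving_rotPi : MeasurePreserving (rotPi : ℂ × Dir → ℂ × Dir) volume volume :=
  measurePreserving_rot ((Real.pi : ℝ) : Dir)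

private theorem Mv_rotPi (f : ℂ × Dir → ℝ) (η : ℝ) :
    Mv (fun p => f (p.1, p.2 + ((Real.pi : ℝ) : Dir))) η = Mv f η := by
  have h := measurePreserving_rotPi.lintegral_comp_emb rotPi.measurableEmbedding
    (fun p : ℂ × Dir => ‖f (p.1, p.2 + (η : Dir)) - f p‖ₑ)
  unfold Mv
  rw [← h]
  refine lintegral_congr fun p => ?_
  simp only [rotPi_apply]
  rw [add_right_comm]

private theorem Wv_rotPi (f : ℂ × Dir → ℝ) (K : Set (ℂ × Dir)) (r : ℝ) :
    Wv (fun p => f (p.1, p.2 + ((Real.pi : ℝ) : Dir))) (rotPi '' K) (-r) = Wv f K r := by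
  have h := measurePreserving_rotPi.setLIntegral_comp_emb rotPi.measurableEmbedding
    (fun p : ℂ × Dir => ‖(fun p : ℂ × Dir => f (p.1, p.2 + ((Real.pi : ℝ) : Dir)))
      (p.1 - ((-r : ℝ) : ℂ) * (Complex.I * dir p.2), p.2)
      - (fun p : ℂ × Dir => f (p.1, p.2 + ((Real.pi : ℝ) : Dir))) p‖ₑ) K
  unfold Wv
  rw [← h]
  refine lintegral_congr fun p => ?_
  simp only [rotPi_apply]
  rw [add_assoc, pi_add_pi, add_zero, dir_add_pi]
  congr 4
  push_cast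
  ring

theorem W_both (hc : P.corner.Countable) {f : ℂ × Dir → ℝ} (hf : AEStronglyMeasurable f) (hi : P.Inv f) {t : ℝ}
    (ht : 0 ≤ t) {K : Set (ℂ × Dir)} (hK : IsCompact K) (hKA : ∀ p ∈ K, p.1 ∈ P.dom ∧ p.2 ∉ P.badDir) :
    ∀ᶠ η : ℝ in 𝓝 0, Wv f K (t * Real.sin η) ≤ 6 * Mv f η := by
  have hU1 : IsOpen (P.Al t) := P.isOpen_Al ht
  have hU2 : IsOpen (rotPi ⁻¹' (P.Al t)) := hU1.preimage rotPi.continuous
  have hcov : K ⊆ P.Al t ∪ rotPi ⁻¹' (P.Al t) := by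
    intro p hp
    obtain ⟨h1, h2⟩ := hKA p hp
    rcases P.alive_or h1 h2 ht with ⟨T, hT, L, hL⟩ | ⟨T, hT, L, hL⟩
    · exact Or.inl ⟨h1, T, hT, L, hL⟩
    · refine Or.inr ⟨h1, T, hT, L, ?_⟩
      rw [rotPi_apply, dir_add_pi]
      exact hL
  obtain ⟨K₁, K₂, hK₁, hK₂, h1, h2, rfl⟩ := hK.binary_compact_cover hU1 hU2 hcov
  have e1 := P.W_forward hf hi ht hK₁ h1
  have hf' : AEStronglyMeasurable (fun p : ℂ × Dir => f (p.1, p.2 + ((Real.pi : ℝ) : Dir))) :=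
    hf.comp_measurePreserving measurePreserving_rotPi
  have e2 := P.W_forward hf' (P.inv_rev hi) ht (hK₂.image rotPi.continuous) (Set.image_subset_iff.2 h2)
  have hneg : Tendsto (fun η : ℝ => -η) (𝓝 0) (𝓝 0) := by
    have := (continuous_neg : Continuous fun η : ℝ => -η).tendsto 0
    simpa using this
  filter_upwards [e1, hneg.eventually e2] with η h3 h4
  rw [Real.sin_neg, mul_neg, Wv_rotPi, Mv_neg, Mv_rotPi] at h4
  calc Wv f (K₁ ∪ K₂) (t * Real.sin η)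
      ≤ Wv f K₁ (t * Real.sin η) + Wv f K₂ (t * Real.sin η) := lintegral_union_le _ _ _
    _ ≤ 3 * Mv f η + 3 * Mv f η := add_le_add h3 h4
    _ = 6 * Mv f η := by rw [← add_mul]; norm_num

/-- finite variation gives `liminf W(r)/r = 0` -/
theorem W_small (hc : P.corner.Countable) {f : ℂ × Dir → ℝ} (hf : AEStronglyMeasurable f) (hi : P.Inv f)
    {C : ℝ} (hM : ∃ᶠ δ : ℝ in 𝓝[>] 0, Mv f δ ≤ ENNReal.ofReal (C * δ))
    {K : Set (ℂ × Dir)} (hK : IsCompact K) (hKA : ∀ p ∈ K, p.1 ∈ P.dom ∧ p.2 ∉ P.badDir) {ε : ℝ} (hε : 0 < ε) :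
    ∃ᶠ r : ℝ in 𝓝[>] 0, Wv f K r ≤ ENNReal.ofReal (ε * r) := by
  set t : ℝ := 12 * |C| / ε + 1 with htdef
  have ht : 0 < t := by positivity
  have hεt : 12 * |C| ≤ ε * t := by
    rw [htdef, mul_add, mul_div_cancel₀ _ hε.ne']
    linarith
  have h1 : ∀ᶠ η : ℝ in 𝓝[>] 0, Wv f K (t * Real.sin η) ≤ 6 * Mv f η :=
    (P.W_both hc hf hi ht.le hK hKA).filter_mono nhdsWithin_le_nhds
  have hcos : ∀ᶠ η : ℝ in 𝓝[>] 0, η / 2 ≤ Real.sin η := by
    have : ∀ᶠ η : ℝ in 𝓝[>] 0, η ∈ Set.Ioo (0 : ℝ) 1 := Ioo_mem_nhdsGT one_pos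
    filter_upwards [this] with η hη
    have h3 := Real.sin_gt_sub_cube hη.1
    have h4 : η ^ 3 ≤ η := by
      have : η ^ 2 ≤ 1 := by nlinarith [hη.1, hη.2]
      nlinarith [hη.1]
    linarith [hη.1]
  have hpos : ∀ᶠ η : ℝ in 𝓝[>] 0, 0 < η := eventually_mem_nhdsWithin
  have htend : Tendsto (fun η : ℝ => t * Real.sin η) (𝓝[>] 0) (𝓝[>] 0) := by
    refine tendsto_nhdsWithin_iff.2 ⟨?_, ?_⟩
    · have h : Tendsto (fun η : ℝ => t * Real.sin η) (𝓝 0) (𝓝 (t * Real.sin 0)) :=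
        (continuous_const.mul Real.continuous_sin).tendsto 0
      rw [Real.sin_zero, mul_zero] at h
      exact h.mono_left nhdsWithin_le_nhds
    · filter_upwards [hcos, hpos] with η h3 h4
      exact mul_pos ht (by linarith)
  refine htend.frequently ?_
  refine (hM.and_eventually (h1.and (hcos.and hpos))).mono ?_
  rintro δ ⟨h3, h4, h5, h6⟩
  refine h4.trans ((mul_le_mul_right h3 6).trans ?_)
  rw [show (6 : ℝ≥0∞) = ENNReal.ofReal 6 by norm_num, ← ENNReal.ofReal_mul (by norm_num)]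
  refine ENNReal.ofReal_le_ofReal ?_
  have h7 : C * δ ≤ |C| * δ := mul_le_mul_of_nonneg_right (le_abs_self C) h6.le
  have h8 : (ε * t) * (δ / 2) ≤ (ε * t) * Real.sin δ := mul_le_mul_of_nonneg_left h5 (by positivity)
  have h9 : 12 * |C| * (δ / 2) ≤ (ε * t) * (δ / 2) := mul_le_mul_of_nonneg_right hεt (by linarith)
  nlinarith

end Poly

end Pool.Bil
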