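import Pool.Agent.Lib.MP_0fc3df_an.Circ

/-!
# BIW-XAng: the directions almost parallel to a given vector

`w = ‖w‖ dir ψ` (`exists_dir`), `dt w (i dir θ) = ∓ ‖w‖ sin (θ - ψ)`, i.e. `dt (dir ψ) (I * dir θ) = -(dir (θ - ψ)).im`.  `θ ↦ θ - ψ` preserves the
measure, so it is enough that `{θ | |(dir θ).im| ≤ s}` has measure `≤ 2 π s`: it is contained in
`closedBall 0 (π s / 2) ∪ closedBall π (π s / 2)` (for `θ` the class of `a ∈ (-π, π]`: `(dir θ).im = sin a`, `|sin a| ≥ 2 |a| / π` for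
`|a| ≤ π/2` (`Real.mul_le_sin`), and the same at `±π`), and `AddCircle.volume_closedBall`.
-/

set_option autoImplicit false

namespace Pool.Bil

open MeasureTheory Set Filter Topology Complex
open scoped ENNReal

private theorem slab_dir_im (a : ℝ) : (dir (a : Dir)).im = Real.sin a := by
  rw [dir_coe]
  exact Complex.exp_ofReal_mul_I_im a

private theorem slab_norm_le (a : ℝ) : ‖(a : Dir)‖ ≤ |a| := by
  have h : ‖((a : ℝ) : AddCircle (2 * Real.pi))‖ ≤ ‖a‖ := QuotientAddGroup.norm_mk_le_norm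
  simpa [Real.norm_eq_abs] using h

private theorem slab_coe_two_pi : ((2 * Real.pi : ℝ) : Dir) = 0 := AddCircle.coe_period _

private theorem slab_rep (η : Dir) : ∃ b : ℝ, (b : Dir) = η ∧ |b| ≤ Real.pi := by
  obtain ⟨a, rfl⟩ := QuotientAddGroup.mk_surjective η
  refine ⟨a - (round (a / (2 * Real.pi)) : ℤ) • (2 * Real.pi), ?_, ?_⟩
  · have h1 : (((a - (round (a / (2 * Real.pi)) : ℤ) • (2 * Real.pi) : ℝ)) : Dir)
        = (a : Dir) - (round (a / (2 * Real.pi)) : ℤ) • ((2 * Real.pi : ℝ) : Dir) := by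
      rw [← AddCircle.coe_zsmul, ← AddCircle.coe_sub]
    rw [h1, slab_coe_two_pi, smul_zero, sub_zero]
  · have hp : (0 : ℝ) < 2 * Real.pi := Real.two_pi_pos
    have h2 := abs_sub_round (a / (2 * Real.pi))
    have h3 : a - (round (a / (2 * Real.pi)) : ℤ) • (2 * Real.pi)
        = (a / (2 * Real.pi) - round (a / (2 * Real.pi))) * (2 * Real.pi) := by
      rw [zsmul_eq_mul, sub_mul, div_mul_cancel₀ _ hp.ne']
    rw [h3, abs_mul, abs_of_pos hp]
    nlinarith [h2, hp]

private theorem slab_sin_ge {x : ℝ} (h0 : 0 ≤ x) (h1 : x ≤ Real.pi / 2) {s : ℝ} (hs : Real.sin x ≤ s) :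
    x ≤ Real.pi * s / 2 := by
  have h2 : 2 / Real.pi * x ≤ Real.sin x := Real.mul_le_sin h0 h1
  have h3 : 2 / Real.pi * x ≤ s := h2.trans hs
  have hp := Real.pi_pos
  have h4 : 2 / Real.pi * x * Real.pi = 2 * x := by field_simp
  have h5 : 2 / Real.pi * x * Real.pi ≤ s * Real.pi := mul_le_mul_of_nonneg_right h3 hp.le
  rw [h4] at h5
  linarith

private theorem slab_cover {s : ℝ} (η : Dir) (h : |(dir η).im| ≤ s) :
    ‖η‖ ≤ Real.pi * s / 2 ∨ ‖η - (Real.pi : ℝ)‖ ≤ Real.pi * s / 2 := by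
  obtain ⟨b, rfl, hb⟩ := slab_rep η
  rw [slab_dir_im] at h
  have hp := Real.pi_pos
  rcases abs_le.1 hb with ⟨hb1, hb2⟩
  rcases abs_le.1 h with ⟨hs1, hs2⟩
  by_cases h1 : b ≤ Real.pi / 2
  · by_cases h2 : -(Real.pi / 2) ≤ b
    · left
      refine (slab_norm_le b).trans ?_
      rcases le_total 0 b with h0 | h0
      · rw [abs_of_nonneg h0]
        exact slab_sin_ge h0 h1 hs2
      · rw [abs_of_nonpos h0]
        refine slab_sin_ge (by linarith) (by linarith) ?_
        rw [Real.sin_neg]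
        linarith
    · right
      push Not at h2
      have e : ((b : ℝ) : Dir) - ((Real.pi : ℝ) : Dir) = ((b + Real.pi : ℝ) : Dir) := by
        have e2 : ((b + Real.pi : ℝ) : Dir) = ((b - Real.pi : ℝ) : Dir) + ((2 * Real.pi : ℝ) : Dir) := by
          rw [← AddCircle.coe_add]
          congr 1
          ring
        rw [e2, slab_coe_two_pi, add_zero, AddCircle.coe_sub]
      rw [e]
      refine (slab_norm_le _).trans ?_
      rw [abs_of_nonneg (by linarith)]
      refine slab_sin_ge (by linarith) (by linarith) ?_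
      rw [Real.sin_add_pi]
      linarith
  · right
    push Not at h1
    rw [← AddCircle.coe_sub]
    refine (slab_norm_le _).trans ?_
    rw [abs_sub_comm, abs_of_nonneg (by linarith)]
    refine slab_sin_ge (by linarith) (by linarith) ?_
    rw [Real.sin_pi_sub]
    exact hs2

private theorem slab_ball (x : Dir) (ρ : ℝ) :
    volume (Metric.closedBall x ρ) ≤ ENNReal.ofReal (2 * ρ) := by
  have : Fact (0 < 2 * Real.pi) := ⟨Real.two_pi_pos⟩
  rw [AddCircle.volume_closedBall]
  exact ENNReal.ofReal_le_ofReal (min_le_right _ _)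

theorem volume_slab {w : ℂ} (hw : w ≠ 0) {r : ℝ} (hr : 0 ≤ r) :
    volume {θ : Dir | |dt w (Complex.I * dir θ)| ≤ r} ≤ ENNReal.ofReal (2 * Real.pi * (r / ‖w‖)) := by
  have hn : 0 < ‖w‖ := norm_pos_iff.2 hw
  have hp := Real.pi_pos
  obtain ⟨ψ, hψ⟩ := exists_dir (v := w / (‖w‖ : ℂ)) (by
    rw [norm_div, Complex.norm_real, Real.norm_eq_abs, abs_of_pos hn, div_self hn.ne'])
  have hwψ : w = (‖w‖ : ℂ) * dir ψ := by
    rw [hψ, mul_div_cancel₀]
    exact_mod_cast hn.ne'
  set s : ℝ := r / ‖w‖ with hs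
  have hs0 : 0 ≤ s := div_nonneg hr hn.le
  have key : ∀ θ : Dir, dt w (Complex.I * dir θ) = ‖w‖ * (dir (ψ - θ)).im := by
    intro θ
    have h1 : dir (ψ - θ) = dir ψ * (starRingEnd ℂ) (dir θ) := by
      rw [sub_eq_add_neg, dir_add, dir_neg]
    rw [h1]
    have h2 : w.re = ‖w‖ * (dir ψ).re := by
      conv_lhs => rw [hwψ]
      simp
    have h3 : w.im = ‖w‖ * (dir ψ).im := by
      conv_lhs => rw [hwψ]
      simp
    unfold dt
    rw [h2, h3]
    simp only [Complex.mul_re, Complex.mul_im, Complex.I_re, Complex.I_im, Complex.conj_re, Complex.conj_im]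
    ring
  have hsub : {θ : Dir | |dt w (Complex.I * dir θ)| ≤ r} ⊆
      Metric.closedBall ψ (Real.pi * s / 2) ∪ Metric.closedBall (ψ - (Real.pi : ℝ)) (Real.pi * s / 2) := by
    intro θ hθ
    rw [Set.mem_ofPred_eq, key, abs_mul, abs_of_pos hn] at hθ
    have h1 : |(dir (ψ - θ)).im| ≤ s := by
      rw [hs, le_div_iff₀ hn]
      linarith
    rcases slab_cover (ψ - θ) h1 with h2 | h2
    · left
      rw [Metric.mem_closedBall, dist_eq_norm, ← norm_neg, neg_sub]
      exact h2
    · right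
      rw [Metric.mem_closedBall, dist_eq_norm, ← norm_neg, neg_sub]
      have e : ψ - ((Real.pi : ℝ) : Dir) - θ = ψ - θ - ((Real.pi : ℝ) : Dir) := by abel
      rw [e]
      exact h2
  calc volume {θ : Dir | |dt w (Complex.I * dir θ)| ≤ r}
      ≤ volume (Metric.closedBall ψ (Real.pi * s / 2) ∪ Metric.closedBall (ψ - (Real.pi : ℝ)) (Real.pi * s / 2)) :=
        measure_mono hsub
    _ ≤ volume (Metric.closedBall ψ (Real.pi * s / 2)) + volume (Metric.closedBall (ψ - (Real.pi : ℝ)) (Real.pi * s / 2)) :=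
        measure_union_le _ _
    _ ≤ ENNReal.ofReal (2 * (Real.pi * s / 2)) + ENNReal.ofReal (2 * (Real.pi * s / 2)) :=
        add_le_add (slab_ball _ _) (slab_ball _ _)
    _ = ENNReal.ofReal (2 * Real.pi * (r / ‖w‖)) := by
        rw [← ENNReal.ofReal_add (by positivity) (by positivity)]
        congr 1
        rw [← hs]
        ring

end Pool.Bil
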