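import Pool.Agent.Lib.MP_0fc3df_an.T345
import Pool.Agent.Lib.MP_0fc3df_an.Det

/-!
# BIW-XNb: a path of length `ℓ` in the 3-4-5 triangle has at most `6 ℓ + 6` bounces

Normals `n 0 = -1`, `n 1 = -i`, `n 2 = (3+4i)/5`, `c = 0, 0, 12/5`: sides `re = 0`, `im = 0`, `3 re + 4 im = 12`.
(1) a bounce at `side i` of a path with itinerary `L` before the bounce needs `0 < dt (n i) (foldv L v)` (the path comes from the interior:
    `fold L (x + (t+s) v) = fold L (x + t v) + s foldv L v`).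
(2) six bounces `i1, ..., i6` in a row (u = velocity before the first): `0 < dt (n i1) u`, `0 < dt (n i2) (rfv i1 u)`, ...,
    `0 < dt (n i6) (rfv i5 (... u))`.  Then `i_{j+1} ≠ i_j` (`dt_n_rfv`), and for some `j ∈ {1,2,3,4}` the sides `i_j, i_{j+1}, i_{j+2}` are
    pairwise different: otherwise the word is `a b a b a b`; for each of the six pairs `(a, b)` the six linear inequalities in
    `u.re, u.im` are contradictory (half planes rotated by 90, 53.13, 36.87 degrees; `linarith`).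
(3) if three successive bounce points `z1, z2, z3` (at times `b1 < b2 < b3`) lie on three different sides then `(b3 - b1) ‖v‖ ≥ 12/7`:
    `‖z1 - z2‖ = (b2 - b1) ‖v‖` (`fold (i :: L)` fixes the bounce point, `dist_fold`), the same for `z2, z3`; all three distances are
    `≤ D = (b3 - b1) ‖v‖`; with `p` on `re = 0`, `q` on `im = 0`, `r` on the hypotenuse `12 = 3 (r.re - p.re) + 4 (r.im - q.im) ≤ 7 D`.
(4) Claim by induction on `m`: `Fl x v t L`, `6 m + 1 ≤ L.length` imply `m ≤ t ‖v‖`: peel off the last six bounces: `L = i6 :: i5 :: ... :: i1 :: L0`,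
    `Fl x v t0 L0` with `t0 < b1 < ... < b6 < t`, so `t ‖v‖ ≥ t0 ‖v‖ + (b6 - b1) ‖v‖ ≥ (m - 1) + 1`.
-/

set_option autoImplicit false

namespace Pool.Bil

open MeasureTheory Set Filter Topology Complex
open scoped ENNReal

private theorem xnb_dt0 (z : ℂ) : dt (T345.n 0) z = - z.re := by simp [T345, dt]
private theorem xnb_dt1 (z : ℂ) : dt (T345.n 1) z = - z.im := by simp [T345, dt]
private theorem xnb_dt2 (z : ℂ) : dt (T345.n 2) z = 3 / 5 * z.re + 4 / 5 * z.im := by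
  simp [T345, dt]
private theorem xnb_rfv0 (z : ℂ) : (T345.rfv 0 z).re = - z.re ∧ (T345.rfv 0 z).im = z.im := by
  unfold Poly.rfv
  rw [xnb_dt0]
  constructor
  · simp [T345]; ring
  · simp [T345]
private theorem xnb_rfv1 (z : ℂ) : (T345.rfv 1 z).re = z.re ∧ (T345.rfv 1 z).im = - z.im := by
  unfold Poly.rfv
  rw [xnb_dt1]
  constructor
  · simp [T345]
  · simp [T345]; ring
private theorem xnb_rfv2 (z : ℂ) : (T345.rfv 2 z).re = 7 / 25 * z.re - 24 / 25 * z.im ∧
    (T345.rfv 2 z).im = - (24 / 25) * z.re - 7 / 25 * z.im := by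
  unfold Poly.rfv
  rw [xnb_dt2]
  constructor
  · simp [T345]; ring
  · simp [T345]; ring

private theorem xnb_peel {x v : ℂ} {t : ℝ} {i : Fin 3} {L : List (Fin 3)} (h : T345.Fl x v t (i :: L)) :
    ∃ t0 b : ℝ, T345.Fl x v t0 L ∧ t0 < b ∧ b < t ∧ T345.fold L (x + (b : ℂ) * v) ∈ T345.side i ∧
      0 < dt (T345.n i) (T345.foldv L v) := by
  cases h with
  | @bounce t0 _ s r _ _ hF hs hr ht hz hd =>
    refine ⟨t0, t0 + s, hF, by linarith, by linarith, hz, ?_⟩
    have h1 := hF.mem T345 i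
    have h2 : dt (T345.n i) (T345.fold L (x + ((t0 + s : ℝ) : ℂ) * v)) = T345.c i := hz.1
    rw [T345.fold_line, dt_add_right, dt_smul_right] at h2
    have h3 : 0 < s * dt (T345.n i) (T345.foldv L v) := by linarith
    exact (pos_iff_pos_of_mul_pos h3).1 hs

private theorem xnb_tri {p q r : ℂ} {D : ℝ} (hp : p ∈ T345.side 0) (hq : q ∈ T345.side 1) (hr : r ∈ T345.side 2)
    (h1 : ‖r - p‖ ≤ D) (h2 : ‖r - q‖ ≤ D) : 12 / 7 ≤ D := by
  have a0 : dt (T345.n 0) p = T345.c 0 := hp.1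
  have a1 : dt (T345.n 1) q = T345.c 1 := hq.1
  have a2 : dt (T345.n 2) r = T345.c 2 := hr.1
  rw [xnb_dt0] at a0
  rw [xnb_dt1] at a1
  rw [xnb_dt2] at a2
  have c0 : T345.c 0 = 0 := by simp [T345]
  have c1 : T345.c 1 = 0 := by simp [T345]
  have c2 : T345.c 2 = 12 / 5 := by simp [T345]
  rw [c0] at a0
  rw [c1] at a1
  rw [c2] at a2
  have b1 : r.re - p.re ≤ D := by
    have := (le_abs_self (r - p).re).trans (Complex.abs_re_le_norm (r - p))
    rw [Complex.sub_re] at this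
    linarith
  have b2 : r.im - q.im ≤ D := by
    have := (le_abs_self (r - q).im).trans (Complex.abs_im_le_norm (r - q))
    rw [Complex.sub_im] at this
    linarith
  linarith

private theorem xnb_three {x v : ℂ} {L : List (Fin 3)} {i j k : Fin 3} {b1 b2 b3 : ℝ} (h12 : b1 < b2) (h23 : b2 < b3)
    (z1 : T345.fold L (x + (b1 : ℂ) * v) ∈ T345.side i)
    (z2 : T345.fold (i :: L) (x + (b2 : ℂ) * v) ∈ T345.side j)
    (z3 : T345.fold (j :: i :: L) (x + (b3 : ℂ) * v) ∈ T345.side k)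
    (hij : i ≠ j) (hjk : j ≠ k) (hik : i ≠ k) : 12 / 7 ≤ (b3 - b1) * ‖v‖ := by
  have e1 : T345.fold (i :: L) (x + (b1 : ℂ) * v) = T345.fold L (x + (b1 : ℂ) * v) := by
    show T345.rf i _ = _
    exact T345.rf_of_line z1.1
  have e2 : T345.fold (j :: i :: L) (x + (b2 : ℂ) * v) = T345.fold (i :: L) (x + (b2 : ℂ) * v) := by
    show T345.rf j _ = _
    exact T345.rf_of_line z2.1
  have nn : ∀ (M : List (Fin 3)) (a b : ℝ), a ≤ b →
      ‖T345.fold M (x + (b : ℂ) * v) - T345.fold M (x + (a : ℂ) * v)‖ = (b - a) * ‖v‖ := by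
    intro M a b hab
    rw [T345.dist_fold, show x + (b : ℂ) * v - (x + (a : ℂ) * v) = ((b - a : ℝ) : ℂ) * v by push_cast; ring,
      norm_mul, Complex.norm_real, Real.norm_eq_abs, abs_of_nonneg (by linarith)]
  have d12 := nn (i :: L) b1 b2 h12.le
  have d23 := nn (j :: i :: L) b2 b3 h23.le
  rw [e1] at d12
  rw [e2] at d23
  set p := T345.fold L (x + (b1 : ℂ) * v)
  set q := T345.fold (i :: L) (x + (b2 : ℂ) * v)
  set r := T345.fold (j :: i :: L) (x + (b3 : ℂ) * v)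
  have hv := norm_nonneg v
  have f1 : 0 ≤ (b2 - b1) * ‖v‖ := mul_nonneg (by linarith) hv
  have f2 : 0 ≤ (b3 - b2) * ‖v‖ := mul_nonneg (by linarith) hv
  have f3 : (b3 - b1) * ‖v‖ = (b3 - b2) * ‖v‖ + (b2 - b1) * ‖v‖ := by ring
  have D1 : ‖q - p‖ ≤ (b3 - b1) * ‖v‖ := by linarith
  have D2 : ‖r - q‖ ≤ (b3 - b1) * ‖v‖ := by linarith
  have D3 : ‖r - p‖ ≤ (b3 - b1) * ‖v‖ := by
    have : r - p = (r - q) + (q - p) := by ring
    rw [this]
    exact (norm_add_le _ _).trans (by linarith)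
  have D1' : ‖p - q‖ ≤ (b3 - b1) * ‖v‖ := by rwa [norm_sub_rev]
  have D2' : ‖q - r‖ ≤ (b3 - b1) * ‖v‖ := by rwa [norm_sub_rev]
  have D3' : ‖p - r‖ ≤ (b3 - b1) * ‖v‖ := by rwa [norm_sub_rev]
  clear_value p q r
  clear d12 d23 e1 e2 nn
  fin_cases i <;> fin_cases j <;> fin_cases k <;> first
    | exact absurd rfl hij
    | exact absurd rfl hjk
    | exact absurd rfl hik
    | exact xnb_tri z1 z2 z3 (by assumption) (by assumption)
    | exact xnb_tri z1 z3 z2 (by assumption) (by assumption)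
    | exact xnb_tri z2 z1 z3 (by assumption) (by assumption)
    | exact xnb_tri z2 z3 z1 (by assumption) (by assumption)
    | exact xnb_tri z3 z1 z2 (by assumption) (by assumption)
    | exact xnb_tri z3 z2 z1 (by assumption) (by assumption)

private theorem xnb_ne {i j : Fin 3} {u : ℂ} (h1 : 0 < dt (T345.n i) u) (h2 : 0 < dt (T345.n j) (T345.rfv i u)) :
    i ≠ j := by
  rintro rfl
  rw [T345.dt_n_rfv] at h2
  linarith

private theorem xnb_alt {a b : Fin 3} (hab : a ≠ b) {u : ℂ} (h1 : 0 < dt (T345.n a) u)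
    (h2 : 0 < dt (T345.n b) (T345.rfv a u)) (h3 : 0 < dt (T345.n a) (T345.rfv b (T345.rfv a u)))
    (h4 : 0 < dt (T345.n b) (T345.rfv a (T345.rfv b (T345.rfv a u))))
    (h5 : 0 < dt (T345.n a) (T345.rfv b (T345.rfv a (T345.rfv b (T345.rfv a u)))))
    (h6 : 0 < dt (T345.n b) (T345.rfv a (T345.rfv b (T345.rfv a (T345.rfv b (T345.rfv a u)))))) : False := by
  fin_cases a <;> fin_cases b
  · exact hab rfl
  · simp only [Fin.zero_eta, Fin.mk_one, xnb_dt0, xnb_dt1, (xnb_rfv0 _).1, (xnb_rfv0 _).2, (xnb_rfv1 _).1,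
      (xnb_rfv1 _).2] at h1 h2 h3 h4 h5 h6
    linarith
  · simp only [Fin.zero_eta, Fin.reduceFinMk, xnb_dt0, xnb_dt2, (xnb_rfv0 _).1, (xnb_rfv0 _).2, (xnb_rfv2 _).1,
      (xnb_rfv2 _).2] at h1 h2 h3 h4 h5 h6
    linarith
  · simp only [Fin.zero_eta, Fin.mk_one, xnb_dt0, xnb_dt1, (xnb_rfv0 _).1, (xnb_rfv0 _).2, (xnb_rfv1 _).1,
      (xnb_rfv1 _).2] at h1 h2 h3 h4 h5 h6
    linarith
  · exact hab rfl
  · simp only [Fin.mk_one, Fin.reduceFinMk, xnb_dt1, xnb_dt2, (xnb_rfv1 _).1, (xnb_rfv1 _).2, (xnb_rfv2 _).1,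
      (xnb_rfv2 _).2] at h1 h2 h3 h4 h5 h6
    linarith
  · simp only [Fin.zero_eta, Fin.reduceFinMk, xnb_dt0, xnb_dt2, (xnb_rfv0 _).1, (xnb_rfv0 _).2, (xnb_rfv2 _).1,
      (xnb_rfv2 _).2] at h1 h2 h3 h4 h5 h6
    linarith
  · simp only [Fin.mk_one, Fin.reduceFinMk, xnb_dt1, xnb_dt2, (xnb_rfv1 _).1, (xnb_rfv1 _).2, (xnb_rfv2 _).1,
      (xnb_rfv2 _).2] at h1 h2 h3 h4 h5 h6
    linarith
  · exact hab rfl

private theorem xnb_six {x v : ℂ} {t : ℝ} {i1 i2 i3 i4 i5 i6 : Fin 3} {L : List (Fin 3)}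
    (h : T345.Fl x v t (i6 :: i5 :: i4 :: i3 :: i2 :: i1 :: L)) :
    ∃ t0 : ℝ, T345.Fl x v t0 L ∧ t0 * ‖v‖ + 1 ≤ t * ‖v‖ := by
  obtain ⟨t5, b6, F5, q5, r6, z6, p6⟩ := xnb_peel h
  obtain ⟨t4, b5, F4, q4, r5, z5, p5⟩ := xnb_peel F5
  obtain ⟨t3, b4, F3, q3, r4, z4, p4⟩ := xnb_peel F4
  obtain ⟨t2, b3, F2, q2, r3, z3, p3⟩ := xnb_peel F3
  obtain ⟨t1, b2, F1, q1, r2, z2, p2⟩ := xnb_peel F2
  obtain ⟨t0, b1, F0, q0, r1, z1, p1⟩ := xnb_peel F1
  refine ⟨t0, F0, ?_⟩
  have n12 : i1 ≠ i2 := xnb_ne p1 p2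
  have n23 : i2 ≠ i3 := xnb_ne p2 p3
  have n34 : i3 ≠ i4 := xnb_ne p3 p4
  have n45 : i4 ≠ i5 := xnb_ne p4 p5
  have n56 : i5 ≠ i6 := xnb_ne p5 p6
  have hv := norm_nonneg v
  have key : ∀ a b : ℝ, t0 ≤ a → b ≤ t → 12 / 7 ≤ (b - a) * ‖v‖ → t0 * ‖v‖ + 1 ≤ t * ‖v‖ := by
    intro a b ha hb hab
    have : (b - a) * ‖v‖ ≤ (t - t0) * ‖v‖ := mul_le_mul_of_nonneg_right (by linarith) hv
    linarith
  by_cases e13 : i1 = i3
  swap
  · exact key b1 b3 (by linarith) (by linarith)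
      (xnb_three (by linarith) (by linarith) z1 z2 z3 n12 n23 e13)
  by_cases e24 : i2 = i4
  swap
  · exact key b2 b4 (by linarith) (by linarith)
      (xnb_three (by linarith) (by linarith) z2 z3 z4 n23 n34 e24)
  by_cases e35 : i3 = i5
  swap
  · exact key b3 b5 (by linarith) (by linarith)
      (xnb_three (by linarith) (by linarith) z3 z4 z5 n34 n45 e35)
  by_cases e46 : i4 = i6
  swap
  · exact key b4 b6 (by linarith) (by linarith)
      (xnb_three (by linarith) (by linarith) z4 z5 z6 n45 n56 e46)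
  exfalso
  subst e13
  subst e24
  subst e35
  subst e46
  exact xnb_alt n12 p1 p2 p3 p4 p5 p6

private theorem xnb_len (m : ℕ) : ∀ (x v : ℂ) (t : ℝ) (L : List (Fin 3)), T345.Fl x v t L → 6 * m + 1 ≤ L.length →
    (m : ℝ) ≤ t * ‖v‖ := by
  induction m with
  | zero =>
    intro x v t L h _
    have := h.nonneg T345
    simpa using mul_nonneg this (norm_nonneg v)
  | succ m ih =>
    intro x v t L h hL
    match L, h, hL with
    | [], _, hL => simp at hL
    | [_], _, hL => simp only [List.length_cons, List.length_nil] at hL; omega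
    | [_, _], _, hL => simp only [List.length_cons, List.length_nil] at hL; omega
    | [_, _, _], _, hL => simp only [List.length_cons, List.length_nil] at hL; omega
    | [_, _, _, _], _, hL => simp only [List.length_cons, List.length_nil] at hL; omega
    | [_, _, _, _, _], _, hL => simp only [List.length_cons, List.length_nil] at hL; omega
    | i6 :: i5 :: i4 :: i3 :: i2 :: i1 :: L0, h, hL =>
      obtain ⟨t0, h0, h1⟩ := xnb_six h
      have := ih x v t0 L0 h0 (by simp only [List.length_cons] at hL; omega)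
      push_cast
      linarith

theorem T345_length {x v : ℂ} {t : ℝ} {L : List (Fin 3)} (h : T345.Fl x v t L) :
    (L.length : ℝ) ≤ 6 * (t * ‖v‖) + 6 := by
  have h0 : 0 ≤ t * ‖v‖ := mul_nonneg (h.nonneg T345) (norm_nonneg v)
  rcases Nat.eq_zero_or_pos L.length with hz | hp
  · rw [hz]; push_cast; linarith
  · have h1 := xnb_len ((L.length - 1) / 6) x v t L h (by omega)
    have h2 : L.length ≤ 6 * ((L.length - 1) / 6) + 6 := by omega
    have h3 : (L.length : ℝ) ≤ 6 * (((L.length - 1) / 6 : ℕ) : ℝ) + 6 := by exact_mod_cast h2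
    linarith

end Pool.Bil
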