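import Pool.Agent.Lib.MP_0fc3df_an.T345

/-!
# BIW-XSep: the unfolded corners of the 3-4-5 triangle

`VF N`: the images of the corners `0, 4, 3i` under at most `N` reflections; at most `3 · 4^N` points; `25^N z` has integer
coordinates for `z ∈ VF N` (`rf 0 z = - conj z`, `rf 1 z = conj z`, `25 rf 2 z = (7 x - 24 y + 72) + i (-24 x - 7 y + 96)` for
`z = x + i y`), so two different points have distance `≥ 25^{-N}`.
-/

set_option autoImplicit false

namespace Pool.Bil

open MeasureTheory Set Filter Topology Complex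
open scoped ENNReal

/-- unfolded corners with at most `N` reflections -/
noncomputable def VF : ℕ → Finset ℂ
  | 0 => {0, 4, 3 * Complex.I}
  | N + 1 => VF N ∪ (Finset.univ : Finset (Fin 3)).biUnion fun i => (VF N).image (T345.rf i)

theorem VF_card (N : ℕ) : (VF N).card ≤ 3 * 4 ^ N := by
  induction N with
  | zero =>
    show (({0, 4, 3 * Complex.I} : Finset ℂ)).card ≤ 3 * 4 ^ 0
    simpa using (Finset.card_le_three : (({0, 4, 3 * Complex.I} : Finset ℂ)).card ≤ 3)
  | succ N ih =>
    have h1 : ((Finset.univ : Finset (Fin 3)).biUnion fun i => (VF N).image (T345.rf i)).card ≤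
        3 * (VF N).card := by
      refine (Finset.card_biUnion_le).trans ?_
      have h2 : ∀ i ∈ (Finset.univ : Finset (Fin 3)), ((VF N).image (T345.rf i)).card ≤ (VF N).card :=
        fun i _ => Finset.card_image_le
      refine (Finset.sum_le_sum h2).trans ?_
      simp
    have h3 : (VF (N + 1)).card ≤ (VF N).card + 3 * (VF N).card := by
      show (VF N ∪ (Finset.univ : Finset (Fin 3)).biUnion fun i => (VF N).image (T345.rf i)).card ≤ _
      refine (Finset.card_union_le _ _).trans ?_
      omega
    calc (VF (N + 1)).card ≤ (VF N).card + 3 * (VF N).card := h3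
      _ = 4 * (VF N).card := by ring
      _ ≤ 4 * (3 * 4 ^ N) := Nat.mul_le_mul_left 4 ih
      _ = 3 * 4 ^ (N + 1) := by ring

private theorem xs_dt0 (z : ℂ) : dt (T345.n 0) z = - z.re := by simp [T345, dt]
private theorem xs_dt1 (z : ℂ) : dt (T345.n 1) z = - z.im := by simp [T345, dt]
private theorem xs_dt2 (z : ℂ) : dt (T345.n 2) z = 3 / 5 * z.re + 4 / 5 * z.im := by
  simp [T345, dt]
private theorem xs_c0 : T345.c 0 = 0 := by simp [T345]
private theorem xs_c1 : T345.c 1 = 0 := by simp [T345]
private theorem xs_c2 : T345.c 2 = 12 / 5 := by simp [T345]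
private theorem xs_n0 : T345.n 0 = -1 := by simp [T345]
private theorem xs_n1 : T345.n 1 = -Complex.I := by simp [T345]
private theorem xs_n2 : T345.n 2 = (⟨3 / 5, 4 / 5⟩ : ℂ) := by simp [T345]

private theorem xs_line0 {z : ℂ} (h : z ∈ T345.line 0) : z.re = 0 := by
  have h1 : dt (T345.n 0) z = T345.c 0 := h
  rw [xs_dt0, xs_c0] at h1
  linarith
private theorem xs_line1 {z : ℂ} (h : z ∈ T345.line 1) : z.im = 0 := by
  have h1 : dt (T345.n 1) z = T345.c 1 := h
  rw [xs_dt1, xs_c1] at h1
  linarith
private theorem xs_line2 {z : ℂ} (h : z ∈ T345.line 2) : 3 * z.re + 4 * z.im = 12 := by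
  have h1 : dt (T345.n 2) z = T345.c 2 := h
  rw [xs_dt2, xs_c2] at h1
  linarith

private theorem xs_corner {z : ℂ} (h : z ∈ T345.corner) : z ∈ VF 0 := by
  obtain ⟨i, j, hij, hi, hj⟩ := h
  have key : ∀ i j : Fin 3, i < j → z ∈ T345.line i → z ∈ T345.line j → z ∈ VF 0 := by
    intro i j hij hi hj
    show z ∈ ({0, 4, 3 * Complex.I} : Finset ℂ)
    simp only [Finset.mem_insert, Finset.mem_singleton]
    fin_cases i <;> fin_cases j
    · exact absurd hij (by decide)
    · left
      exact Complex.ext (by simpa using xs_line0 hi) (by simpa using xs_line1 hj)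
    · right; right
      have h1 := xs_line0 hi
      have h2 := xs_line2 hj
      refine Complex.ext (by simpa using h1) ?_
      have : z.im = 3 := by rw [h1] at h2; linarith
      simpa using this
    · exact absurd hij (by decide)
    · exact absurd hij (by decide)
    · right; left
      have h1 := xs_line1 hi
      have h2 := xs_line2 hj
      refine Complex.ext ?_ (by simpa using h1)
      have : z.re = 4 := by rw [h1] at h2; linarith
      simpa using this
    · exact absurd hij (by decide)
    · exact absurd hij (by decide)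
    · exact absurd hij (by decide)
  rcases lt_or_gt_of_ne hij with h | h
  · exact key i j h hi hj
  · exact key j i h hj hi

private theorem xs_mono {M N : ℕ} (h : M ≤ N) : VF M ⊆ VF N := by
  induction N, h using Nat.le_induction with
  | base => exact Finset.Subset.refl _
  | succ N _ ih => exact ih.trans Finset.subset_union_left

private theorem xs_rf {N : ℕ} {z : ℂ} (h : z ∈ VF N) (i : Fin 3) : T345.rf i z ∈ VF (N + 1) := by
  show T345.rf i z ∈ VF N ∪ (Finset.univ : Finset (Fin 3)).biUnion fun i => (VF N).image (T345.rf i)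
  exact Finset.mem_union_right _ (Finset.mem_biUnion.2 ⟨i, Finset.mem_univ _, Finset.mem_image_of_mem _ h⟩)

private theorem xs_fold (L : List (Fin 3)) : ∀ (k : ℕ) (p c : ℂ), c ∈ VF k → T345.fold L p = c →
    p ∈ VF (k + L.length) := by
  induction L with
  | nil =>
    intro k p c hc h
    have h' : p = c := h
    rw [h']
    simpa using hc
  | cons i L ih =>
    intro k p c hc h
    have h' : T345.rf i (T345.fold L p) = c := h
    have h2 : T345.fold L p = T345.rf i c := by rw [← h', T345.rf_rf]
    have h3 := ih (k + 1) p (T345.rf i c) (xs_rf hc i) h2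
    have h4 : k + 1 + L.length = k + (i :: L).length := by simp [List.length_cons]; omega
    rwa [h4] at h3

theorem mem_VF {N : ℕ} {L : List (Fin 3)} (hL : L.length ≤ N) {p : ℂ} (hp : T345.fold L p ∈ T345.corner) : p ∈ VF N := by
  have h := xs_fold L 0 p _ (xs_corner hp) rfl
  exact xs_mono (by omega) h

private theorem xs_int (N : ℕ) : ∀ z ∈ VF N, ∃ a b : ℤ, (25 : ℝ) ^ N * z.re = a ∧ (25 : ℝ) ^ N * z.im = b := by
  induction N with
  | zero =>
    intro z hz
    have hz' : z ∈ ({0, 4, 3 * Complex.I} : Finset ℂ) := hz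
    simp only [Finset.mem_insert, Finset.mem_singleton] at hz'
    rcases hz' with rfl | rfl | rfl
    · exact ⟨0, 0, by simp, by simp⟩
    · exact ⟨4, 0, by simp, by simp⟩
    · exact ⟨0, 3, by simp, by simp⟩
  | succ N ih =>
    intro z hz
    have hz' : z ∈ VF N ∪ (Finset.univ : Finset (Fin 3)).biUnion fun i => (VF N).image (T345.rf i) := hz
    rw [Finset.mem_union] at hz'
    rcases hz' with h | h
    · obtain ⟨a, b, ha, hb⟩ := ih z h
      refine ⟨25 * a, 25 * b, ?_, ?_⟩
      · rw [pow_succ]; push_cast; rw [← ha]; ring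
      · rw [pow_succ]; push_cast; rw [← hb]; ring
    · rw [Finset.mem_biUnion] at h
      obtain ⟨i, -, hi⟩ := h
      rw [Finset.mem_image] at hi
      obtain ⟨w, hw, rfl⟩ := hi
      obtain ⟨a, b, ha, hb⟩ := ih w hw
      have hre : (T345.rf i w).re = w.re - 2 * (dt (T345.n i) w - T345.c i) * (T345.n i).re := by
        simp [Poly.rf]
      have him : (T345.rf i w).im = w.im - 2 * (dt (T345.n i) w - T345.c i) * (T345.n i).im := by
        simp [Poly.rf]
      have hi3 : i = 0 ∨ i = 1 ∨ i = 2 := by
        fin_cases i <;> simp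
      rcases hi3 with rfl | rfl | rfl
      · rw [hre, him, xs_dt0, xs_c0, xs_n0]
        refine ⟨-(25 * a), 25 * b, ?_, ?_⟩
        · simp only [neg_re, one_re]; push_cast; rw [← ha, pow_succ]; ring
        · simp only [neg_im, one_im]; push_cast; rw [← hb, pow_succ]; ring
      · rw [hre, him, xs_dt1, xs_c1, xs_n1]
        refine ⟨25 * a, -(25 * b), ?_, ?_⟩
        · simp only [neg_re, I_re]; push_cast; rw [← ha, pow_succ]; ring
        · simp only [neg_im, I_im]; push_cast; rw [← hb, pow_succ]; ring
      · rw [hre, him, xs_dt2, xs_c2, xs_n2]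
        refine ⟨7 * a - 24 * b + 72 * 25 ^ N, -(24 * a) - 7 * b + 96 * 25 ^ N, ?_, ?_⟩
        · push_cast; rw [← ha, ← hb, pow_succ]; ring
        · push_cast; rw [← ha, ← hb, pow_succ]; ring

theorem VF_sep {N : ℕ} {A B : ℂ} (hA : A ∈ VF N) (hB : B ∈ VF N) (hAB : A ≠ B) : 1 ≤ 25 ^ N * ‖A - B‖ := by
  obtain ⟨a, b, ha, hb⟩ := xs_int N A hA
  obtain ⟨c, d, hc, hd⟩ := xs_int N B hB
  have hpos : (0 : ℝ) < 25 ^ N := by positivity
  by_cases h1 : a = c
  · by_cases h2 : b = d
    · exfalso
      apply hAB
      refine Complex.ext ?_ ?_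
      · have : (25 : ℝ) ^ N * A.re = 25 ^ N * B.re := by rw [ha, hc, h1]
        exact mul_left_cancel₀ hpos.ne' this
      · have : (25 : ℝ) ^ N * A.im = 25 ^ N * B.im := by rw [hb, hd, h2]
        exact mul_left_cancel₀ hpos.ne' this
    · have h3 : (1 : ℝ) ≤ |((b - d : ℤ) : ℝ)| := by
        have : (1 : ℤ) ≤ |b - d| := Int.one_le_abs (sub_ne_zero.2 h2)
        exact_mod_cast this
      have h4 : ((b - d : ℤ) : ℝ) = 25 ^ N * (A - B).im := by
        push_cast; rw [← hb, ← hd, sub_im]; ring
      rw [h4, abs_mul, abs_of_pos hpos] at h3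
      refine h3.trans ?_
      exact mul_le_mul_of_nonneg_left (Complex.abs_im_le_norm _) hpos.le
  · have h3 : (1 : ℝ) ≤ |((a - c : ℤ) : ℝ)| := by
      have : (1 : ℤ) ≤ |a - c| := Int.one_le_abs (sub_ne_zero.2 h1)
      exact_mod_cast this
    have h4 : ((a - c : ℤ) : ℝ) = 25 ^ N * (A - B).re := by
      push_cast; rw [← ha, ← hc, sub_re]; ring
    rw [h4, abs_mul, abs_of_pos hpos] at h3
    refine h3.trans ?_
    exact mul_le_mul_of_nonneg_left (Complex.abs_re_le_norm _) hpos.le

end Pool.Bil
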