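import Pool.Agent.Lib.MP_0fc3df_an.XCw
import Pool.Agent.Lib.MP_0fc3df_an.XNb
import Pool.Agent.Lib.MP_0fc3df_an.XSep
import Pool.Agent.Lib.MP_0fc3df_an.XAng

/-!
# BIW-XBad: outside a small set of directions every point has a good forward or a good backward path

`badTh_vol`: `volume_slab` with `w = A - B`, `r / ‖A - B‖ ≤ r 25^N` (`VF_sep`), at most `(3 · 4^N)^2` pairs; `2 π · 9 ≤ 60`, `16 · 25 = 400`.
`good`: `v = dir θ`, `x' = x - r i v`.  Apply `common_word` to `(x, v)`, `(x', v + (r/t) i v)` and to `(x, -v)`, `(x', -v + (r/t) i v)`.  If both are in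
the second case: `p = x_σ + s v_σ = x + s v - σ r (1 - s/t) i v`, `0 < s ≤ t`, and `q = x - s' v - σ' r (1 - s'/t) i v`, `0 < s' ≤ t`.
`T345.fold L p ∈ corner` with `L.length ≤ 6 (T ‖v_σ‖) + 6 ≤ 12 t + 6 ≤ N` (`T345_length`, `‖v_σ‖ ≤ 1 + r/t ≤ 2`), so `p ∈ VF N`, likewise `q ∈ VF N`;
`dt (p - q) v = s + s' > 0`, so `p ≠ q`; `dt (p - x) (i v), dt (q - x) (i v) ∈ [-r, 0]`, so `|dt (p - q) (i v)| ≤ r`: `θ ∈ badTh N r`.
-/

set_option autoImplicit false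

namespace Pool.Bil

open MeasureTheory Set Filter Topology Complex
open scoped ENNReal

/-- the bad directions -/
def badTh (N : ℕ) (r : ℝ) : Set Dir :=
  ⋃ A ∈ VF N, ⋃ B ∈ VF N, {θ : Dir | A ≠ B ∧ |dt (A - B) (Complex.I * dir θ)| ≤ r}

private theorem xb_dt_iv (v : ℂ) : dt (Complex.I * v) v = 0 := by
  simp [dt]; ring

private theorem xb_dt_vi (v : ℂ) : dt v (Complex.I * v) = 0 := by
  simp [dt]; ring

private theorem xb_dt_ii (v : ℂ) : dt (Complex.I * v) (Complex.I * v) = dt v v := by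
  simp [dt]; ring

theorem badTh_closed (N : ℕ) (r : ℝ) : IsClosed (badTh N r) := by
  unfold badTh
  refine isClosed_biUnion_finset fun A _ => isClosed_biUnion_finset fun B _ => ?_
  by_cases h : A ≠ B
  · have e : {θ : Dir | A ≠ B ∧ |dt (A - B) (Complex.I * dir θ)| ≤ r} =
        {θ : Dir | |dt (A - B) (Complex.I * dir θ)| ≤ r} := by
      ext θ
      exact ⟨fun h' => h'.2, fun h' => ⟨h, h'⟩⟩
    rw [e]
    refine isClosed_le ?_ continuous_const
    exact ((continuous_dt (A - B)).comp (continuous_const.mul continuous_dir)).abs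
  · have e : {θ : Dir | A ≠ B ∧ |dt (A - B) (Complex.I * dir θ)| ≤ r} = ∅ := by
      ext θ
      exact ⟨fun h' => absurd h'.1 h, fun h' => absurd h' (Set.notMem_empty θ)⟩
    rw [e]
    exact isClosed_empty

theorem badTh_vol (N : ℕ) {r : ℝ} (hr : 0 ≤ r) : volume (badTh N r) ≤ ENNReal.ofReal (60 * (r * 400 ^ N)) := by
  have hone : ∀ A ∈ VF N, ∀ B ∈ VF N,
      volume {θ : Dir | A ≠ B ∧ |dt (A - B) (Complex.I * dir θ)| ≤ r} ≤
        ENNReal.ofReal (2 * Real.pi * (r * 25 ^ N)) := by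
    intro A hA B hB
    by_cases h : A = B
    · have e : {θ : Dir | A ≠ B ∧ |dt (A - B) (Complex.I * dir θ)| ≤ r} = ∅ := by
        ext θ
        exact ⟨fun h' => absurd h h'.1, fun h' => absurd h' (Set.notMem_empty θ)⟩
      rw [e, measure_empty]
      exact zero_le
    · have h1 : volume {θ : Dir | A ≠ B ∧ |dt (A - B) (Complex.I * dir θ)| ≤ r} ≤
          volume {θ : Dir | |dt (A - B) (Complex.I * dir θ)| ≤ r} :=
        measure_mono fun θ h' => h'.2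
      refine h1.trans ((volume_slab (sub_ne_zero.2 h) hr).trans ?_)
      refine ENNReal.ofReal_le_ofReal ?_
      have h2 := VF_sep hA hB h
      have h3 : 0 < ‖A - B‖ := norm_pos_iff.2 (sub_ne_zero.2 h)
      have h4 : r / ‖A - B‖ ≤ r * 25 ^ N := by
        rw [div_le_iff₀ h3, mul_assoc]
        exact le_mul_of_one_le_right hr h2
      have hp := Real.pi_pos
      exact mul_le_mul_of_nonneg_left h4 (by positivity)
  unfold badTh
  have h1 : volume (⋃ A ∈ VF N, ⋃ B ∈ VF N, {θ : Dir | A ≠ B ∧ |dt (A - B) (Complex.I * dir θ)| ≤ r}) ≤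
      ∑ A ∈ VF N, ∑ B ∈ VF N, ENNReal.ofReal (2 * Real.pi * (r * 25 ^ N)) := by
    refine (measure_biUnion_finset_le _ _).trans (Finset.sum_le_sum fun A hA => ?_)
    exact (measure_biUnion_finset_le _ _).trans (Finset.sum_le_sum fun B hB => hone A hA B hB)
  refine h1.trans ?_
  rw [Finset.sum_const, Finset.sum_const, nsmul_eq_mul, nsmul_eq_mul, ← ENNReal.ofReal_natCast,
    ← ENNReal.ofReal_mul (Nat.cast_nonneg _), ← ENNReal.ofReal_mul (Nat.cast_nonneg _)]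
  refine ENNReal.ofReal_le_ofReal ?_
  have hc : ((VF N).card : ℝ) ≤ 3 * 4 ^ N := by exact_mod_cast VF_card N
  have hc0 : (0 : ℝ) ≤ (VF N).card := Nat.cast_nonneg _
  have hp := Real.pi_pos
  have hp2 : Real.pi ≤ 3.15 := Real.pi_lt_d2.le
  have h25 : (0 : ℝ) ≤ r * 25 ^ N := by positivity
  have h2 : ((VF N).card : ℝ) * ((VF N).card : ℝ) ≤ (3 * 4 ^ N) * (3 * 4 ^ N) :=
    mul_le_mul hc hc hc0 (by positivity)
  have e400 : (400 : ℝ) ^ N = 4 ^ N * 4 ^ N * 25 ^ N := by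
    rw [← mul_pow, ← mul_pow]; norm_num
  calc ((VF N).card : ℝ) * (((VF N).card : ℝ) * (2 * Real.pi * (r * 25 ^ N)))
      = (((VF N).card : ℝ) * ((VF N).card : ℝ)) * (2 * Real.pi * (r * 25 ^ N)) := by ring
    _ ≤ ((3 * 4 ^ N) * (3 * 4 ^ N)) * (2 * Real.pi * (r * 25 ^ N)) :=
        mul_le_mul_of_nonneg_right h2 (by positivity)
    _ = (18 * Real.pi) * (r * 400 ^ N) := by rw [e400]; ring
    _ ≤ 60 * (r * 400 ^ N) := mul_le_mul_of_nonneg_right (by nlinarith) (by positivity)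

/-- the corner that stops a path -/
private theorem xb_stop {N : ℕ} {r t : ℝ} (hr : 0 ≤ r) (hrt : r ≤ t) (ht : 0 < t) (hN : 12 * t + 6 ≤ N) {x v w : ℂ}
    (hv : ‖v‖ = 1) (hw : ‖w‖ = 1) {σ T s : ℝ} (h0 : 0 ≤ σ) (h1 : σ ≤ 1) (hTs : T < s)
    (hst : s ≤ t) {L : List (Fin 3)}
    (hL : T345.Fl (x + (σ : ℂ) * (x - (r : ℂ) * w - x)) (v + (σ : ℂ) * (v + ((r / t : ℝ) : ℂ) * w - v)) T L)
    (hc : T345.fold L (x + (σ : ℂ) * (x - (r : ℂ) * w - x) + (s : ℂ) * (v + (σ : ℂ) * (v + ((r / t : ℝ) : ℂ) * w - v))) ∈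
      T345.corner) :
    x + (s : ℂ) * v - ((σ * r * (1 - s / t) : ℝ) : ℂ) * w ∈ VF N ∧
      0 ≤ σ * r * (1 - s / t) ∧ σ * r * (1 - s / t) ≤ r ∧ 0 < s := by
  have hT0 : 0 ≤ T := hL.nonneg T345
  have hs0 : 0 < s := lt_of_le_of_lt hT0 hTs
  have hst1 : s / t ≤ 1 := by rw [div_le_one ht]; exact hst
  have hst0 : 0 ≤ s / t := by positivity
  have hσr : 0 ≤ σ * r := mul_nonneg h0 hr
  have hσr1 : σ * r ≤ r := by nlinarith
  refine ⟨?_, mul_nonneg hσr (by linarith), by nlinarith, hs0⟩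
  have hlen := T345_length hL
  have hrt1 : r / t ≤ 1 := by rw [div_le_one ht]; exact hrt
  have hrt0 : 0 ≤ r / t := by positivity
  have hnv : ‖v + (σ : ℂ) * (v + ((r / t : ℝ) : ℂ) * w - v)‖ ≤ 2 := by
    have e : v + (σ : ℂ) * (v + ((r / t : ℝ) : ℂ) * w - v) = v + ((σ * (r / t) : ℝ) : ℂ) * w := by
      push_cast; ring
    rw [e]
    refine (norm_add_le _ _).trans ?_
    rw [norm_mul, Complex.norm_real, hv, hw, mul_one, Real.norm_eq_abs, abs_of_nonneg (by positivity)]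
    nlinarith
  have hlN : L.length ≤ N := by
    have h2 : (L.length : ℝ) ≤ N := by
      have h3 : T * ‖v + (σ : ℂ) * (v + ((r / t : ℝ) : ℂ) * w - v)‖ ≤ t * 2 :=
        mul_le_mul (by linarith) hnv (norm_nonneg _) ht.le
      linarith
    exact_mod_cast h2
  have hmem := mem_VF hlN hc
  have e : x + (σ : ℂ) * (x - (r : ℂ) * w - x) + (s : ℂ) * (v + (σ : ℂ) * (v + ((r / t : ℝ) : ℂ) * w - v)) =
      x + (s : ℂ) * v - ((σ * r * (1 - s / t) : ℝ) : ℂ) * w := by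
    have ht' : (t : ℂ) ≠ 0 := by exact_mod_cast ht.ne'
    push_cast
    field_simp
    ring
  rwa [e] at hmem

theorem good {N : ℕ} {r t : ℝ} (hr : 0 ≤ r) (hrt : r ≤ t) (ht : 0 < t) (hN : 12 * t + 6 ≤ N) {x : ℂ} {θ : Dir} (hx : x ∈ T345.dom)
    (hx' : x - (r : ℂ) * (Complex.I * dir θ) ∈ T345.dom) (hθ : θ ∉ badTh N r)
    (h1 : ∀ (M : List (Fin 3)) (i : Fin 3), T345.fold M (x + (t : ℂ) * dir θ) ∉ T345.line i)
    (h2 : ∀ (M : List (Fin 3)) (i : Fin 3), T345.fold M (x + (t : ℂ) * (- dir θ)) ∉ T345.line i) :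
    (∃ M, T345.Fl x (dir θ) t M ∧
      T345.Fl (x - (r : ℂ) * (Complex.I * dir θ)) (dir θ + ((r / t : ℝ) : ℂ) * (Complex.I * dir θ)) t M) ∨
    (∃ M, T345.Fl x (- dir θ) t M ∧
      T345.Fl (x - (r : ℂ) * (Complex.I * dir θ)) (- dir θ + ((r / t : ℝ) : ℂ) * (Complex.I * dir θ)) t M) := by
  have ht' : (t : ℂ) ≠ 0 := by exact_mod_cast ht.ne'
  set v : ℂ := dir θ with hvdef
  set w : ℂ := Complex.I * v with hwdef
  have hv : ‖v‖ = 1 := norm_dir θ
  have hw : ‖w‖ = 1 := by rw [hwdef, norm_mul, Complex.norm_I, hv, mul_one]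
  have hy1 : x + (t : ℂ) * v = x - (r : ℂ) * w + (t : ℂ) * (v + ((r / t : ℝ) : ℂ) * w) := by
    push_cast
    field_simp
    ring
  have hy2 : x + (t : ℂ) * (-v) = x - (r : ℂ) * w + (t : ℂ) * (-v + ((r / t : ℝ) : ℂ) * w) := by
    push_cast
    field_simp
    ring
  rcases T345.common_word hx hx' ht hy1 h1 with hA | ⟨σ, T, s, hσ0, hσ1, _, hTs, hst, L, hL, hc⟩
  · exact Or.inl hA
  rcases T345.common_word hx hx' ht hy2 h2 with hB | ⟨σ', T', s', hσ0', hσ1', _, hTs', hst', L', hL', hc'⟩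
  · exact Or.inr hB
  exfalso
  obtain ⟨p1, p2, p3, p4⟩ := xb_stop hr hrt ht hN hv hw hσ0 hσ1 hTs hst hL hc
  obtain ⟨q1, q2, q3, q4⟩ := xb_stop hr hrt ht hN (by rw [norm_neg]; exact hv) hw hσ0' hσ1' hTs' hst' hL' hc'
  set a : ℝ := σ * r * (1 - s / t) with ha
  set b : ℝ := σ' * r * (1 - s' / t) with hb
  have e : (x + (s : ℂ) * v - (a : ℂ) * w) - (x + (s' : ℂ) * (-v) - (b : ℂ) * w) =
      ((s + s' : ℝ) : ℂ) * v + ((b - a : ℝ) : ℂ) * w := by
    push_cast; ring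
  have hvv : dt v v = 1 := by rw [dt_self, hv]; norm_num
  have hww : dt w w = 1 := by rw [hwdef, xb_dt_ii, hvv]
  have hd1 : dt ((x + (s : ℂ) * v - (a : ℂ) * w) - (x + (s' : ℂ) * (-v) - (b : ℂ) * w)) v = s + s' := by
    rw [e, dt_add_left, dt_smul_left, dt_smul_left, hvv, hwdef, xb_dt_iv]
    ring
  have hd2 : dt ((x + (s : ℂ) * v - (a : ℂ) * w) - (x + (s' : ℂ) * (-v) - (b : ℂ) * w)) w = b - a := by
    rw [e, dt_add_left, dt_smul_left, dt_smul_left, hww, hwdef, xb_dt_vi]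
    ring
  apply hθ
  unfold badTh
  rw [Set.mem_iUnion₂]
  refine ⟨_, p1, ?_⟩
  rw [Set.mem_iUnion₂]
  refine ⟨_, q1, ?_, ?_⟩
  · intro h
    rw [h, sub_self] at hd1
    have : dt (0 : ℂ) v = 0 := by simp [dt]
    linarith
  · have e3 : Complex.I * dir θ = w := rfl
    rw [e3, hd2, abs_le]
    constructor <;> linarith

end Pool.Bil
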