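import Pool.Agent.Lib.MP_0fc3df_an.XExt
import Pool.Agent.Lib.MP_0fc3df_an.Loc

/-!
# BIW-XCw: common itineraries

Proof.  `x_σ = x + σ (x' - x)`, `v_σ = v + σ (v' - v)`, `0 ≤ σ ≤ 1`: `x_σ ∈ dom` (`convex_dom'`), `x_σ + t v_σ = x + t v`.  If for some `σ` the
second case of `extend_or_corner'` holds, we are in the second case.  Otherwise every `σ` has an itinerary `m σ` at time `t`
(`Fl.earlier`).  `m` is locally constant on `Icc 0 1` (`Fl.local`, `Fl.unique`), hence constant (`IsLocallyConstant.apply_eq_of_preconnectedSpace`).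
-/

set_option autoImplicit false

namespace Pool.Bil

open MeasureTheory Set Filter Topology Complex
open scoped ENNReal

namespace Poly

variable {ι : Type} [Finite ι] (P : Poly ι)

theorem common_word {x x' v v' : ℂ} {t : ℝ} (hx : x ∈ P.dom) (hx' : x' ∈ P.dom) (ht : 0 < t)
    (hy : x + (t : ℂ) * v = x' + (t : ℂ) * v')
    (hgen : ∀ (M : List ι) (i : ι), P.fold M (x + (t : ℂ) * v) ∉ P.line i) :
    (∃ M, P.Fl x v t M ∧ P.Fl x' v' t M) ∨
      (∃ σ T s : ℝ, 0 ≤ σ ∧ σ ≤ 1 ∧ 0 ≤ T ∧ T < s ∧ s ≤ t ∧ ∃ L, P.Fl (x + (σ : ℂ) * (x' - x)) (v + (σ : ℂ) * (v' - v)) T L ∧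
        P.fold L (x + (σ : ℂ) * (x' - x) + (s : ℂ) * (v + (σ : ℂ) * (v' - v))) ∈ P.corner) := by
  classical
  have hdom : ∀ σ : Icc (0 : ℝ) 1, x + ((σ : ℝ) : ℂ) * (x' - x) ∈ P.dom := by
    intro σ
    have h := P.convex_dom'.add_smul_sub_mem hx hx' σ.2
    rwa [Complex.real_smul] at h
  have hend : ∀ σ : ℝ, x + (σ : ℂ) * (x' - x) + (t : ℂ) * (v + (σ : ℂ) * (v' - v)) = x + (t : ℂ) * v := by
    intro σ
    have e : (t : ℂ) * (v' - v) = x - x' := by linear_combination -hy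
    linear_combination (σ : ℂ) * e
  by_cases hbad : ∃ σ : Icc (0 : ℝ) 1, ∃ T s : ℝ, 0 ≤ T ∧ T < s ∧ s ≤ t ∧ ∃ L,
      P.Fl (x + ((σ : ℝ) : ℂ) * (x' - x)) (v + ((σ : ℝ) : ℂ) * (v' - v)) T L ∧
        P.fold L (x + ((σ : ℝ) : ℂ) * (x' - x) + (s : ℂ) * (v + ((σ : ℝ) : ℂ) * (v' - v))) ∈ P.corner
  · right
    obtain ⟨σ, T, s, h⟩ := hbad
    exact ⟨σ, T, s, σ.2.1, σ.2.2, h⟩
  left
  have hex : ∀ σ : Icc (0 : ℝ) 1, ∃ M, P.Fl (x + ((σ : ℝ) : ℂ) * (x' - x)) (v + ((σ : ℝ) : ℂ) * (v' - v)) t M := by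
    intro σ
    rcases P.extend_or_corner' (hdom σ) ht.le (v := v + ((σ : ℝ) : ℂ) * (v' - v)) with h | h
    · obtain ⟨T, hT, L, hL⟩ := h
      refine Fl.earlier P (hdom σ) hL ht.le hT.le ?_
      intro M i
      rw [hend]
      exact hgen M i
    · exact absurd ⟨σ, h⟩ hbad
  choose m hm using hex
  have hloc : IsLocallyConstant m := by
    rw [IsLocallyConstant.iff_eventually_eq]
    intro σ
    have h1 := Fl.local P (hm σ)
    have hc : Continuous fun τ : Icc (0 : ℝ) 1 =>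
        ((x + ((τ : ℝ) : ℂ) * (x' - x), v + ((τ : ℝ) : ℂ) * (v' - v), t) : ℂ × ℂ × ℝ) := by fun_prop
    have h2 := (hc.tendsto σ).eventually h1
    filter_upwards [h2] with τ hτ
    exact Fl.unique P (hdom τ) (hm τ) (hτ ht.le)
  have h01 : m ⟨0, by norm_num⟩ = m ⟨1, by norm_num⟩ := hloc.apply_eq_of_preconnectedSpace _ _
  have a0 := hm ⟨0, by norm_num⟩
  have a1 := hm ⟨1, by norm_num⟩
  rw [← h01] at a1
  refine ⟨m ⟨0, by norm_num⟩, ?_, ?_⟩
  · simpa using a0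
  · simpa using a1

end Poly

end Pool.Bil
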