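import Pool.Agent.Lib.MP_0fc3df_an.Ext

/-!
# BIW-XExt: itineraries at earlier times, change of the speed, convexity
-/

set_option autoImplicit false

namespace Pool.Bil

open MeasureTheory Set Filter Topology Complex
open scoped ENNReal

namespace Poly

variable {ι : Type} [Finite ι] (P : Poly ι)

/-- a path has an itinerary at every earlier time at which it is on no side -/
theorem Fl.earlier {x v : ℂ} {T : ℝ} {L : List ι} (hx : x ∈ P.dom) (h : P.Fl x v T L) {t : ℝ} (ht0 : 0 ≤ t) (ht : t ≤ T)
    (hgen : ∀ (M : List ι) (i : ι), P.fold M (x + (t : ℂ) * v) ∉ P.line i) : ∃ M, P.Fl x v t M := by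
  induction h with
  | @stay T h1 h2 =>
    exact ⟨[], Fl.stay ht0 (P.mem_dom_of_le hx h2 ht0 ht)⟩
  | @bounce t1 T s r i L hF hs hr hT hz hd ih =>
    rcases le_or_gt t t1 with h1 | h1
    · exact ih h1
    · rcases lt_trichotomy t (t1 + s) with h2 | h2 | h2
      · refine ⟨L, hF.extend P h1.le ?_⟩
        have e : ∀ q : ℝ, P.fold L (x + (q : ℂ) * v) = P.fold L (x + (t1 : ℂ) * v) + ((q - t1 : ℝ) : ℂ) * P.foldv L v := by
          intro q; rw [← fold_line]; congr 3; push_cast; ring
        rw [e]
        have hz' := P.side_le hz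
        rw [e] at hz'
        exact P.mem_dom_of_lt (a := t1 + s - t1) (hF.mem P) hz' (by linarith) (by linarith)
      · exact absurd (by rw [h2]; exact hz.1) (hgen L i)
      · refine ⟨i :: L, Fl.bounce (s := s) (r := t - t1 - s) hF hs (by linarith) (by ring) hz ?_⟩
        set z := P.fold L (x + ((t1 + s : ℝ) : ℂ) * v) with hzd
        have hrz : P.rf i z = z := P.rf_of_line hz.1
        have e : ∀ q : ℝ, P.fold (i :: L) (x + (q : ℂ) * v)
            = P.fold (i :: L) (x + (T : ℂ) * v) + ((T - q : ℝ) : ℂ) * (- P.foldv (i :: L) v) := by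
          intro q
          have := P.fold_line (i :: L) x v T (q - T)
          rw [show T + (q - T) = q by ring] at this
          rw [this]; push_cast; ring
        have ez : P.fold (i :: L) (x + ((t1 + s : ℝ) : ℂ) * v) = z := by rw [fold, ← hzd, hrz]
        have hz' := P.side_le hz
        rw [← ez, e] at hz'
        rw [e]
        exact P.mem_dom_of_lt (a := T - (t1 + s)) hd hz' (by linarith) (by linarith)

/-- change of the speed -/
theorem Fl.scale {x v : ℂ} {t : ℝ} {L : List ι} (h : P.Fl x v t L) {c : ℝ} (hc : 0 < c) :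
    P.Fl x ((c : ℂ) * v) (t / c) L := by
  have hc' : (c : ℂ) ≠ 0 := by exact_mod_cast hc.ne'
  have e : ∀ q : ℝ, x + ((q / c : ℝ) : ℂ) * ((c : ℂ) * v) = x + (q : ℂ) * v := by
    intro q; push_cast; field_simp
  induction h with
  | @stay T h1 h2 => exact Fl.stay (by positivity) (by rw [e]; exact h2)
  | @bounce t1 T s r i L hF hs hr hT hz hd ih =>
    refine Fl.bounce (s := s / c) (r := r / c) ih (by positivity) (by positivity) (by rw [hT]; ring) ?_ ?_
    · rw [← add_div, e]; exact hz
    · rw [e]; exact hd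

theorem convex_dom' : Convex ℝ P.dom := by
  have : P.dom = ⋂ i, {z | dt (P.n i) z < P.c i} := by ext z; simp [dom]
  rw [this]
  refine convex_iInter fun i => ?_
  have hl : IsLinearMap ℝ (dt (P.n i)) :=
    ⟨fun a b => dt_add_right _ _ _, fun c a => by rw [Complex.real_smul, dt_smul_right]; rfl⟩
  exact convex_halfSpace_lt hl _

end Poly

end Pool.Bil
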