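import Pool.Agent.Lib.MP_0fc3df_an.XExt
import Pool.Agent.Lib.MP_0fc3df_an.FlowMeas

/-!
# BIW-XFwd: the forward estimate (any polygon)

`Kf t r`: the points `p = (x, θ)` such that `x` and `x' = x - r i v` (`v = dir θ`) reach the same point `x + t v` with the same itinerary.
`isOpen_Kf`: `Fl.local` and continuity.
`fwd`: put `h = arctan (r/t)`, `c = cos h > 0`: `v + (r/t) i v = (1/c) dir (θ + h)` (`e^{ih} = c (1 + i tan h)`), so by `Fl.scale`
`Fl x' (dir (θ + h)) (t/c) M`.  For a.e. `p ∈ Kf t r` (`Inv` at the times `t` and `t/c`, the map `p ↦ (x', θ + h)` preserves the measure: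
`measurePreserving_shear`, `measurePreserving_rot`): `f p = f (Psi M t p)` and `f (x', θ + h) = f (Psi M (t/c) (x', θ + h))`; the first components of
both are `fold M (x + t v)`, the second are `foldth M θ` and `foldth M (θ + h) = foldth M θ ± h` (`foldth_add`).  So
`‖f (x', θ) - f p‖ₑ ≤ ‖f (x', θ + h) - f (x', θ)‖ₑ + H (Psi M t p)`, `H q = ‖f (q.1, q.2 + h) - f q‖ₑ + ‖f (q.1, q.2 + (-h)) - f q‖ₑ`; integrate: the first
term gives at most `Mv f h` (`measurePreserving_shear`), the second `≤ ∫ H = Mv f h + Mv f (-h) = 2 Mv f h` (`flow_lintegral`, `Mv_neg`).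
-/

set_option autoImplicit false

namespace Pool.Bil

open MeasureTheory Set Filter Topology Complex
open scoped ENNReal

namespace Poly

variable {ι : Type} [Finite ι] (P : Poly ι)

/-- the points from which the translation by `-r i v` can be compared at time `t` -/
def Kf (t r : ℝ) : Set (ℂ × Dir) :=
  {p | p.1 ∈ P.dom ∧ p.1 - (r : ℂ) * (Complex.I * dir p.2) ∈ P.dom ∧ ∃ M, P.Fl p.1 (dir p.2) t M ∧
    P.Fl (p.1 - (r : ℂ) * (Complex.I * dir p.2)) (dir p.2 + ((r / t : ℝ) : ℂ) * (Complex.I * dir p.2)) t M}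

private theorem XFwd_cont (r : ℝ) :
    Continuous fun q : ℂ × Dir => q.1 - (r : ℂ) * (Complex.I * dir q.2) :=
  continuous_fst.sub (continuous_const.mul (continuous_const.mul
    (continuous_dir.comp continuous_snd)))

theorem isOpen_Kf {t : ℝ} (ht : 0 < t) (r : ℝ) : IsOpen (P.Kf t r) := by
  rw [isOpen_iff_mem_nhds]
  rintro p ⟨h1, h2, M, h3, h4⟩
  have hd : Continuous fun q : ℂ × Dir => dir q.2 := continuous_dir.comp continuous_snd
  have e1 : ∀ᶠ q : ℂ × Dir in 𝓝 p, q.1 ∈ P.dom :=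
    continuous_fst.continuousAt.eventually_mem (P.isOpen_dom.mem_nhds h1)
  have e2 : ∀ᶠ q : ℂ × Dir in 𝓝 p, q.1 - (r : ℂ) * (Complex.I * dir q.2) ∈ P.dom :=
    (XFwd_cont r).continuousAt.eventually_mem (P.isOpen_dom.mem_nhds h2)
  have c3 : Continuous fun q : ℂ × Dir => ((q.1, dir q.2, t) : ℂ × ℂ × ℝ) :=
    continuous_fst.prodMk (hd.prodMk continuous_const)
  have e3 : ∀ᶠ q : ℂ × Dir in 𝓝 p, 0 ≤ t → P.Fl q.1 (dir q.2) t M :=
    c3.continuousAt.eventually (h3.local P)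
  have c4 : Continuous fun q : ℂ × Dir => ((q.1 - (r : ℂ) * (Complex.I * dir q.2),
      dir q.2 + ((r / t : ℝ) : ℂ) * (Complex.I * dir q.2), t) : ℂ × ℂ × ℝ) :=
    (XFwd_cont r).prodMk ((hd.add (continuous_const.mul (continuous_const.mul hd))).prodMk
      continuous_const)
  have e4 : ∀ᶠ q : ℂ × Dir in 𝓝 p, 0 ≤ t → P.Fl (q.1 - (r : ℂ) * (Complex.I * dir q.2))
      (dir q.2 + ((r / t : ℝ) : ℂ) * (Complex.I * dir q.2)) t M :=
    c4.continuousAt.eventually (h4.local P)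
  filter_upwards [e1, e2, e3, e4] with q a1 a2 a3 a4
  exact ⟨a1, a2, M, a3 ht.le, a4 ht.le⟩

omit [Finite ι] in
private theorem XFwd_dir (θ : Dir) {t : ℝ} (r : ℝ) :
    dir (θ + ((Real.arctan (r / t) : ℝ) : Dir)) = ((Real.cos (Real.arctan (r / t)) : ℝ) : ℂ) *
      (dir θ + ((r / t : ℝ) : ℂ) * (Complex.I * dir θ)) := by
  have hc := Real.cos_arctan_pos (r / t)
  have h1 : Real.sin (Real.arctan (r / t)) = Real.cos (Real.arctan (r / t)) * (r / t) := by
    have h2 := Real.tan_arctan (r / t)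
    rw [Real.tan_eq_sin_div_cos, div_eq_iff hc.ne'] at h2
    rw [h2, mul_comm]
  rw [dir_add, dir_coe, Complex.exp_mul_I, ← Complex.ofReal_cos, ← Complex.ofReal_sin, h1]
  push_cast
  ring

theorem fwd {f : ℂ × Dir → ℝ} (hf : Measurable f) (hi : P.Inv f) {t : ℝ} (ht : 0 < t) (r : ℝ) :
    ∫⁻ p in P.Kf t r, ‖f (p.1 - (r : ℂ) * (Complex.I * dir p.2), p.2) - f p‖ₑ ≤ 3 * Mv f (Real.arctan (r / t)) := by
  set h : ℝ := Real.arctan (r / t) with hh
  set c : ℝ := Real.cos h with hcd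
  have hc : 0 < c := Real.cos_arctan_pos (r / t)
  have hK : MeasurableSet (P.Kf t r) := (P.isOpen_Kf ht r).measurableSet
  have hS : MeasurePreserving
      (fun p : ℂ × Dir => (p.1 - (r : ℂ) * (Complex.I * dir p.2), p.2)) volume volume := by
    have := measurePreserving_shear (a := fun θ => -((r : ℂ) * (Complex.I * dir θ)))
      (continuous_const.mul (continuous_const.mul continuous_dir)).neg
    simpa only [← sub_eq_add_neg] using this
  have hR := measurePreserving_rot (h : Dir)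
  have hR' := measurePreserving_rot (-(h : Dir))
  have hT := hR.comp hS
  have m1 : Measurable (fun p : ℂ × Dir => ‖f (p.1, p.2 + (h : Dir)) - f p‖ₑ) :=
    ((hf.comp hR.measurable).sub hf).enorm
  have m2 : Measurable (fun p : ℂ × Dir => ‖f (p.1, p.2 + (-(h : Dir))) - f p‖ₑ) :=
    ((hf.comp hR'.measurable).sub hf).enorm
  have m3 : Measurable (fun p : ℂ × Dir =>
      ‖f (p.1 - (r : ℂ) * (Complex.I * dir p.2), p.2 + (h : Dir)) -
        f (p.1 - (r : ℂ) * (Complex.I * dir p.2), p.2)‖ₑ) :=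
    ((hf.comp hT.measurable).sub (hf.comp hS.measurable)).enorm
  have hflow : ∫⁻ p in P.Kf t r,
      ‖f (p.1 - (r : ℂ) * (Complex.I * dir p.2), p.2 + (h : Dir)) - f p‖ₑ ≤
        ∫⁻ q : ℂ × Dir, (‖f (q.1, q.2 + (h : Dir)) - f q‖ₑ +
          ‖f (q.1, q.2 + (-(h : Dir))) - f q‖ₑ) := by
    refine P.flow_lintegral ht.le hK ?_
    have a1 := hi t ht.le
    have a2 := hT.quasiMeasurePreserving.ae (hi (t / c) (by positivity))
    rw [ae_restrict_iff' hK]
    filter_upwards [a1, a2] with p b1 b2 hp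
    obtain ⟨d1, d2, M, f1, f2⟩ := hp
    refine ⟨M, ⟨d1, f1⟩, ?_⟩
    have c1 := b1 d1 M f1
    have c2 := b2 d2 M (by
      show P.Fl (p.1 - (r : ℂ) * (Complex.I * dir p.2)) (dir (p.2 + (h : Dir))) (t / c) M
      rw [hh, XFwd_dir]
      exact Fl.scale P f2 hc)
    have c2' : f (P.Psi M (t / c) (p.1 - (r : ℂ) * (Complex.I * dir p.2), p.2 + (h : Dir))) =
        f (p.1 - (r : ℂ) * (Complex.I * dir p.2), p.2 + (h : Dir)) := c2
    have e1 : p.1 - (r : ℂ) * (Complex.I * dir p.2) + ((t / c : ℝ) : ℂ) * dir (p.2 + (h : Dir)) =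
        p.1 + (t : ℂ) * dir p.2 := by
      have ht' : (t : ℂ) ≠ 0 := by exact_mod_cast ht.ne'
      have hc' : (c : ℂ) ≠ 0 := by exact_mod_cast hc.ne'
      rw [hh, XFwd_dir, ← hh, ← hcd]
      push_cast
      field_simp
      ring
    have e2 : P.Psi M (t / c) (p.1 - (r : ℂ) * (Complex.I * dir p.2), p.2 + (h : Dir)) =
        ((P.Psi M t p).1, P.foldth M (p.2 + (h : Dir))) := by
      show (P.fold M (p.1 - (r : ℂ) * (Complex.I * dir p.2) +
        ((t / c : ℝ) : ℂ) * dir (p.2 + (h : Dir))), P.foldth M (p.2 + (h : Dir))) = _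
      rw [e1]
      rfl
    rw [e2] at c2'
    show ‖f (p.1 - (r : ℂ) * (Complex.I * dir p.2), p.2 + (h : Dir)) - f p‖ₑ ≤
      ‖f ((P.Psi M t p).1, (P.Psi M t p).2 + (h : Dir)) - f (P.Psi M t p)‖ₑ +
        ‖f ((P.Psi M t p).1, (P.Psi M t p).2 + (-(h : Dir))) - f (P.Psi M t p)‖ₑ
    rw [← c2', ← c1]
    have e3 : (P.Psi M t p).2 = P.foldth M p.2 := rfl
    rcases P.foldth_add M p.2 (h : Dir) with e | e
    · rw [e, e3]
      exact le_self_add
    · rw [e, e3]
      exact le_add_self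
  calc ∫⁻ p in P.Kf t r, ‖f (p.1 - (r : ℂ) * (Complex.I * dir p.2), p.2) - f p‖ₑ
      ≤ ∫⁻ p in P.Kf t r, (‖f (p.1 - (r : ℂ) * (Complex.I * dir p.2), p.2 + (h : Dir)) -
        f (p.1 - (r : ℂ) * (Complex.I * dir p.2), p.2)‖ₑ +
        ‖f (p.1 - (r : ℂ) * (Complex.I * dir p.2), p.2 + (h : Dir)) - f p‖ₑ) := by
        refine lintegral_mono fun p => ?_
        have e2 : f (p.1 - (r : ℂ) * (Complex.I * dir p.2), p.2) - f p =
            (f (p.1 - (r : ℂ) * (Complex.I * dir p.2), p.2 + (h : Dir)) - f p) -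
            (f (p.1 - (r : ℂ) * (Complex.I * dir p.2), p.2 + (h : Dir)) -
              f (p.1 - (r : ℂ) * (Complex.I * dir p.2), p.2)) := by ring
        rw [e2]
        exact (enorm_sub_le (E := ℝ)).trans (le_of_eq (add_comm _ _))
    _ = (∫⁻ p in P.Kf t r, ‖f (p.1 - (r : ℂ) * (Complex.I * dir p.2), p.2 + (h : Dir)) -
        f (p.1 - (r : ℂ) * (Complex.I * dir p.2), p.2)‖ₑ) +
        ∫⁻ p in P.Kf t r, ‖f (p.1 - (r : ℂ) * (Complex.I * dir p.2), p.2 + (h : Dir)) - f p‖ₑ :=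
        lintegral_add_left m3 _
    _ ≤ Mv f h + (Mv f h + Mv f (-h)) := by
        refine add_le_add ?_ (hflow.trans ?_)
        · refine (setLIntegral_le_lintegral _ _).trans ?_
          have h6 := hS.lintegral_comp m1
          unfold Mv
          rw [← h6]
        · rw [lintegral_add_left m1]
          unfold Mv
          rw [AddCircle.coe_neg]
    _ = 3 * Mv f h := by
        rw [Mv_neg]
        ring

end Poly

end Pool.Bil
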