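import Mathlib

/-!
# BIW-XNum: the choice of the parameters (pure calculus)

`h → 0+`, `ℓ = log (1/h)`, `t = ℓ / 200`, `r = t tan h`, `N = ⌈12 t + 6⌉₊`.
`N ≤ 12 t + 7`, `400^N ≤ 400^7 · exp (12 t log 400)`, `log 400 ≤ 9 log 2 ≤ 6.3` so `12 t log 400 ≤ 0.378 ℓ ≤ ℓ / 2`, `exp (ℓ/2) = h^(-1/2)`;
`tan h ≤ 2 h` for small `h`; so `r 400^N ≤ 400^7 · ℓ h^(1/2) / 100 → 0`.
-/

set_option autoImplicit false

namespace Pool.Bil

open Set Filter Topology

/-- the time `t` for the rotation angle `h` -/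
noncomputable def tOf (h : ℝ) : ℝ := Real.log (1 / h) / 200

/-- the translation `r = t tan h` -/
noncomputable def rOf (h : ℝ) : ℝ := tOf h * Real.tan h

/-- the number of reflections -/
noncomputable def NOf (h : ℝ) : ℕ := ⌈12 * tOf h + 6⌉₊

private theorem xnum_small : ∀ᶠ h : ℝ in 𝓝[>] 0, 0 < h ∧ h < 1 / 2 := by
  have h1 : ∀ᶠ h : ℝ in 𝓝[>] 0, h ∈ Ioo (0 : ℝ) (1 / 2) := Ioo_mem_nhdsGT (by norm_num)
  exact h1

private theorem xnum_cos {h : ℝ} (h0 : 0 < h) (h1 : h < 1 / 2) : 1 / 2 ≤ Real.cos h := by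
  have := Real.one_sub_sq_div_two_le_cos (x := h)
  nlinarith

private theorem xnum_tan_le {h : ℝ} (h0 : 0 < h) (h1 : h < 1 / 2) : Real.tan h ≤ 2 * h := by
  have hc := xnum_cos h0 h1
  have hs := Real.sin_le h0.le
  rw [Real.tan_eq_sin_div_cos, div_le_iff₀ (by linarith)]
  nlinarith

private theorem xnum_le_tan {h : ℝ} (h0 : 0 < h) (h1 : h < 1 / 2) : h ≤ Real.tan h :=
  Real.le_tan h0.le (by have := Real.pi_gt_three; linarith)

private theorem xnum_tan_le_one {h : ℝ} (h0 : 0 < h) (h1 : h < 1 / 2) : Real.tan h ≤ 1 := by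
  have := xnum_tan_le h0 h1
  linarith

private theorem xnum_log {h : ℝ} (h0 : 0 < h) (h1 : h < 1 / 2) : 0 < Real.log (1 / h) := by
  apply Real.log_pos
  rw [lt_div_iff₀ h0]
  linarith

private theorem xnum_tend : Tendsto (fun h : ℝ => Real.log h * h ^ (1 / 2 : ℝ)) (𝓝[>] 0) (𝓝 0) :=
  tendsto_log_mul_rpow_nhdsGT_zero (by norm_num)

private theorem xnum_log400 : Real.log 400 ≤ 6.3 := by
  have h1 : Real.log 400 ≤ Real.log (2 ^ 9) := Real.log_le_log (by norm_num) (by norm_num)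
  rw [Real.log_pow] at h1
  have h2 := Real.log_two_lt_d9
  push_cast at h1
  linarith

private theorem xnum_main {h : ℝ} (h0 : 0 < h) (h1 : h < 1 / 2) :
    rOf h * 400 ^ NOf h ≤ 400 ^ 7 / 100 * (-(Real.log h * h ^ (1 / 2 : ℝ))) := by
  have hl := xnum_log h0 h1
  have ht : 0 < tOf h := by unfold tOf; positivity
  have htan0 : 0 < Real.tan h := lt_of_lt_of_le h0 (xnum_le_tan h0 h1)
  have hN : (NOf h : ℝ) ≤ 12 * tOf h + 7 := by
    have := Nat.ceil_lt_add_one (a := 12 * tOf h + 6) (by positivity)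
    unfold NOf
    linarith
  have e1 : (400 : ℝ) ^ NOf h = Real.exp (NOf h * Real.log 400) := by
    rw [mul_comm, Real.exp_mul, Real.exp_log (by norm_num), Real.rpow_natCast]
  have hlog0 : 0 < Real.log 400 := Real.log_pos (by norm_num)
  have e2 : Real.exp (NOf h * Real.log 400) ≤ 400 ^ 7 * Real.exp (Real.log (1 / h) / 2) := by
    have e3 : (400 : ℝ) ^ 7 = Real.exp (7 * Real.log 400) := by
      rw [mul_comm, Real.exp_mul, Real.exp_log (by norm_num)]
      norm_num
    rw [e3, ← Real.exp_add]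
    apply Real.exp_le_exp.2
    have h4 : (NOf h : ℝ) * Real.log 400 ≤ (12 * tOf h + 7) * Real.log 400 :=
      mul_le_mul_of_nonneg_right hN hlog0.le
    have h5 : 12 * tOf h * Real.log 400 ≤ Real.log (1 / h) / 2 := by
      have h6 := xnum_log400
      unfold tOf
      nlinarith
    nlinarith
  have e4 : Real.exp (Real.log (1 / h) / 2) * h = h ^ (1 / 2 : ℝ) := by
    have h7 : Real.log (1 / h) = - Real.log h := by
      rw [one_div, Real.log_inv]
    rw [h7, Real.rpow_def_of_pos h0]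
    nth_rw 2 [← Real.exp_log h0]
    rw [← Real.exp_add]
    congr 1
    ring
  have h8 : Real.log (1 / h) = - Real.log h := by
    rw [one_div, Real.log_inv]
  calc rOf h * 400 ^ NOf h ≤ (tOf h * (2 * h)) * (400 ^ 7 * Real.exp (Real.log (1 / h) / 2)) := by
        apply mul_le_mul
        · unfold rOf
          exact mul_le_mul_of_nonneg_left (xnum_tan_le h0 h1) ht.le
        · rw [e1]; exact e2
        · positivity
        · positivity
    _ = 400 ^ 7 / 100 * (Real.log (1 / h) * (Real.exp (Real.log (1 / h) / 2) * h)) := by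
        unfold tOf
        ring
    _ = 400 ^ 7 / 100 * (-(Real.log h * h ^ (1 / 2 : ℝ))) := by
        rw [e4, h8]
        ring

private theorem xnum_r0 {h : ℝ} (h0 : 0 < h) (h1 : h < 1 / 2) : 0 < rOf h := by
  have hl := xnum_log h0 h1
  have ht : 0 < tOf h := by unfold tOf; positivity
  have htan0 : 0 < Real.tan h := lt_of_lt_of_le h0 (xnum_le_tan h0 h1)
  exact mul_pos ht htan0

theorem num_bad : Tendsto (fun h : ℝ => 60 * (rOf h * 400 ^ NOf h)) (𝓝[>] 0) (𝓝 0) := by
  have h1 : Tendsto (fun h : ℝ => 60 * (400 ^ 7 / 100 * (-(Real.log h * h ^ (1 / 2 : ℝ)))))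
      (𝓝[>] 0) (𝓝 0) := by
    have := ((xnum_tend.neg).const_mul (400 ^ 7 / 100 : ℝ)).const_mul (60 : ℝ)
    simpa using this
  refine squeeze_zero' ?_ ?_ h1
  · filter_upwards [xnum_small] with h hh
    have := xnum_r0 hh.1 hh.2
    positivity
  · filter_upwards [xnum_small] with h hh
    have := xnum_main hh.1 hh.2
    linarith

/-- eventually: `t > 0`, `0 < r ≤ t`, `12 t + 6 ≤ N`, `arctan (r/t) = h`, and `h log (1/h) ≤ 200 r` -/
theorem num_ev : ∀ᶠ h : ℝ in 𝓝[>] 0, 0 < tOf h ∧ 0 < rOf h ∧ rOf h ≤ tOf h ∧ 12 * tOf h + 6 ≤ NOf h ∧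
    Real.arctan (rOf h / tOf h) = h ∧ h * Real.log (1 / h) ≤ 200 * rOf h := by
  filter_upwards [xnum_small] with h hh
  obtain ⟨h0, h1⟩ := hh
  have hl := xnum_log h0 h1
  have ht : 0 < tOf h := by unfold tOf; positivity
  refine ⟨ht, xnum_r0 h0 h1, ?_, ?_, ?_, ?_⟩
  · unfold rOf
    exact mul_le_of_le_one_right ht.le (xnum_tan_le_one h0 h1)
  · exact Nat.le_ceil _
  · have e : rOf h / tOf h = Real.tan h := by
      unfold rOf
      field_simp
    rw [e]
    have := Real.pi_gt_three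
    exact Real.arctan_tan (by linarith) (by linarith)
  · have e : 200 * rOf h = Real.tan h * Real.log (1 / h) := by
      unfold rOf tOf
      ring
    rw [e]
    exact mul_le_mul_of_nonneg_right (xnum_le_tan h0 h1) hl.le

theorem num_r : Tendsto rOf (𝓝[>] 0) (𝓝 0) := by
  refine squeeze_zero' ?_ ?_ num_bad
  · filter_upwards [xnum_small] with h hh
    exact (xnum_r0 hh.1 hh.2).le
  · filter_upwards [xnum_small] with h hh
    have h1 := xnum_r0 hh.1 hh.2
    have h2 : (1 : ℝ) ≤ 400 ^ NOf h := one_le_pow₀ (by norm_num)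
    nlinarith

end Pool.Bil
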