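import Pool.Agent.Lib.MP_0fc3df_an.XTele
import Pool.Agent.Lib.MP_0fc3df_an.XNum
import Pool.Agent.Lib.MP_0fc3df_an.TransA

/-!
# BIW-XLim: invariance under translations orthogonal to the direction

`Sv_zero`: let `0 < d`, `ε > 0`.  For `h` in the set of `hM ε` (frequently, `h → 0+`) put `t = tOf h`, `r = rOf h`, `N = NOf h`, `E = (badTh N r)ᶜ`,
`m = ⌊d / r⌋₊` (`m r ≤ d < (m + 1) r`).  Then
`Sv f univ d ≤ Sv f E d + 2 B · volume (dom ×ˢ badTh N r)`        (`|f| ≤ B`)
`Sv f E d ≤ Sv f E (m r) + ∫ ‖f (x - d i v, θ) - f (x - m r i v, θ)‖`  (convexity of `dom`)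
`Sv f E (m r) ≤ m Sv f E r ≤ m · 6 Mv f h ≤ m · 6 ε h log (1/h) ≤ m · 6 ε · 200 r ≤ 1200 ε d`.
Let `h → 0+`: the second term of the first line `→ 0` (`badTh_vol`, `num_bad`), the integral `→ 0` (`tendsto_shear`, `m r → d`).
So `Sv f univ d ≤ 1200 ε d` for all `ε > 0`.
`trans_inv'`: `d > 0`: `lintegral_eq_zero_iff`; `d = 0` trivial; `d < 0`: substitute `p ↦ (p.1 - d i v, p.2)` (`measurePreserving_shear`).
-/

set_option autoImplicit false

namespace Pool.Bil

open MeasureTheory Set Filter Topology Complex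
open scoped ENNReal

/-- the shear -/
private noncomputable def lsh (r : ℝ) (p : ℂ × Dir) : ℂ × Dir := (p.1 - (r : ℂ) * (Complex.I * dir p.2), p.2)

private theorem continuous_lsh (r : ℝ) : Continuous (lsh r) := by
  unfold lsh
  have := continuous_dir
  fun_prop

private theorem lsh_lsh (r s : ℝ) (p : ℂ × Dir) : lsh r (lsh s p) = lsh (r + s) p := by
  unfold lsh
  ext
  · simp only
    push_cast
    ring
  · rfl

private theorem lsh_zero (p : ℂ × Dir) : lsh 0 p = p := by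
  unfold lsh
  simp

private theorem lsh_mp (r : ℝ) : MeasurePreserving (lsh r) volume volume := by
  have h := Poly.measurePreserving_shear (a := fun θ : Dir => -((r : ℂ) * (Complex.I * dir θ)))
    (by
      have := continuous_dir
      fun_prop)
  have he : lsh r = fun p : ℂ × Dir => (p.1 + -((r : ℂ) * (Complex.I * dir p.2)), p.2) := by
    funext p
    unfold lsh
    rw [sub_eq_add_neg]
  rw [he]
  exact h

private def lSd (E : Set Dir) (d : ℝ) : Set (ℂ × Dir) := {p | p.1 ∈ T345.dom ∧ (lsh d p).1 ∈ T345.dom ∧ p.2 ∈ E}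

private theorem lSv_eq (f : ℂ × Dir → ℝ) (E : Set Dir) (d : ℝ) :
    T345.Sv f E d = ∫⁻ p in lSd E d, ‖f (lsh d p) - f p‖ₑ := rfl

private theorem lSd_meas {E : Set Dir} (hE : MeasurableSet E) (d : ℝ) : MeasurableSet (lSd E d) := by
  have h3 : MeasurableSet {p : ℂ × Dir | p.1 ∈ T345.dom} := (T345.isOpen_dom.preimage continuous_fst).measurableSet
  have h4 : MeasurableSet {p : ℂ × Dir | (lsh d p).1 ∈ T345.dom} :=
    (T345.isOpen_dom.preimage (continuous_fst.comp (continuous_lsh d))).measurableSet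
  have h5 : MeasurableSet {p : ℂ × Dir | p.2 ∈ E} := measurable_snd hE
  exact h3.inter (h4.inter h5)

private theorem lSd_sub {E : Set Dir} {s d : ℝ} (hs : 0 ≤ s) (hsd : s ≤ d) : lSd E d ⊆ lSd E s := by
  intro p hp
  refine ⟨hp.1, ?_, hp.2.2⟩
  have h1 := T345.mem_dom_of_le (y := p.1) (w := -(Complex.I * dir p.2)) (a := d) (s := s) hp.1
    (by
      have := hp.2.1
      unfold lsh at this
      simpa [sub_eq_add_neg] using this) hs hsd
  simpa [lsh, sub_eq_add_neg] using h1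

private theorem tendsto_floor' {s : ℝ} (hs : 0 ≤ s) :
    Tendsto (fun r : ℝ => (⌊s / r⌋₊ : ℝ) * r) (𝓝[>] 0) (𝓝 s) := by
  have h1 : Tendsto (fun r : ℝ => s - r) (𝓝[>] 0) (𝓝 s) := by
    have : Tendsto (fun r : ℝ => s - r) (𝓝 0) (𝓝 (s - 0)) :=
      (continuous_const.sub continuous_id).tendsto 0
    rw [sub_zero] at this
    exact this.mono_left nhdsWithin_le_nhds
  refine tendsto_of_tendsto_of_tendsto_of_le_of_le' h1 tendsto_const_nhds ?_ ?_
  · filter_upwards [self_mem_nhdsWithin] with r hr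
    have hr' : 0 < r := hr
    have h2 := Nat.lt_floor_add_one (s / r)
    rw [div_lt_iff₀ hr'] at h2
    nlinarith
  · filter_upwards [self_mem_nhdsWithin] with r hr
    have hr' : 0 < r := hr
    have h2 := Nat.floor_le (div_nonneg hs hr'.le)
    rwa [le_div_iff₀ hr'] at h2

private theorem rOf_tend : Tendsto rOf (𝓝[>] 0) (𝓝[>] 0) := by
  rw [tendsto_nhdsWithin_iff]
  refine ⟨num_r, ?_⟩
  filter_upwards [num_ev] with h hh
  exact hh.2.1

/-- the part of the bad directions -/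
private theorem lA {f : ℂ × Dir → ℝ} {B : ℝ} (hB : ∀ p, |f p| ≤ B) (N : ℕ) (r d : ℝ) :
    T345.Sv f univ d ≤ T345.Sv f (badTh N r)ᶜ d +
      ENNReal.ofReal (2 * B) * (volume T345.dom * volume (badTh N r)) := by
  have hsub : lSd univ d ⊆ lSd (badTh N r)ᶜ d ∪ (T345.dom ×ˢ badTh N r) := by
    intro p hp
    by_cases h : p.2 ∈ badTh N r
    · exact Or.inr ⟨hp.1, h⟩
    · exact Or.inl ⟨hp.1, hp.2.1, h⟩
  rw [lSv_eq, lSv_eq]
  refine (lintegral_mono_set hsub).trans ((lintegral_union_le _ _ _).trans (add_le_add le_rfl ?_))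
  have hbd : ∀ p : ℂ × Dir, ‖f (lsh d p) - f p‖ₑ ≤ ENNReal.ofReal (2 * B) := by
    intro p
    rw [← ofReal_norm, Real.norm_eq_abs]
    apply ENNReal.ofReal_le_ofReal
    have h1 := abs_sub (f (lsh d p)) (f p)
    have h2 := hB (lsh d p)
    have h3 := hB p
    linarith
  calc ∫⁻ p in T345.dom ×ˢ badTh N r, ‖f (lsh d p) - f p‖ₑ
      ≤ ∫⁻ _ in T345.dom ×ˢ badTh N r, ENNReal.ofReal (2 * B) := lintegral_mono fun p => hbd p
    _ = ENNReal.ofReal (2 * B) * (volume T345.dom * volume (badTh N r)) := by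
      rw [setLIntegral_const, Measure.volume_eq_prod, Measure.prod_prod]

/-- the last step of the telescope -/
private theorem lB {f : ℂ × Dir → ℝ} (hf : Measurable f) (E : Set Dir) {s d : ℝ} (hs : 0 ≤ s) (hsd : s ≤ d) :
    T345.Sv f E d ≤ T345.Sv f E s + ∫⁻ p : ℂ × Dir, ‖f (lsh s p) - f (lsh d p)‖ₑ := by
  have hme : Measurable fun p : ℂ × Dir => ‖f (lsh s p) - f (lsh d p)‖ₑ :=
    ((hf.comp (continuous_lsh _).measurable).sub (hf.comp (continuous_lsh _).measurable)).enorm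
  calc T345.Sv f E d ≤ ∫⁻ p in lSd E d, (‖f (lsh s p) - f p‖ₑ + ‖f (lsh s p) - f (lsh d p)‖ₑ) := by
        rw [lSv_eq]
        refine lintegral_mono fun p => ?_
        have : f (lsh d p) - f p = (f (lsh s p) - f p) + (-(f (lsh s p) - f (lsh d p))) := by ring
        rw [this]
        refine (enorm_add_le _ _).trans ?_
        rw [enorm_neg]
    _ = (∫⁻ p in lSd E d, ‖f (lsh s p) - f p‖ₑ) + ∫⁻ p in lSd E d, ‖f (lsh s p) - f (lsh d p)‖ₑ :=
        lintegral_add_right _ hme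
    _ ≤ T345.Sv f E s + ∫⁻ p : ℂ × Dir, ‖f (lsh s p) - f (lsh d p)‖ₑ := by
        refine add_le_add ?_ (lintegral_mono' Measure.restrict_le_self le_rfl)
        rw [lSv_eq]
        exact lintegral_mono_set (lSd_sub hs hsd)

theorem Sv_zero {f : ℂ × Dir → ℝ} (hf : Measurable f) (hfi : Integrable f) {B : ℝ} (hB : ∀ p, |f p| ≤ B) (hi : T345.Inv f)
    (hM : ∀ ε : ℝ, 0 < ε → ∃ᶠ h : ℝ in 𝓝[>] 0, Mv f h ≤ ENNReal.ofReal (ε * (h * Real.log (1 / h)))) {d : ℝ} (hd : 0 < d) :
    T345.Sv f univ d = 0 := by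
  have hB0 : 0 ≤ B := (abs_nonneg _).trans (hB (0, 0))
  have hle : ∀ δ : ℝ, 0 < δ → T345.Sv f univ d ≤ ENNReal.ofReal δ := by
    intro δ hδ
    have hε : 0 < δ / (3 * (1200 * d)) := by positivity
    have hfr := hM _ hε
    -- the shear
    have hev1 : ∀ᶠ h : ℝ in 𝓝[>] 0, (∫⁻ p : ℂ × Dir, ‖f (lsh ((⌊d / rOf h⌋₊ : ℝ) * rOf h) p) - f (lsh d p)‖ₑ)
        < ENNReal.ofReal (δ / 3) := by
      have h1 := (tendsto_shear hfi d).comp ((tendsto_floor' hd.le).comp rOf_tend)
      have h2 : (0 : ℝ≥0∞) < ENNReal.ofReal (δ / 3) := by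
        rw [ENNReal.ofReal_pos]
        positivity
      exact h1.eventually_lt_const h2
    -- the bad directions
    have hev2 : ∀ᶠ h : ℝ in 𝓝[>] 0, 2 * B * ((volume T345.dom).toReal * (60 * (rOf h * 400 ^ NOf h))) < δ / 3 := by
      have h1 : Tendsto (fun h : ℝ => 2 * B * ((volume T345.dom).toReal * (60 * (rOf h * 400 ^ NOf h))))
          (𝓝[>] 0) (𝓝 (2 * B * ((volume T345.dom).toReal * 0))) :=
        (num_bad.const_mul _).const_mul _
      rw [mul_zero, mul_zero] at h1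
      exact h1.eventually_lt_const (by positivity)
    obtain ⟨h, hh1, hh2, hh3, hh4⟩ := (hfr.and_eventually (hev1.and (hev2.and num_ev))).exists
    obtain ⟨ht, hr, hrt, hN, harc, hlog⟩ := hh4
    set m : ℕ := ⌊d / rOf h⌋₊ with hm
    have hmr : (m : ℝ) * rOf h ≤ d := by
      have h2 := Nat.floor_le (div_nonneg hd.le hr.le)
      rwa [le_div_iff₀ hr] at h2
    have hE : MeasurableSet (badTh (NOf h) (rOf h))ᶜ := (badTh_closed _ _).measurableSet.compl
    have s1 := lA (f := f) hB (NOf h) (rOf h) d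
    have s2 := lB hf (badTh (NOf h) (rOf h))ᶜ (s := (m : ℝ) * rOf h) (d := d) (by positivity) hmr
    have s3 := T345.Sv_mul hf hE hr.le m
    have s4 := Sv_step hf hi hr.le hrt ht hN
    rw [harc] at s4
    have s5 : T345.Sv f (badTh (NOf h) (rOf h))ᶜ ((m : ℝ) * rOf h) ≤ ENNReal.ofReal (δ / 3) := by
      have e1 : (m : ℝ≥0∞) * (6 * ENNReal.ofReal (δ / (3 * (1200 * d)) * (200 * rOf h))) =
          ENNReal.ofReal ((m : ℝ) * (6 * (δ / (3 * (1200 * d)) * (200 * rOf h)))) := by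
        rw [ENNReal.ofReal_mul (p := (m : ℝ)) (by positivity), ENNReal.ofReal_natCast,
          ENNReal.ofReal_mul (p := (6 : ℝ)) (by norm_num)]
        norm_num
      calc T345.Sv f (badTh (NOf h) (rOf h))ᶜ ((m : ℝ) * rOf h)
          ≤ (m : ℝ≥0∞) * T345.Sv f (badTh (NOf h) (rOf h))ᶜ (rOf h) := s3
        _ ≤ (m : ℝ≥0∞) * (6 * Mv f h) := by gcongr
        _ ≤ (m : ℝ≥0∞) * (6 * ENNReal.ofReal (δ / (3 * (1200 * d)) * (200 * rOf h))) := by
            gcongr
            refine hh1.trans (ENNReal.ofReal_le_ofReal ?_)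
            exact mul_le_mul_of_nonneg_left hlog hε.le
        _ = ENNReal.ofReal ((m : ℝ) * (6 * (δ / (3 * (1200 * d)) * (200 * rOf h)))) := e1
        _ ≤ ENNReal.ofReal (δ / 3) := by
            apply ENNReal.ofReal_le_ofReal
            have e2 : (m : ℝ) * (6 * (δ / (3 * (1200 * d)) * (200 * rOf h))) =
                (1200 * (δ / (3 * (1200 * d)))) * ((m : ℝ) * rOf h) := by ring
            rw [e2]
            refine (mul_le_mul_of_nonneg_left hmr (by positivity)).trans (le_of_eq ?_)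
            field_simp
    have s6 : ENNReal.ofReal (2 * B) * (volume T345.dom * volume (badTh (NOf h) (rOf h))) ≤ ENNReal.ofReal (δ / 3) := by
      calc ENNReal.ofReal (2 * B) * (volume T345.dom * volume (badTh (NOf h) (rOf h)))
          ≤ ENNReal.ofReal (2 * B) * (volume T345.dom * ENNReal.ofReal (60 * (rOf h * 400 ^ NOf h))) := by
            gcongr
            exact badTh_vol _ hr.le
        _ = ENNReal.ofReal (2 * B * ((volume T345.dom).toReal * (60 * (rOf h * 400 ^ NOf h)))) := by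
            rw [ENNReal.ofReal_mul (p := 2 * B) (by positivity),
              ENNReal.ofReal_mul (p := (volume T345.dom).toReal) ENNReal.toReal_nonneg,
              ENNReal.ofReal_toReal T345_fin]
        _ ≤ ENNReal.ofReal (δ / 3) := ENNReal.ofReal_le_ofReal hh3.le
    calc T345.Sv f univ d
        ≤ (ENNReal.ofReal (δ / 3) + ENNReal.ofReal (δ / 3)) + ENNReal.ofReal (δ / 3) :=
          s1.trans (add_le_add (s2.trans (add_le_add s5 hh2.le)) s6)
      _ = ENNReal.ofReal δ := by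
          rw [← ENNReal.ofReal_add (by positivity) (by positivity), ← ENNReal.ofReal_add (by positivity) (by positivity)]
          congr 1
          ring
  by_contra hne
  have h0 : 0 < T345.Sv f univ d := pos_iff_ne_zero.2 hne
  obtain ⟨q, hq0, hq1⟩ := ENNReal.lt_iff_exists_nnreal_btwn.1 h0
  have hq0' : (0 : ℝ) < q := by exact_mod_cast hq0
  have := hle q hq0'
  rw [ENNReal.ofReal_coe_nnreal] at this
  exact absurd (lt_of_lt_of_le hq1 this) (lt_irrefl _)

private theorem trans_pos {f : ℂ × Dir → ℝ} (hf : Measurable f) (hfi : Integrable f) {B : ℝ} (hB : ∀ p, |f p| ≤ B) (hi : T345.Inv f)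
    (hM : ∀ ε : ℝ, 0 < ε → ∃ᶠ h : ℝ in 𝓝[>] 0, Mv f h ≤ ENNReal.ofReal (ε * (h * Real.log (1 / h)))) {s : ℝ} (hs : 0 ≤ s) :
    ∀ᵐ p : ℂ × Dir, p.1 ∈ T345.dom → (lsh s p).1 ∈ T345.dom → f (lsh s p) = f p := by
  rcases hs.eq_or_lt with rfl | hs
  · exact Eventually.of_forall fun p _ _ => by rw [lsh_zero]
  have h0 := Sv_zero hf hfi hB hi hM hs
  have hme : Measurable fun p : ℂ × Dir => ‖f (lsh s p) - f p‖ₑ :=
    ((hf.comp (continuous_lsh _).measurable).sub hf).enorm
  rw [lSv_eq, lintegral_eq_zero_iff hme] at h0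
  have h1 := (ae_restrict_iff' (lSd_meas MeasurableSet.univ s)).1 h0
  filter_upwards [h1] with p hp h2 h3
  have hp' : ‖f (lsh s p) - f p‖ₑ = 0 := hp ⟨h2, h3, mem_univ _⟩
  rw [enorm_eq_zero] at hp'
  exact sub_eq_zero.1 hp'

theorem trans_inv' {f : ℂ × Dir → ℝ} (hf : Measurable f) (hfi : Integrable f) {B : ℝ} (hB : ∀ p, |f p| ≤ B) (hi : T345.Inv f)
    (hM : ∀ ε : ℝ, 0 < ε → ∃ᶠ h : ℝ in 𝓝[>] 0, Mv f h ≤ ENNReal.ofReal (ε * (h * Real.log (1 / h)))) (s : ℝ) :
    ∀ᵐ p : ℂ × Dir, p.1 ∈ T345.dom → p.1 - (s : ℂ) * (Complex.I * dir p.2) ∈ T345.dom →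
      f (p.1 - (s : ℂ) * (Complex.I * dir p.2), p.2) = f p := by
  change ∀ᵐ p : ℂ × Dir, p.1 ∈ T345.dom → (lsh s p).1 ∈ T345.dom → f (lsh s p) = f p
  rcases le_total 0 s with h | h
  · exact trans_pos hf hfi hB hi hM h
  · have h1 := trans_pos hf hfi hB hi hM (s := -s) (by linarith)
    have h2 := (lsh_mp s).quasiMeasurePreserving.ae h1
    filter_upwards [h2] with p hp h3 h4
    have e : lsh (-s) (lsh s p) = p := by rw [lsh_lsh, neg_add_cancel, lsh_zero]
    rw [e] at hp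
    exact (hp h4 h3).symm

end Pool.Bil
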