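import Pool.Agent.Lib.MP_0fc3df_an.XLim
import Pool.Agent.Lib.MP_0fc3df_an.Fib
import Pool.Agent.Lib.MP_0fc3df_an.Refl
import Pool.Agent.Lib.MP_0fc3df_an.Rot

/-!
# BIW-XMain: invariant functions with a small modulus of continuity in the direction are constant
-/

set_option autoImplicit false

namespace Pool.Bil

open MeasureTheory Set Filter Topology Complex
open scoped ENNReal

/-- bounded functions which vanish outside the triangle -/
theorem main_bdd {f : ℂ × Dir → ℝ} (hf : Measurable f) (hfi : Integrable f) {B : ℝ} (hB : ∀ p, |f p| ≤ B) (hi : T345.Inv f)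
    (hM : ∀ ε : ℝ, 0 < ε → ∃ᶠ h : ℝ in 𝓝[>] 0, Mv f h ≤ ENNReal.ofReal (ε * (h * Real.log (1 / h)))) :
    ∃ c : ℝ, ∀ᵐ p : ℂ × Dir, p.1 ∈ T345.dom → f p = c := by
  have hne : T345.dom.Nonempty := by
    refine ⟨⟨1, 1⟩, ?_⟩
    rw [T345_dom]
    refine ⟨?_, ?_, ?_⟩ <;> norm_num
  obtain ⟨g, hg, hfg⟩ := fib T345.isOpen_dom T345.convex_dom' hne T345_fin hfi (fun s => T345.along hi s)
    (fun s => trans_inv' hf hfi hB hi hM s)
  obtain ⟨c, hc⟩ := rot_const hg (T345.refl_inv hi hg hfg (T345_side 1)) (T345.refl_inv hi hg hfg (T345_side 2)) T345_ord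
  refine ⟨c, ?_⟩
  have h2 : ∀ᵐ p : ℂ × Dir, g p.2 = c :=
    (Measure.quasiMeasurePreserving_snd (μ := (volume : Measure ℂ)) (ν := (volume : Measure Dir))).ae hc
  filter_upwards [hfg, h2] with p h3 h4 hp
  rw [h3 hp, h4]

/-- the modulus of continuity in the direction of a function on the phase space of the triangle -/
noncomputable def wv (f : ℂ × Dir → ℝ) (h : ℝ) : ℝ≥0∞ :=
  ∫⁻ p in {p : ℂ × Dir | p.1 ∈ T345.dom}, min 1 ‖f (p.1, p.2 + (h : Dir)) - f p‖ₑ

private theorem arctan_le (a b : ℝ) : ‖Real.arctan a - Real.arctan b‖ₑ ≤ 4 * min 1 ‖a - b‖ₑ := by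
  have h1 : |Real.arctan a - Real.arctan b| ≤ |a - b| := by
    have hl : LipschitzWith 1 Real.arctan := by
      refine lipschitzWith_of_nnnorm_deriv_le Real.differentiable_arctan ?_
      intro x
      rw [Real.deriv_arctan]
      have h0 : (0 : ℝ) < 1 + x ^ 2 := by positivity
      have : ‖1 / (1 + x ^ 2)‖ ≤ 1 := by
        rw [Real.norm_of_nonneg (by positivity), div_le_one h0]
        nlinarith [sq_nonneg x]
      exact_mod_cast this
    have := hl.dist_le_mul a b
    simpa [Real.dist_eq] using this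
  have h2 : |Real.arctan a - Real.arctan b| ≤ 4 := by
    have a1 := Real.arctan_lt_pi_div_two a
    have a2 := Real.neg_pi_div_two_lt_arctan a
    have b1 := Real.arctan_lt_pi_div_two b
    have b2 := Real.neg_pi_div_two_lt_arctan b
    have := Real.pi_lt_four
    rw [abs_le]; constructor <;> linarith
  rw [mul_min, mul_one]
  refine le_min ?_ ?_
  · rw [Real.enorm_eq_ofReal_abs]
    calc ENNReal.ofReal |Real.arctan a - Real.arctan b| ≤ ENNReal.ofReal 4 := ENNReal.ofReal_le_ofReal h2
      _ = 4 := by norm_num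
  · rw [Real.enorm_eq_ofReal_abs, Real.enorm_eq_ofReal_abs]
    calc ENNReal.ofReal |Real.arctan a - Real.arctan b| ≤ ENNReal.ofReal |a - b| := ENNReal.ofReal_le_ofReal h1
      _ = 1 * ENNReal.ofReal |a - b| := (one_mul _).symm
      _ ≤ 4 * ENNReal.ofReal |a - b| := by gcongr; norm_num

theorem main_log {f : ℂ × Dir → ℝ} (hf : Measurable f) (hi : T345.Inv f)
    (hM : ∀ ε : ℝ, 0 < ε → ∃ᶠ h : ℝ in 𝓝[>] 0, wv f h ≤ ENNReal.ofReal (ε * (h * Real.log (1 / h)))) :
    ∃ c : ℝ, ∀ᵐ p : ℂ × Dir, p.1 ∈ T345.dom → f p = c := by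
  classical
  set S : Set (ℂ × Dir) := {p : ℂ × Dir | p.1 ∈ T345.dom} with hS
  have hSm : MeasurableSet S := (T345.isOpen_dom.preimage continuous_fst).measurableSet
  set g : ℂ × Dir → ℝ := S.indicator fun p => Real.arctan (f p) with hg
  have hgm : Measurable g := (Real.measurable_arctan.comp hf).indicator hSm
  have hgin : ∀ p, p.1 ∈ T345.dom → g p = Real.arctan (f p) := fun p hp => Set.indicator_of_mem (s := S) hp _
  have hgout : ∀ p, p.1 ∉ T345.dom → g p = 0 := fun p hp => Set.indicator_of_notMem (s := S) hp _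
  have hB : ∀ p, |g p| ≤ 2 := by
    intro p
    by_cases hp : p.1 ∈ T345.dom
    · rw [hgin p hp]
      have a1 := Real.arctan_lt_pi_div_two (f p)
      have a2 := Real.neg_pi_div_two_lt_arctan (f p)
      have := Real.pi_lt_four
      rw [abs_le]; constructor <;> linarith
    · rw [hgout p hp]; norm_num
  have hSfin : volume S ≠ ∞ := by
    have : S = T345.dom ×ˢ (univ : Set Dir) := by ext p; simp [hS]
    rw [this, Measure.volume_eq_prod, Measure.prod_prod]
    exact ENNReal.mul_ne_top T345_fin (measure_ne_top _ _)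
  have hgi : Integrable g := by
    have h1 : Integrable (S.indicator fun _ : ℂ × Dir => (2 : ℝ)) :=
      (integrable_indicator_iff hSm).2 (integrableOn_const hSfin (by simp))
    refine h1.mono' hgm.aestronglyMeasurable (Eventually.of_forall fun p => ?_)
    by_cases hp : p.1 ∈ T345.dom
    · rw [Set.indicator_of_mem (s := S) hp]; exact hB p
    · rw [Set.indicator_of_notMem (s := S) hp, hgout p hp]; simp
  have hginv : T345.Inv g := by
    intro t ht
    filter_upwards [hi t ht] with p hp hpd L hL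
    have h1 : (T345.Psi L t p).1 ∈ T345.dom := hL.mem T345
    rw [hgin _ h1, hgin _ hpd, hp hpd L hL]
  have hMg : ∀ h : ℝ, Mv g h ≤ 4 * wv f h := by
    intro h
    calc Mv g h ≤ ∫⁻ p : ℂ × Dir, S.indicator (fun p => 4 * min 1 ‖f (p.1, p.2 + (h : Dir)) - f p‖ₑ) p := by
          refine lintegral_mono fun p => ?_
          by_cases hp : p.1 ∈ T345.dom
          · rw [Set.indicator_of_mem (s := S) hp, hgin _ hp, hgin (p.1, p.2 + (h : Dir)) hp]
            exact arctan_le _ _
          · rw [hgout _ hp, hgout (p.1, p.2 + (h : Dir)) hp]; simp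
      _ = ∫⁻ p in S, 4 * min 1 ‖f (p.1, p.2 + (h : Dir)) - f p‖ₑ := lintegral_indicator hSm _
      _ = 4 * wv f h := by
          rw [lintegral_const_mul' _ _ (by norm_num)]; rfl
  obtain ⟨c, hc⟩ := main_bdd hgm hgi hB hginv (fun ε hε => by
    refine (hM (ε / 4) (by positivity)).mono fun h hh => ?_
    refine (hMg h).trans ?_
    calc 4 * wv f h ≤ 4 * ENNReal.ofReal (ε / 4 * (h * Real.log (1 / h))) := by gcongr
      _ = ENNReal.ofReal 4 * ENNReal.ofReal (ε / 4 * (h * Real.log (1 / h))) := by norm_num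
      _ = ENNReal.ofReal (ε * (h * Real.log (1 / h))) := by
          rw [← ENNReal.ofReal_mul (by norm_num)]; congr 1; ring)
  refine ⟨Real.tan c, ?_⟩
  filter_upwards [hc] with p hp hpd
  rw [← hp hpd, hgin p hpd, Real.tan_arctan]

end Pool.Bil
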