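import Pool.Agent.Lib.MP_0fc3df_an.XBad
import Pool.Agent.Lib.MP_0fc3df_an.XFwd
import Pool.Agent.Lib.MP_0fc3df_an.MeasB
import Pool.Agent.Lib.MP_0fc3df_an.Wb

/-!
# BIW-XTele: the translation estimate for the good directions, telescoping

`Sv_step`: `E = (badTh N r)ᶜ`.  For a.e. `p` of the domain of integration (`ae_not_line` for the time `t`, and for the backward path: the same
after `p ↦ (p.1, p.2 + π)`, `dir_add_pi`) `good` gives `p ∈ Kf t r` or `(p.1, p.2 + π) ∈ Kf t (-r)` (`dir (θ + π) = - dir θ`, so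
`x - (-r) i dir (θ + π) = x - r i dir θ` and `dir (θ+π) + ((-r)/t) i dir (θ+π) = - dir θ + (r/t) i dir θ`).  The first part is `≤ 3 Mv f h`, `h = arctan (r/t)`
(`fwd`); the second part: substitute `p ↦ (p.1, p.2 + π)` and use `fwd` for `f' (x, θ) = f (x, θ + π)` (`inv_rev`) and `-r`
(`Mv f' (-h) = Mv f' h = Mv f h`).
`Sv_mul`: induction on `m`: `x, x - (m+1) r i v ∈ dom` implies `x - m r i v ∈ dom` (`convex_dom'`); triangle inequality; shear
(`measurePreserving_shear`).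
-/

set_option autoImplicit false

namespace Pool.Bil

open MeasureTheory Set Filter Topology Complex
open scoped ENNReal

/-- the shear -/
private noncomputable def tsh (r : ℝ) (p : ℂ × Dir) : ℂ × Dir := (p.1 - (r : ℂ) * (Complex.I * dir p.2), p.2)

private theorem continuous_tsh (r : ℝ) : Continuous (tsh r) := by
  unfold tsh
  have := continuous_dir
  fun_prop

private theorem tsh_tsh (r s : ℝ) (p : ℂ × Dir) : tsh r (tsh s p) = tsh (r + s) p := by
  unfold tsh
  ext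
  · simp only
    push_cast
    ring
  · rfl

private theorem tsh_zero (p : ℂ × Dir) : tsh 0 p = p := by
  unfold tsh
  simp

private noncomputable def tshH (r : ℝ) : (ℂ × Dir) ≃ₜ (ℂ × Dir) where
  toFun := tsh r
  invFun := tsh (-r)
  left_inv p := by rw [tsh_tsh, neg_add_cancel, tsh_zero]
  right_inv p := by rw [tsh_tsh, add_neg_cancel, tsh_zero]
  continuous_toFun := continuous_tsh r
  continuous_invFun := continuous_tsh (-r)

private theorem tsh_emb (r : ℝ) : MeasurableEmbedding (tsh r) := (tshH r).toMeasurableEquiv.measurableEmbedding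

private theorem tsh_mp (r : ℝ) : MeasurePreserving (tsh r) volume volume := by
  have h := Poly.measurePreserving_shear (a := fun θ : Dir => -((r : ℂ) * (Complex.I * dir θ)))
    (by
      have := continuous_dir
      fun_prop)
  have he : tsh r = fun p : ℂ × Dir => (p.1 + -((r : ℂ) * (Complex.I * dir p.2)), p.2) := by
    funext p
    unfold tsh
    rw [sub_eq_add_neg]
  rw [he]
  exact h

namespace Poly

variable {ι : Type} [Finite ι] (P : Poly ι)

/-- the modulus of continuity orthogonally to the direction, over the directions in `E` -/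
noncomputable def Sv (f : ℂ × Dir → ℝ) (E : Set Dir) (d : ℝ) : ℝ≥0∞ :=
  ∫⁻ p in {p : ℂ × Dir | p.1 ∈ P.dom ∧ p.1 - (d : ℂ) * (Complex.I * dir p.2) ∈ P.dom ∧ p.2 ∈ E},
    ‖f (p.1 - (d : ℂ) * (Complex.I * dir p.2), p.2) - f p‖ₑ

private def Sd (E : Set Dir) (d : ℝ) : Set (ℂ × Dir) := {p | p.1 ∈ P.dom ∧ (tsh d p).1 ∈ P.dom ∧ p.2 ∈ E}

omit [Finite ι] in
private theorem Sv_eq (f : ℂ × Dir → ℝ) (E : Set Dir) (d : ℝ) :
    P.Sv f E d = ∫⁻ p in P.Sd E d, ‖f (tsh d p) - f p‖ₑ := rfl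

omit [Finite ι] in
private theorem Sd_sub {E : Set Dir} {s d : ℝ} (hs : 0 ≤ s) (hsd : s ≤ d) {p : ℂ × Dir}
    (hp : p ∈ P.Sd E d) : (tsh s p).1 ∈ P.dom := by
  have h1 := P.mem_dom_of_le (y := p.1) (w := -(Complex.I * dir p.2)) (a := d) (s := s) hp.1
    (by
      have := hp.2.1
      unfold tsh at this
      simpa [sub_eq_add_neg] using this) hs hsd
  simpa [tsh, sub_eq_add_neg] using h1

theorem Sv_mul {f : ℂ × Dir → ℝ} (hf : Measurable f) {E : Set Dir} (hE : MeasurableSet E) {r : ℝ} (hr : 0 ≤ r) (m : ℕ) :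
    P.Sv f E (m * r) ≤ m * P.Sv f E r := by
  induction m with
  | zero =>
    rw [Sv_eq]
    simp [tsh_zero]
  | succ m ih =>
    have hm1 : ((m + 1 : ℕ) : ℝ) * r = r + (m : ℝ) * r := by push_cast; ring
    have hmr : 0 ≤ (m : ℝ) * r := by positivity
    have e : ∀ p, tsh (((m + 1 : ℕ) : ℝ) * r) p = tsh r (tsh ((m : ℝ) * r) p) := by
      intro p
      rw [tsh_tsh, hm1]
    have hsub1 : P.Sd E (((m + 1 : ℕ) : ℝ) * r) ⊆ P.Sd E ((m : ℝ) * r) := fun p hp =>
      ⟨hp.1, P.Sd_sub hmr (by rw [hm1]; linarith) hp, hp.2.2⟩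
    have hsub2 : P.Sd E (((m + 1 : ℕ) : ℝ) * r) ⊆ tsh ((m : ℝ) * r) ⁻¹' P.Sd E r := fun p hp =>
      ⟨P.Sd_sub hmr (by rw [hm1]; linarith) hp, by rw [← e]; exact hp.2.1, hp.2.2⟩
    have hme : Measurable fun p : ℂ × Dir => ‖f (tsh ((m : ℝ) * r) p) - f p‖ₑ :=
      ((hf.comp (continuous_tsh _).measurable).sub hf).enorm
    calc P.Sv f E (((m + 1 : ℕ) : ℝ) * r)
        ≤ ∫⁻ p in P.Sd E (((m + 1 : ℕ) : ℝ) * r),
            (‖f (tsh r (tsh ((m : ℝ) * r) p)) - f (tsh ((m : ℝ) * r) p)‖ₑ + ‖f (tsh ((m : ℝ) * r) p) - f p‖ₑ) := by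
          rw [Sv_eq]
          refine lintegral_mono fun p => ?_
          rw [e]
          have : f (tsh r (tsh ((m : ℝ) * r) p)) - f p =
            (f (tsh r (tsh ((m : ℝ) * r) p)) - f (tsh ((m : ℝ) * r) p)) + (f (tsh ((m : ℝ) * r) p) - f p) := by ring
          rw [this]
          exact enorm_add_le _ _
      _ = (∫⁻ p in P.Sd E (((m + 1 : ℕ) : ℝ) * r), ‖f (tsh r (tsh ((m : ℝ) * r) p)) - f (tsh ((m : ℝ) * r) p)‖ₑ) +
            ∫⁻ p in P.Sd E (((m + 1 : ℕ) : ℝ) * r), ‖f (tsh ((m : ℝ) * r) p) - f p‖ₑ :=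
          lintegral_add_right _ hme
      _ ≤ P.Sv f E r + m * P.Sv f E r := by
          refine add_le_add ?_ ?_
          · refine (lintegral_mono_set hsub2).trans (le_of_eq ?_)
            rw [Sv_eq]
            exact (tsh_mp ((m : ℝ) * r)).setLIntegral_comp_preimage_emb (tsh_emb _)
              (fun q => ‖f (tsh r q) - f q‖ₑ) (P.Sd E r)
          · refine (lintegral_mono_set hsub1).trans ?_
            rw [← Sv_eq]
            exact ih
      _ = ((m + 1 : ℕ) : ℝ≥0∞) * P.Sv f E r := by push_cast; ring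

end Poly

private noncomputable def trot : (ℂ × Dir) ≃ₜ (ℂ × Dir) :=
  (Homeomorph.refl ℂ).prodCongr (Homeomorph.addRight ((Real.pi : ℝ) : Dir))

private theorem trot_apply (p : ℂ × Dir) : trot p = (p.1, p.2 + ((Real.pi : ℝ) : Dir)) := rfl

private theorem tpi_add_pi : ((Real.pi : ℝ) : Dir) + ((Real.pi : ℝ) : Dir) = 0 := by
  rw [← AddCircle.coe_add, ← two_mul]
  exact AddCircle.coe_period _

private theorem measurePreserving_trot : MeasurePreserving (trot : ℂ × Dir → ℂ × Dir) volume volume :=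
  Poly.measurePreserving_rot ((Real.pi : ℝ) : Dir)

private theorem trot_emb : MeasurableEmbedding (trot : ℂ × Dir → ℂ × Dir) :=
  trot.toMeasurableEquiv.measurableEmbedding

private theorem Mv_trot (f : ℂ × Dir → ℝ) (η : ℝ) :
    Mv (fun p => f (p.1, p.2 + ((Real.pi : ℝ) : Dir))) η = Mv f η := by
  unfold Mv
  rw [← measurePreserving_trot.lintegral_comp_emb trot_emb (fun p : ℂ × Dir => ‖f (p.1, p.2 + (η : Dir)) - f p‖ₑ)]
  refine lintegral_congr fun p => ?_
  simp only [trot_apply]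
  rw [add_right_comm]

theorem Sv_step {f : ℂ × Dir → ℝ} (hf : Measurable f) (hi : T345.Inv f) {N : ℕ} {r t : ℝ} (hr : 0 ≤ r) (hrt : r ≤ t) (ht : 0 < t)
    (hN : 12 * t + 6 ≤ N) : T345.Sv f (badTh N r)ᶜ r ≤ 6 * Mv f (Real.arctan (r / t)) := by
  set f' : ℂ × Dir → ℝ := fun p => f (p.1, p.2 + ((Real.pi : ℝ) : Dir)) with hf'def
  have hf' : Measurable f' := hf.comp trot.continuous.measurable
  have h1 := T345.fwd hf hi ht r
  have h2 := T345.fwd hf' (T345.inv_rev hi) ht (-r)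
  rw [neg_div, Real.arctan_neg, Mv_neg, Mv_trot] at h2
  have hae1 := T345.ae_not_line t
  have hae2 : ∀ᵐ p : ℂ × Dir, ∀ (L : List (Fin 3)) (i : Fin 3),
      T345.fold L (p.1 + (t : ℂ) * (- dir p.2)) ∉ T345.line i := by
    have := measurePreserving_trot.quasiMeasurePreserving.ae hae1
    filter_upwards [this] with p hp
    simpa only [trot_apply, dir_add_pi] using hp
  have hm : MeasurableSet (T345.Sd (badTh N r)ᶜ r) := by
    have h3 : MeasurableSet {p : ℂ × Dir | p.1 ∈ T345.dom} := (T345.isOpen_dom.preimage continuous_fst).measurableSet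
    have h4 : MeasurableSet {p : ℂ × Dir | (tsh r p).1 ∈ T345.dom} :=
      (T345.isOpen_dom.preimage (continuous_fst.comp (continuous_tsh r))).measurableSet
    have h5 : MeasurableSet {p : ℂ × Dir | p.2 ∈ (badTh N r)ᶜ} :=
      measurable_snd (badTh_closed N r).measurableSet.compl
    exact h3.inter (h4.inter h5)
  have hcov : ∀ᵐ p : ℂ × Dir, p ∈ T345.Sd (badTh N r)ᶜ r →
      p ∈ T345.Kf t r ∪ trot ⁻¹' (T345.Kf t (-r)) := by
    filter_upwards [hae1, hae2] with p hp1 hp2 hp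
    rcases good hr hrt ht hN hp.1 hp.2.1 hp.2.2 hp1 hp2 with ⟨M, hM1, hM2⟩ | ⟨M, hM1, hM2⟩
    · exact Or.inl ⟨hp.1, hp.2.1, M, hM1, hM2⟩
    · right
      have e1 : p.1 - ((-r : ℝ) : ℂ) * (Complex.I * (- dir p.2)) = p.1 - (r : ℂ) * (Complex.I * dir p.2) := by
        push_cast
        ring
      have e2 : - dir p.2 + ((-r / t : ℝ) : ℂ) * (Complex.I * (- dir p.2)) =
          - dir p.2 + ((r / t : ℝ) : ℂ) * (Complex.I * dir p.2) := by
        push_cast
        ring
      refine ⟨hp.1, ?_, M, ?_, ?_⟩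
      · simp only [trot_apply, dir_add_pi]
        rw [e1]
        exact hp.2.1
      · simp only [trot_apply, dir_add_pi]
        exact hM1
      · simp only [trot_apply, dir_add_pi]
        rw [e1, e2]
        exact hM2
  have h3 : ∫⁻ p in trot ⁻¹' (T345.Kf t (-r)), ‖f (tsh r p) - f p‖ₑ ≤ 3 * Mv f (Real.arctan (r / t)) := by
    refine le_trans (le_of_eq ?_) h2
    rw [← measurePreserving_trot.setLIntegral_comp_preimage_emb trot_emb
      (fun p : ℂ × Dir => ‖f' (p.1 - ((-r : ℝ) : ℂ) * (Complex.I * dir p.2), p.2) - f' p‖ₑ)]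
    refine lintegral_congr fun p => ?_
    simp only [trot_apply, dir_add_pi, hf'def]
    have e3 : p.2 + ((Real.pi : ℝ) : Dir) + ((Real.pi : ℝ) : Dir) = p.2 := by
      rw [add_assoc, tpi_add_pi, add_zero]
    have e1 : p.1 - ((-r : ℝ) : ℂ) * (Complex.I * (- dir p.2)) = p.1 - (r : ℂ) * (Complex.I * dir p.2) := by
      push_cast
      ring
    rw [e3, e1]
    rfl
  calc T345.Sv f (badTh N r)ᶜ r = ∫⁻ p in T345.Sd (badTh N r)ᶜ r, ‖f (tsh r p) - f p‖ₑ := rfl
    _ ≤ ∫⁻ p in T345.Kf t r ∪ trot ⁻¹' (T345.Kf t (-r)), ‖f (tsh r p) - f p‖ₑ := by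
        refine lintegral_mono' ?_ le_rfl
        exact Measure.restrict_mono_ae hcov
    _ ≤ (∫⁻ p in T345.Kf t r, ‖f (tsh r p) - f p‖ₑ) + ∫⁻ p in trot ⁻¹' (T345.Kf t (-r)), ‖f (tsh r p) - f p‖ₑ :=
        lintegral_union_le _ _ _
    _ ≤ 3 * Mv f (Real.arctan (r / t)) + 3 * Mv f (Real.arctan (r / t)) := add_le_add h1 h3
    _ = 6 * Mv f (Real.arctan (r / t)) := by ring

end Pool.Bil
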